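import Pool.Agent.N20.EW.Stm4
import Pool.Agent.N20.KB.Cnt

/-!
# EK/BLKR (project EK of helper20): from blocks to class functions. By helper488.
-/

set_option autoImplicit false

open scoped Classical BigOperators

noncomputable section

namespace Pool.Agent.N488.EKBLKR

open Pool.Agent.Y63.NV
open Pool.Agent.Y63.KR
open Pool.Agent.N20.EW (S_BLKR KRz)
open Pool.Agent.N20.KB (aB dB AA cnt_dvd aa_aB)

/-- the blockwise equality implies the equality for every class function -/
theorem BLKR : S_BLKR := by
  intro p _ F _ _ _ red H _ _ hK z hz c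
  have h1 := cnt_dvd (p := p) (G := H) red 0 (fun B hB => by
    have h : dB red p B = 0 := by
      unfold dB
      rw [hK B hB, sub_self]
    rw [h]
    exact dvd_zero _) hz c
  rw [Nat.cast_zero, zero_dvd_iff, sub_eq_zero] at h1
  have h3 := aa_aB (p := p) red hz c
  rw [h1] at h3
  exact h3

end Pool.Agent.N488.EKBLKR
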