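import Pool.Agent.R671.MP.T12

/-!
# Conformal box dimension: homeomorphisms of the half line above a monotone function, monotonicity
-/

set_option autoImplicit false

open MeasureTheory Set Filter Topology
open scoped ENNReal NNReal

namespace Pool.Agent.N488.CB

open Pool.Agent.R671.MP

/-- A monotone function tending to `0` at `0` is dominated by a homeomorphism of `[0, ∞)`. -/
theorem exists_homeo (H : ℝ → ℝ) (hm : Monotone H) (h0 : ∀ t ≤ 0, H t = 0)
    (hlim : Tendsto H (𝓝[>] 0) (𝓝 0)) :
    ∃ η : ℝ≥0 ≃ₜ ℝ≥0, ∀ t : ℝ≥0, H t ≤ η t := by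
  have hint : ∀ a b : ℝ, IntervalIntegrable H volume a b := fun a b => hm.intervalIntegrable
  have hH0 : ∀ t, 0 ≤ H t := by
    intro t
    rcases le_total t 0 with h | h
    · rw [h0 t h]
    · rw [← h0 0 le_rfl]; exact hm h
  have hintc : ∀ c a b : ℝ, 0 ≤ c → IntervalIntegrable (fun u => H (c * u)) volume a b := by
    intro c a b hc
    exact Monotone.intervalIntegrable fun x y hxy => hm (mul_le_mul_of_nonneg_left hxy hc)
  let g : ℝ → ℝ := fun t => ∫ u in (1:ℝ)..2, H (t * u)
  have hg0 : g 0 = 0 := by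
    simp [g, h0 0 le_rfl]
  have hlow : ∀ t, 0 ≤ t → H t ≤ g t := by
    intro t ht
    have h1 : ∫ u in (1:ℝ)..2, H t ≤ ∫ u in (1:ℝ)..2, H (t * u) := by
      apply intervalIntegral.integral_mono_on (by norm_num) (by simp) (hintc t 1 2 ht)
      intro u hu
      apply hm
      nlinarith [hu.1]
    have h2 : ∫ u in (1:ℝ)..2, H t = H t := by
      rw [intervalIntegral.integral_const]
      norm_num
    rw [h2] at h1
    exact h1
  have hup : ∀ t, 0 ≤ t → g t ≤ H (2 * t) := by
    intro t ht
    have h1 : ∫ u in (1:ℝ)..2, H (t * u) ≤ ∫ u in (1:ℝ)..2, H (2 * t) := by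
      apply intervalIntegral.integral_mono_on (by norm_num) (hintc t 1 2 ht) (by simp)
      intro u hu
      apply hm
      nlinarith [hu.2]
    have h2 : ∫ u in (1:ℝ)..2, H (2 * t) = H (2 * t) := by
      rw [intervalIntegral.integral_const]
      norm_num
    rw [h2] at h1
    exact h1
  have hgm : ∀ s t, 0 ≤ s → s ≤ t → g s ≤ g t := by
    intro s t hs hst
    apply intervalIntegral.integral_mono_on (by norm_num) (hintc s 1 2 hs)
      (hintc t 1 2 (hs.trans hst))
    intro u hu
    apply hm
    have : 0 ≤ u := by linarith [hu.1]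
    exact mul_le_mul_of_nonneg_right hst this
  have hgc : ∀ t, 0 < t → ContinuousAt g t := by
    intro t ht
    have e : ∀ s, s ≠ 0 → g s = s⁻¹ * ((∫ u in (0:ℝ)..(s * 2), H u) - ∫ u in (0:ℝ)..(s * 1), H u) := by
      intro s hs
      have h1 := intervalIntegral.integral_comp_mul_left (a := 1) (b := 2) H hs
      simp only [g]
      rw [h1, intervalIntegral.integral_interval_sub_left (hint _ _) (hint _ _)]
      rfl
    have hP : Continuous fun b : ℝ => ∫ u in (0:ℝ)..b, H u :=
      intervalIntegral.continuous_primitive hint 0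
    have hc : ContinuousAt (fun s : ℝ => s⁻¹ * ((∫ u in (0:ℝ)..(s * 2), H u) -
        ∫ u in (0:ℝ)..(s * 1), H u)) t := by
      apply ContinuousAt.mul (continuousAt_inv₀ ht.ne')
      apply ContinuousAt.sub
      · exact (hP.comp (continuous_id.mul continuous_const)).continuousAt
      · exact (hP.comp (continuous_id.mul continuous_const)).continuousAt
    refine hc.congr ?_
    filter_upwards [isOpen_ne.mem_nhds ht.ne'] with s hs
    exact (e s hs).symm
  -- the candidate
  let f : ℝ≥0 → ℝ≥0 := fun t => ⟨t + g t, add_nonneg t.2 ((hH0 _).trans (hlow t t.2))⟩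
  have hfval : ∀ t, (f t : ℝ) = t + g t := fun t => rfl
  have hfm : StrictMono f := by
    intro s t hst
    rw [← NNReal.coe_lt_coe, hfval, hfval]
    have h1 : (s : ℝ) < t := hst
    have h2 := hgm s t s.2 h1.le
    linarith
  have hfc : Continuous f := by
    refine Continuous.subtype_mk ?_ _
    change Continuous fun t : ℝ≥0 => (t : ℝ) + g t
    refine NNReal.continuous_coe.add ?_
    rw [continuous_iff_continuousAt]
    intro t
    rcases eq_or_lt_of_le t.2 with h | h
    · have ht : t = 0 := by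
        apply NNReal.eq; exact h.symm
      subst ht
      change Tendsto (fun t : ℝ≥0 => g t) (𝓝 0) (𝓝 (g ((0:ℝ≥0) : ℝ)))
      rw [NNReal.coe_zero, hg0]
      -- squeeze
      have hlim2 : Tendsto H (𝓝 0) (𝓝 0) := by
        have hleft : Tendsto H (𝓝[≤] 0) (𝓝 0) := by
          refine (tendsto_const_nhds (x := (0:ℝ))).congr' ?_
          filter_upwards [self_mem_nhdsWithin] with t ht
          exact (h0 t ht).symm
        have h3 := hleft.sup hlim
        rwa [nhdsLE_sup_nhdsGT] at h3
      have hc : Tendsto (fun t : ℝ≥0 => H (2 * (t : ℝ))) (𝓝 0) (𝓝 0) := by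
        refine hlim2.comp ?_
        have : Continuous fun t : ℝ≥0 => 2 * (t : ℝ) := by fun_prop
        have h3 := this.tendsto 0
        simpa using h3
      refine squeeze_zero (fun t => (hH0 _).trans (hlow t t.2)) (fun t => hup t t.2) hc
    · exact (hgc t h).comp NNReal.continuous_coe.continuousAt
  have hfs : Function.Surjective f := by
    intro y
    apply mem_range_of_exists_le_of_exists_ge hfc
    · refine ⟨0, ?_⟩
      rw [← NNReal.coe_le_coe, hfval, NNReal.coe_zero, hg0, add_zero]
      exact y.2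
    · refine ⟨y, ?_⟩
      rw [← NNReal.coe_le_coe, hfval]
      have := (hH0 _).trans (hlow y y.2)
      linarith
  refine ⟨(hfm.orderIsoOfSurjective f hfs).toHomeomorph, fun t => ?_⟩
  change H t ≤ (f t : ℝ)
  rw [hfval]
  have := hlow t t.2
  have := t.2
  linarith

theorem coverNum_anti {Y : Type*} [MetricSpace Y] {ε ε' : ℝ} (h : ε ≤ ε') :
    coverNum Y ε' ≤ coverNum Y ε := by
  unfold coverNum
  refine le_iInf₂ fun s hs => ?_
  refine iInf₂_le s fun y => ?_
  obtain ⟨z, hz, hd⟩ := hs y
  exact ⟨z, hz, hd.trans h⟩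

theorem exists_of_coverNum_le {Y : Type*} [MetricSpace Y] {ε : ℝ} {x : ℝ}
    (h : ((coverNum Y ε : ℕ∞) : ℝ≥0∞) ≤ ENNReal.ofReal x) :
    ∃ s : Finset Y, (∀ y, ∃ z ∈ s, dist y z ≤ ε) ∧ ((s.card : ℕ) : ℝ≥0∞) ≤ ENNReal.ofReal x := by
  have hne : coverNum Y ε ≠ ⊤ := by
    intro h1
    rw [h1] at h
    simp at h
  have hlt : coverNum Y ε < coverNum Y ε + 1 := by
    obtain ⟨m, hm⟩ := ENat.ne_top_iff_exists.mp hne
    rw [← hm]
    exact_mod_cast Nat.lt_succ_self m
  conv at hlt => lhs; unfold coverNum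
  rw [iInf_lt_iff] at hlt
  obtain ⟨s, hs⟩ := hlt
  rw [iInf_lt_iff] at hs
  obtain ⟨hs1, hs2⟩ := hs
  refine ⟨s, hs1, le_trans ?_ h⟩
  obtain ⟨m, hm⟩ := ENat.ne_top_iff_exists.mp hne
  rw [← hm] at hs2 ⊢
  have h3 : s.card < m + 1 := by exact_mod_cast hs2
  have h4 : s.card ≤ m := by omega
  have h5 : ((s.card : ℕ) : ℝ≥0∞) ≤ (m : ℝ≥0∞) := by exact_mod_cast h4
  simpa using h5

theorem coverNum_le_card {Y : Type*} [MetricSpace Y] {ε : ℝ} (s : Finset Y)
    (hs : ∀ y, ∃ z ∈ s, dist y z ≤ ε) : coverNum Y ε ≤ (s.card : ℕ∞) := by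
  unfold coverNum
  exact iInf₂_le s hs

/-- covering numbers of subspaces -/
theorem coverNum_subtype {Y : Type*} [MetricSpace Y] (A : Set Y) {ε : ℝ} :
    coverNum A (2 * ε) ≤ coverNum Y ε := by
  classical
  unfold coverNum
  refine le_iInf₂ fun s hs => ?_
  let t : Finset Y := s.filter fun z => ∃ a : A, dist (a : Y) z ≤ ε
  let φ : Y → Option A := fun z => if h : ∃ a : A, dist (a : Y) z ≤ ε then some h.choose else none
  let u : Finset A := s.biUnion fun z => (φ z).toFinset
  have hu : ∀ y : A, ∃ z ∈ u, dist y z ≤ 2 * ε := by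
    intro y
    obtain ⟨z, hz, hd⟩ := hs y
    have h : ∃ a : A, dist (a : Y) z ≤ ε := ⟨y, hd⟩
    refine ⟨h.choose, ?_, ?_⟩
    · simp only [u, Finset.mem_biUnion]
      refine ⟨z, hz, ?_⟩
      simp only [φ, dif_pos h]
      simp
    · have h1 := h.choose_spec
      have h2 : dist y h.choose = dist (y : Y) (h.choose : Y) := rfl
      rw [h2]
      have h3 := dist_triangle_right (y : Y) (h.choose : Y) z
      linarith
  refine (iInf₂_le u hu).trans ?_
  have : u.card ≤ s.card := by
    calc u.card ≤ ∑ z ∈ s, (φ z).toFinset.card := Finset.card_biUnion_le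
      _ ≤ ∑ z ∈ s, 1 := by
          refine Finset.sum_le_sum fun z _ => ?_
          cases φ z <;> simp
      _ = s.card := by simp
  exact_mod_cast this

theorem upperBoxDim_subtype_le {Y : Type*} [MetricSpace Y] (A : Set Y) :
    upperBoxDim A ≤ upperBoxDim Y := by
  refine le_of_forall_gt_imp_ge_of_dense fun c hc => ?_
  obtain ⟨r, hr1, hr2⟩ := EReal.lt_iff_exists_real_btwn.mp hc
  refine le_trans ?_ hr2.le
  have h1 := coverNum_le_of_upperBoxDim_lt r hr1
  apply upperBoxDim_le r (2 ^ r) (by positivity)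
  have h2 : Tendsto (fun ε : ℝ => ε / 2) (𝓝[>] 0) (𝓝[>] 0) := by
    rw [tendsto_nhdsWithin_iff]
    constructor
    · have : Continuous fun ε : ℝ => ε / 2 := by fun_prop
      have h3 := this.tendsto 0
      simp only [zero_div] at h3
      exact h3.mono_left nhdsWithin_le_nhds
    · filter_upwards [self_mem_nhdsWithin] with ε hε
      have : (0:ℝ) < ε := hε
      show 0 < ε / 2
      linarith
  filter_upwards [h2.eventually h1, self_mem_nhdsWithin] with ε hε hε0
  have hε0' : (0:ℝ) < ε := hε0
  have h3 : coverNum A ε ≤ coverNum Y (ε / 2) := by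
    have := coverNum_subtype A (ε := ε / 2)
    rwa [show 2 * (ε / 2) = ε by ring] at this
  have h4 : ((coverNum A ε : ℕ∞) : ℝ≥0∞) ≤ ((coverNum Y (ε / 2) : ℕ∞) : ℝ≥0∞) := by
    exact_mod_cast h3
  refine h4.trans (hε.trans (le_of_eq ?_))
  congr 1
  rw [Real.div_rpow hε0'.le (by norm_num), Real.rpow_neg (by norm_num : (0:ℝ) ≤ 2)]
  field_simp

theorem conf_le_of {X : Type} [MetricSpace X] (Y : Type) [hY : MetricSpace Y] (f : X ≃ₜ Y)
    (hf : IsQuasisymmetric f) : confUpperBoxDim X ≤ upperBoxDim Y :=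
  iInf_le_of_le Y (iInf_le_of_le hY (iInf_le_of_le f (iInf_le_of_le hf le_rfl)))

/-- The conformal upper box dimension does not increase under similar embeddings. -/
theorem conf_mono {X X' : Type} [MetricSpace X] [MetricSpace X'] (ι : X' → X) (c : ℝ) (hc : 0 < c)
    (hι : ∀ x y, dist (ι x) (ι y) = c * dist x y) : confUpperBoxDim X' ≤ confUpperBoxDim X := by
  unfold confUpperBoxDim
  refine le_iInf fun Y => le_iInf fun hY => le_iInf fun f => le_iInf fun hf => ?_
  have hemb : IsEmbedding ι := by
    have h1 : IsUniformEmbedding ι := by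
      rw [Metric.isUniformEmbedding_iff]
      constructor
      · intro x y hxy
        have := hι x y
        rw [hxy, dist_self] at this
        have h2 : dist x y = 0 := by
          rcases mul_eq_zero.mp this.symm with h | h
          · exact absurd h hc.ne'
          · exact h
        exact dist_eq_zero.mp h2
      · constructor
        · rw [Metric.uniformContinuous_iff]
          intro ε hε
          refine ⟨ε / c, by positivity, fun {x y} h => ?_⟩
          rw [hι]
          rw [lt_div_iff₀ hc] at h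
          linarith
        · intro δ hδ
          refine ⟨c * δ, by positivity, fun {x y} h => ?_⟩
          rw [hι] at h
          exact lt_of_mul_lt_mul_left h hc.le
    exact h1.isEmbedding
  have hemb2 : IsEmbedding (f ∘ ι) := f.isEmbedding.comp hemb
  let g : X' ≃ₜ (range (f ∘ ι)) := hemb2.toHomeomorph
  have hg : ∀ x, ((g x : range (f ∘ ι)) : Y) = f (ι x) := fun x => rfl
  have hqs : IsQuasisymmetric g := by
    obtain ⟨η, hη⟩ := hf
    refine ⟨η, fun x a b t ht h => ?_⟩
    have h1 : dist (g x) (g a) = dist (f (ι x)) (f (ι a)) := rfl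
    have h2 : dist (g x) (g b) = dist (f (ι x)) (f (ι b)) := rfl
    rw [h1, h2]
    apply hη _ _ _ t ht
    rw [hι, hι]
    calc c * dist x a ≤ c * (t * dist x b) := mul_le_mul_of_nonneg_left h hc.le
      _ = t * (c * dist x b) := by ring
  refine (conf_le_of (range (f ∘ ι)) g hqs).trans ?_
  exact upperBoxDim_subtype_le _

end Pool.Agent.N488.CB
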