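import Pool.Agent.N488.CB1
import Pool.Agent.R671.MP.T8
import Pool.Agent.R671.MP.CubeAux
import Mathlib.Topology.ContinuousMap.SecondCountableSpace

/-!
# Analyticity of the conformal upper box dimension of percolation
-/

set_option autoImplicit false

open MeasureTheory Set Filter Topology
open scoped ENNReal NNReal

namespace Pool.Agent.N488.CB

open Pool.Agent.R671.MP

/-- Universal quantification over a compact space of an implication between closed relations. -/
theorem an_forall {X Kc : Type*} [TopologicalSpace X] [PolishSpace X] [MetricSpace Kc]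
    [CompactSpace Kc] (C D : Set (X × Kc)) (hC : IsClosed C) (hD : IsClosed D) :
    AnalyticSet {x | ∀ k, (x, k) ∈ C → (x, k) ∈ D} := by
  let _ := TopologicalSpace.upgradeIsCompletelyMetrizable X
  obtain ⟨G, hG1, -, hG3, -⟩ := hD.isOpen_compl.exists_iUnion_isClosed
  have e : {x | ∀ k, (x, k) ∈ C → (x, k) ∈ D} = ⋂ n, (Prod.fst '' (C ∩ G n))ᶜ := by
    ext x
    simp only [mem_ofPred_eq, mem_iInter, mem_compl_iff, mem_image, not_exists, not_and]
    constructor
    · rintro h n ⟨y, k⟩ ⟨h1, h2⟩ rfl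
      have h3 : (y, k) ∈ ⋃ n, G n := mem_iUnion.mpr ⟨n, h2⟩
      rw [hG3] at h3
      exact h3 (h k h1)
    · intro h k hk
      by_contra hcon
      have h3 : (x, k) ∈ Dᶜ := hcon
      rw [← hG3] at h3
      obtain ⟨n, hn⟩ := mem_iUnion.mp h3
      exact h n (x, k) ⟨hk, hn⟩ rfl
  rw [e]
  refine AnalyticSet.iInter fun n => ?_
  have h1 : IsClosed (Prod.fst '' (C ∩ G n)) :=
    isClosedMap_fst_of_compactSpace _ (hC.inter (hG1 n))
  have h2 := h1.isOpen_compl.analyticSet_image (f := id) continuous_id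
  rwa [image_id] at h2

variable {d n : ℕ}

/-- the unit cube -/
abbrev K0 (d n : ℕ) : Type := ↥(cube ([] : List (Fin d → Fin n)))

instance : CompactSpace (K0 d n) := isCompact_iff_compactSpace.mp T8.isCompact_cube_nil

theorem F_subset (ω : Conf d n) : F ω ⊆ cube ([] : List (Fin d → Fin n)) := by
  intro x hx
  have := Set.mem_iInter.mp hx 0
  rwa [T8.level_zero] at this

/-- the limit set in the unit cube -/
def FK (ω : Conf d n) : Set (K0 d n) := {x | (x : EuclideanSpace ℝ (Fin d)) ∈ F ω}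

theorem continuous_shift (a : Fin d → Fin n) : Continuous (shift a : Conf d n → Conf d n) := by
  unfold shift
  exact continuous_pi fun v => continuous_apply (a :: v)

theorem isClopen_kept (w : List (Fin d → Fin n)) : IsClopen {ω : Conf d n | kept ω w} := by
  induction w with
  | nil => simpa [kept] using isClopen_univ
  | cons a w ih =>
    have h1 : Continuous fun ω : Conf d n => ω [] a :=
      (continuous_apply a).comp (continuous_apply [])
    have e : {ω : Conf d n | kept ω (a :: w)} = (fun ω : Conf d n => ω [] a) ⁻¹' {true} ∩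
        (shift a) ⁻¹' {ω | kept ω w} := by
      ext ω
      simp [kept]
    rw [e]
    exact ((isClopen_discrete {true}).preimage h1).inter (ih.preimage (continuous_shift a))

theorem isClosed_graph : IsClosed {z : Conf d n × K0 d n | z.2 ∈ FK z.1} := by
  have e : {z : Conf d n × K0 d n | z.2 ∈ FK z.1} = ⋂ k : ℕ,
      ⋃ w ∈ {w : List (Fin d → Fin n) | w.length = k},
        {z : Conf d n × K0 d n | kept z.1 w ∧ (z.2 : EuclideanSpace ℝ (Fin d)) ∈ cube w} := by
    ext z
    simp only [mem_iInter, mem_iUnion, exists_prop]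
    change ((z.2 : EuclideanSpace ℝ (Fin d)) ∈ ⋂ k, level z.1 k) ↔ _
    rw [mem_iInter]
    refine forall_congr' fun k => ?_
    rw [CubeAux.level_mem]
    constructor
    · rintro ⟨w, h1, h2, h3⟩
      exact ⟨w, h1, h2, h3⟩
    · rintro ⟨w, h1, h2, h3⟩
      exact ⟨w, h1, h2, h3⟩
  rw [e]
  refine isClosed_iInter fun k => (List.finite_length_eq (Fin d → Fin n) k).isClosed_biUnion
    fun w _ => ?_
  have h1 : IsClosed {z : Conf d n × K0 d n | kept z.1 w} :=
    (isClopen_kept w).isClosed.preimage continuous_fst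
  have h2 : IsClosed {z : Conf d n × K0 d n | (z.2 : EuclideanSpace ℝ (Fin d)) ∈ cube w} :=
    (T8.isClosed_cube w).preimage (continuous_subtype_val.comp continuous_snd)
  exact h1.inter h2

theorem isClosed_FK (ω : Conf d n) : IsClosed (FK ω) :=
  isClosed_graph.preimage (Continuous.prodMk_right ω)

/-- candidate metrics -/
abbrev CM (d n : ℕ) : Type := C(K0 d n × K0 d n, ℝ)

instance : PolishSpace (K0 d n) := T8.isCompact_cube_nil.isClosed.polishSpace
instance : PolishSpace (CM d n) := inferInstance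
instance : PolishSpace (Conf d n) := inferInstance

def Met (ω : Conf d n) (ρ : CM d n) : Prop :=
  (∀ x y z, x ∈ FK ω → y ∈ FK ω → z ∈ FK ω →
    ρ (x, x) = 0 ∧ ρ (x, y) = ρ (y, x) ∧ ρ (x, z) ≤ ρ (x, y) + ρ (y, z)) ∧
  ∀ x y, x ∈ FK ω → y ∈ FK ω → ρ (x, y) = 0 → x = y

def QS (t M : ℝ) (ω : Conf d n) (ρ : CM d n) : Prop :=
  ∀ x a b, x ∈ FK ω → a ∈ FK ω → b ∈ FK ω → dist x a ≤ t * dist x b → ρ (x, a) ≤ M * ρ (x, b)

def Cov (ε : ℝ) (N : ℕ) (ω : Conf d n) (ρ : CM d n) : Prop :=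
  ∃ z : Fin N → K0 d n, (∀ i, z i ∈ FK ω) ∧ ∀ y ∈ FK ω, ∃ i, ρ (y, z i) ≤ ε

def Good (s : ℝ) (ω : Conf d n) (ρ : CM d n) : Prop :=
  Met ω ρ ∧ (∀ t : ℕ, ∃ M : ℕ, QS t M ω ρ) ∧
    (∀ k : ℕ, ∃ j : ℕ, QS (1 / (j + 1)) (1 / (k + 1)) ω ρ) ∧
    ∃ m : ℕ, ∀ ε : {ε : ℚ // 0 < ε ∧ ε < 1 / ((m : ℚ) + 1)},
      ∃ N : {N : ℕ // (N : ℝ) ≤ ((ε : ℚ) : ℝ) ^ (-s)}, Cov ((ε : ℚ) : ℝ) N ω ρ

theorem closed_FK {Z : Type*} [TopologicalSpace Z] {f : Z → Conf d n} {g : Z → K0 d n}
    (hf : Continuous f) (hg : Continuous g) : IsClosed {z | g z ∈ FK (f z)} :=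
  isClosed_graph.preimage (hf.prodMk hg)

theorem cont_ev {Z : Type*} [TopologicalSpace Z] {f : Z → CM d n} {g h : Z → K0 d n}
    (hf : Continuous f) (hg : Continuous g) (hh : Continuous h) :
    Continuous fun z => f z (g z, h z) :=
  Continuous.eval hf (hg.prodMk hh)

theorem closed_and {Z : Type*} [TopologicalSpace Z] {p q : Z → Prop} (hp : IsClosed {z | p z})
    (hq : IsClosed {z | q z}) : IsClosed {z | p z ∧ q z} := hp.inter hq

theorem an_and {Z : Type*} [TopologicalSpace Z] [T2Space Z] {p q : Z → Prop}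
    (hp : AnalyticSet {z | p z}) (hq : AnalyticSet {z | q z}) : AnalyticSet {z | p z ∧ q z} := by
  have e : {z | p z ∧ q z} = ⋂ b : Bool, (if b then {z | p z} else {z | q z}) := by
    ext z
    simp [and_comm]
  rw [e]
  refine AnalyticSet.iInter fun b => ?_
  cases b with
  | true => simpa using hp
  | false => simpa using hq

theorem an_Met : AnalyticSet {z : Conf d n × CM d n | Met z.1 z.2} := by
  have h1 : AnalyticSet {z : Conf d n × CM d n | ∀ k : K0 d n × K0 d n × K0 d n,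
      (z, k) ∈ {w : (Conf d n × CM d n) × (K0 d n × K0 d n × K0 d n) |
          w.2.1 ∈ FK w.1.1 ∧ w.2.2.1 ∈ FK w.1.1 ∧ w.2.2.2 ∈ FK w.1.1} → (z, k) ∈
        {w : (Conf d n × CM d n) × (K0 d n × K0 d n × K0 d n) |
          w.1.2 (w.2.1, w.2.1) = 0 ∧ w.1.2 (w.2.1, w.2.2.1) = w.1.2 (w.2.2.1, w.2.1) ∧
          w.1.2 (w.2.1, w.2.2.2) ≤ w.1.2 (w.2.1, w.2.2.1) + w.1.2 (w.2.2.1, w.2.2.2)}} := by
    refine an_forall _ _ (closed_and ?_ (closed_and ?_ ?_)) (closed_and ?_ (closed_and ?_ ?_))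
    · exact closed_FK continuous_fst.fst continuous_snd.fst
    · exact closed_FK continuous_fst.fst continuous_snd.snd.fst
    · exact closed_FK continuous_fst.fst continuous_snd.snd.snd
    · exact isClosed_eq (cont_ev continuous_fst.snd continuous_snd.fst continuous_snd.fst)
        continuous_const
    · exact isClosed_eq (cont_ev continuous_fst.snd continuous_snd.fst continuous_snd.snd.fst)
        (cont_ev continuous_fst.snd continuous_snd.snd.fst continuous_snd.fst)
    · exact isClosed_le (cont_ev continuous_fst.snd continuous_snd.fst continuous_snd.snd.snd)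
        ((cont_ev continuous_fst.snd continuous_snd.fst continuous_snd.snd.fst).add
        (cont_ev continuous_fst.snd continuous_snd.snd.fst continuous_snd.snd.snd))
  have h2 : AnalyticSet {z : Conf d n × CM d n | ∀ k : K0 d n × K0 d n, (z, k) ∈
        {w : (Conf d n × CM d n) × (K0 d n × K0 d n) |
          w.2.1 ∈ FK w.1.1 ∧ w.2.2 ∈ FK w.1.1 ∧ w.1.2 (w.2.1, w.2.2) = 0} → (z, k) ∈
        {w : (Conf d n × CM d n) × (K0 d n × K0 d n) | w.2.1 = w.2.2}} := by
    refine an_forall _ _ (closed_and ?_ (closed_and ?_ ?_)) ?_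
    · exact closed_FK continuous_fst.fst continuous_snd.fst
    · exact closed_FK continuous_fst.fst continuous_snd.snd
    · exact isClosed_eq (cont_ev continuous_fst.snd continuous_snd.fst continuous_snd.snd)
        continuous_const
    · exact isClosed_eq continuous_snd.fst continuous_snd.snd
  refine (congrArg AnalyticSet ?_).mp (an_and h1 h2)
  ext z
  constructor
  · rintro ⟨h1, h2⟩
    exact ⟨fun x y u hx hy hu => h1 (x, y, u) ⟨hx, hy, hu⟩,
      fun x y hx hy h => h2 (x, y) ⟨hx, hy, h⟩⟩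
  · rintro ⟨h1, h2⟩
    exact ⟨fun k hk => h1 _ _ _ hk.1 hk.2.1 hk.2.2, fun k hk => h2 _ _ hk.1 hk.2.1 hk.2.2⟩

theorem an_QS (t M : ℝ) : AnalyticSet {z : Conf d n × CM d n | QS t M z.1 z.2} := by
  have h1 : AnalyticSet {z : Conf d n × CM d n | ∀ k : K0 d n × K0 d n × K0 d n, (z, k) ∈
        {w : (Conf d n × CM d n) × (K0 d n × K0 d n × K0 d n) |
          w.2.1 ∈ FK w.1.1 ∧ w.2.2.1 ∈ FK w.1.1 ∧ w.2.2.2 ∈ FK w.1.1 ∧
            dist w.2.1 w.2.2.1 ≤ t * dist w.2.1 w.2.2.2} → (z, k) ∈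
        {w : (Conf d n × CM d n) × (K0 d n × K0 d n × K0 d n) |
          w.1.2 (w.2.1, w.2.2.1) ≤ M * w.1.2 (w.2.1, w.2.2.2)}} := by
    refine an_forall _ _ (closed_and ?_ (closed_and ?_ (closed_and ?_ ?_))) ?_
    · exact closed_FK continuous_fst.fst continuous_snd.fst
    · exact closed_FK continuous_fst.fst continuous_snd.snd.fst
    · exact closed_FK continuous_fst.fst continuous_snd.snd.snd
    · exact isClosed_le (continuous_snd.fst.dist continuous_snd.snd.fst)
        (continuous_const.mul (continuous_snd.fst.dist continuous_snd.snd.snd))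
    · exact isClosed_le (cont_ev continuous_fst.snd continuous_snd.fst continuous_snd.snd.fst)
        (continuous_const.mul
          (cont_ev continuous_fst.snd continuous_snd.fst continuous_snd.snd.snd))
  refine (congrArg AnalyticSet ?_).mp h1
  ext z
  constructor
  · intro h x a b hx ha hb hd
    exact h (x, a, b) ⟨hx, ha, hb, hd⟩
  · intro h k hk
    exact h _ _ _ hk.1 hk.2.1 hk.2.2.1 hk.2.2.2

theorem an_Cov (ε : ℝ) (N : ℕ) : AnalyticSet {z : Conf d n × CM d n | Cov ε N z.1 z.2} := by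
  have h1 : IsClosed {v : (Conf d n × CM d n) × (Fin N → K0 d n) | ∀ i, v.2 i ∈ FK v.1.1} := by
    have : {v : (Conf d n × CM d n) × (Fin N → K0 d n) | ∀ i, v.2 i ∈ FK v.1.1} =
        ⋂ i, {v : (Conf d n × CM d n) × (Fin N → K0 d n) | v.2 i ∈ FK v.1.1} := by
      ext v; simp
    rw [this]
    exact isClosed_iInter fun i => closed_FK continuous_fst.fst
      ((continuous_apply i).comp continuous_snd)
  have h2 : AnalyticSet {v : (Conf d n × CM d n) × (Fin N → K0 d n) | ∀ y : K0 d n, (v, y) ∈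
          {w : ((Conf d n × CM d n) × (Fin N → K0 d n)) × K0 d n | w.2 ∈ FK w.1.1.1} → (v, y) ∈
          {w : ((Conf d n × CM d n) × (Fin N → K0 d n)) × K0 d n |
            ∃ i, w.1.1.2 (w.2, w.1.2 i) ≤ ε}} := by
    refine an_forall _ _ (closed_FK continuous_fst.fst.fst continuous_snd) ?_
    have : {w : ((Conf d n × CM d n) × (Fin N → K0 d n)) × K0 d n |
            ∃ i, w.1.1.2 (w.2, w.1.2 i) ≤ ε} = ⋃ i, {w : ((Conf d n × CM d n) ×
            (Fin N → K0 d n)) × K0 d n | w.1.1.2 (w.2, w.1.2 i) ≤ ε} := by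
      ext w; simp
    rw [this]
    exact isClosed_iUnion_of_finite fun i => isClosed_le (cont_ev continuous_fst.fst.snd
      continuous_snd ((continuous_apply i).comp continuous_fst.snd)) continuous_const
  refine (congrArg AnalyticSet ?_).mp
    ((an_and h1.analyticSet h2).image_of_continuous continuous_fst)
  ext z
  constructor
  · rintro ⟨⟨z', c⟩, ⟨h1, h2⟩, rfl⟩
    exact ⟨c, h1, fun y hy => h2 y hy⟩
  · rintro ⟨c, h1, h2⟩
    exact ⟨(z, c), ⟨h1, fun y hy => h2 y hy⟩, rfl⟩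

theorem an_Good (s : ℝ) : AnalyticSet {z : Conf d n × CM d n | Good s z.1 z.2} := by
  refine an_and an_Met (an_and ?_ (an_and ?_ ?_))
  · have : {z : Conf d n × CM d n | ∀ t : ℕ, ∃ M : ℕ, QS t M z.1 z.2} =
        ⋂ t : ℕ, ⋃ M : ℕ, {z : Conf d n × CM d n | QS t M z.1 z.2} := by
      ext z
      simp only [mem_iInter, mem_iUnion, mem_ofPred_eq]
    rw [this]
    exact AnalyticSet.iInter fun t => AnalyticSet.iUnion fun M => an_QS _ _
  · have : {z : Conf d n × CM d n | ∀ k : ℕ, ∃ j : ℕ, QS (1 / (j + 1)) (1 / (k + 1)) z.1 z.2} =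
        ⋂ k : ℕ, ⋃ j : ℕ, {z : Conf d n × CM d n | QS (1 / (j + 1)) (1 / (k + 1)) z.1 z.2} := by
      ext z
      simp only [mem_iInter, mem_iUnion, mem_ofPred_eq]
    rw [this]
    exact AnalyticSet.iInter fun t => AnalyticSet.iUnion fun M => an_QS _ _
  · have : {z : Conf d n × CM d n | ∃ m : ℕ, ∀ ε : {ε : ℚ // 0 < ε ∧ ε < 1 / ((m : ℚ) + 1)},
        ∃ N : {N : ℕ // (N : ℝ) ≤ ((ε : ℚ) : ℝ) ^ (-s)}, Cov ((ε : ℚ) : ℝ) N z.1 z.2} =
        ⋃ m : ℕ, ⋂ ε : {ε : ℚ // 0 < ε ∧ ε < 1 / ((m : ℚ) + 1)},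
        ⋃ N : {N : ℕ // (N : ℝ) ≤ ((ε : ℚ) : ℝ) ^ (-s)},
          {z : Conf d n × CM d n | Cov ((ε : ℚ) : ℝ) N z.1 z.2} := by
      ext z
      simp only [mem_iInter, mem_iUnion, mem_ofPred_eq]
    rw [this]
    refine AnalyticSet.iUnion fun m => ?_
    have : Nonempty {ε : ℚ // 0 < ε ∧ ε < 1 / ((m : ℚ) + 1)} := by
      have h1 : (0 : ℚ) < 1 / ((m : ℚ) + 1) := by positivity
      exact ⟨⟨1 / ((m : ℚ) + 1) / 2, by positivity, half_lt_self h1⟩⟩
    exact AnalyticSet.iInter fun ε => AnalyticSet.iUnion fun N => an_Cov _ _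

theorem an_exists_Good (s : ℝ) : AnalyticSet {ω : Conf d n | ∃ ρ, Good s ω ρ} := by
  have e : {ω : Conf d n | ∃ ρ, Good s ω ρ} =
      Prod.fst '' {z : Conf d n × CM d n | Good s z.1 z.2} := by
    ext ω
    constructor
    · rintro ⟨ρ, h⟩
      exact ⟨(ω, ρ), h, rfl⟩
    · rintro ⟨⟨ω, ρ⟩, h, rfl⟩
      exact ⟨ρ, h⟩
  rw [e]
  exact (an_Good s).image_of_continuous continuous_fst

end Pool.Agent.N488.CB
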