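import Pool.Agent.N488.CB2
import Pool.Agent.H894R3.Ana
import Pool.Agent.R671.MP.T5

/-!
# The conformal upper box dimension of percolation is null-measurable, zero-one law
-/

set_option autoImplicit false

open MeasureTheory Set Filter Topology
open scoped ENNReal NNReal

namespace Pool.Agent.N488.CB

open Pool.Agent.R671.MP

variable {d n : ℕ}

/-! ### homeomorphisms of `[0, ∞)` -/

theorem homeo_zero (η : ℝ≥0 ≃ₜ ℝ≥0) : η 0 = 0 := by
  rcases η.continuous.strictMono_of_inj η.injective with h | h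
  · obtain ⟨x, hx⟩ := η.surjective 0
    have := h.monotone (zero_le : (0:ℝ≥0) ≤ x)
    rw [hx] at this
    exact le_antisymm this zero_le
  · obtain ⟨x, hx⟩ := η.surjective (η 0 + 1)
    have := h.antitone (zero_le : (0:ℝ≥0) ≤ x)
    rw [hx] at this
    exact absurd this (by simp)

theorem homeo_small (η : ℝ≥0 ≃ₜ ℝ≥0) (ε : ℝ) (hε : 0 < ε) :
    ∃ j : ℕ, ((η (1 / ((j : ℝ≥0) + 1)) : ℝ≥0) : ℝ) ≤ ε := by
  have h1 : Tendsto (fun j : ℕ => 1 / ((j : ℝ≥0) + 1)) atTop (𝓝 0) := by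
    rw [← NNReal.tendsto_coe]
    simpa using tendsto_one_div_add_atTop_nhds_zero_nat (𝕜 := ℝ)
  have h2 := (η.continuous.tendsto 0).comp h1
  rw [homeo_zero] at h2
  rw [← NNReal.tendsto_coe] at h2
  have h3 := h2.eventually_lt_const (u := ε) (by simpa using hε)
  obtain ⟨j, hj⟩ := h3.exists
  exact ⟨j, le_of_lt hj⟩

/-! ### from quasisymmetric images to good functions -/

theorem good_of (ω : Conf d n) (Y : Type) [MetricSpace Y] (f : F ω ≃ₜ Y) (hf : IsQuasisymmetric f)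
    (s : ℝ) (hs : upperBoxDim Y < (s : EReal)) : ∃ ρ, Good s ω ρ := by
  classical
  let g : FK ω → F ω := fun x => ⟨(x : K0 d n), x.2⟩
  have hg : Continuous g := by
    refine Continuous.subtype_mk ?_ _
    exact continuous_subtype_val.comp continuous_subtype_val
  let ρ0 : C(↥(FK ω ×ˢ FK ω), ℝ) :=
    ⟨fun z => dist (f (g ⟨z.1.1, z.2.1⟩)) (f (g ⟨z.1.2, z.2.2⟩)), by
      refine Continuous.dist ?_ ?_
      · refine f.continuous.comp (hg.comp ?_)
        exact Continuous.subtype_mk (continuous_fst.comp continuous_subtype_val) _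
      · refine f.continuous.comp (hg.comp ?_)
        exact Continuous.subtype_mk (continuous_snd.comp continuous_subtype_val) _⟩
  obtain ⟨ρ, hρ⟩ := ContinuousMap.exists_restrict_eq ((isClosed_FK ω).prod (isClosed_FK ω)) ρ0
  have key : ∀ x y (hx : x ∈ FK ω) (hy : y ∈ FK ω),
      ρ (x, y) = dist (f (g ⟨x, hx⟩)) (f (g ⟨y, hy⟩)) := by
    intro x y hx hy
    have := congrArg (fun k : C(↥(FK ω ×ˢ FK ω), ℝ) => k ⟨(x, y), ⟨hx, hy⟩⟩) hρ
    exact this
  obtain ⟨η, hη⟩ := hf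
  refine ⟨ρ, ⟨?_, ?_⟩, ?_, ?_, ?_⟩
  · intro x y z hx hy hz
    rw [key x x hx hx, key x y hx hy, key y x hy hx, key x z hx hz, key y z hy hz]
    exact ⟨dist_self _, dist_comm _ _, dist_triangle _ _ _⟩
  · intro x y hx hy h
    rw [key x y hx hy, dist_eq_zero] at h
    have h1 := f.injective h
    have h2 := congrArg (fun u : F ω => (u : EuclideanSpace ℝ (Fin d))) h1
    exact Subtype.ext h2
  · intro t
    obtain ⟨M, hM⟩ := exists_nat_ge ((η (t : ℝ≥0) : ℝ≥0) : ℝ)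
    refine ⟨M, fun x a b hx ha hb hd => ?_⟩
    rw [key x a hx ha, key x b hx hb]
    rcases Nat.eq_zero_or_pos t with ht | ht
    · subst ht
      rw [Nat.cast_zero, zero_mul] at hd
      have : x = a := dist_le_zero.mp hd
      subst this
      rw [dist_self]
      positivity
    · refine (hη (g ⟨x, hx⟩) (g ⟨a, ha⟩) (g ⟨b, hb⟩) (t : ℝ≥0) (by exact_mod_cast ht) ?_).trans ?_
      · change dist x a ≤ _ * dist x b
        simpa using hd
      · exact mul_le_mul_of_nonneg_right hM dist_nonneg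
  · intro k
    obtain ⟨j, hj⟩ := homeo_small η (1 / ((k : ℝ) + 1)) (by positivity)
    refine ⟨j, fun x a b hx ha hb hd => ?_⟩
    rw [key x a hx ha, key x b hx hb]
    refine (hη (g ⟨x, hx⟩) (g ⟨a, ha⟩) (g ⟨b, hb⟩) (1 / ((j : ℝ≥0) + 1)) (by positivity) ?_).trans ?_
    · change dist x a ≤ _ * dist x b
      simpa using hd
    · exact mul_le_mul_of_nonneg_right hj dist_nonneg
  · have h1 := coverNum_le_of_upperBoxDim_lt s hs
    rw [eventually_nhdsWithin_iff, Metric.eventually_nhds_iff] at h1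
    obtain ⟨δ, hδ, h2⟩ := h1
    obtain ⟨m, hm⟩ := exists_nat_one_div_lt hδ
    refine ⟨m, fun ε => ?_⟩
    obtain ⟨ε, hε0, hε1⟩ := ε
    have hε0' : (0 : ℝ) < (ε : ℝ) := by exact_mod_cast hε0
    have hε1' : (ε : ℝ) < 1 / ((m : ℝ) + 1) := by
      have : ((ε : ℚ) : ℝ) < ((1 / ((m : ℚ) + 1) : ℚ) : ℝ) := by exact_mod_cast hε1
      simpa using this
    have h3 := h2 (y := (ε : ℝ)) (by
      rw [Real.dist_eq, sub_zero, abs_of_pos hε0']
      linarith) hε0'
    obtain ⟨S, hS1, hS2⟩ := exists_of_coverNum_le h3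
    have hS3 : (S.card : ℝ) ≤ (ε : ℝ) ^ (-s) := by
      have h4 : ((S.card : ℕ) : ℝ≥0∞) = ENNReal.ofReal (S.card : ℝ) := by simp
      rw [h4] at hS2
      exact (ENNReal.ofReal_le_ofReal_iff (Real.rpow_nonneg hε0'.le _)).1 hS2
    refine ⟨⟨S.card, hS3⟩, ?_⟩
    let e : Fin S.card ≃ S := S.equivFin.symm
    have hmem : ∀ y : Y, ((f.symm y : F ω) : EuclideanSpace ℝ (Fin d)) ∈
        cube ([] : List (Fin d → Fin n)) := fun y => F_subset ω (f.symm y).2
    refine ⟨fun i => ⟨(f.symm (e i : Y) : F ω), hmem _⟩, fun i => (f.symm (e i : Y)).2,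
      fun y hy => ?_⟩
    obtain ⟨z, hz, hd⟩ := hS1 (f (g ⟨y, hy⟩))
    refine ⟨e.symm ⟨z, hz⟩, ?_⟩
    have h5 : (⟨(f.symm (e (e.symm ⟨z, hz⟩) : Y) : F ω), hmem _⟩ : K0 d n) ∈ FK ω :=
      (f.symm (e (e.symm ⟨z, hz⟩) : Y)).2
    rw [key y _ hy h5]
    have h6 : g ⟨⟨(f.symm (e (e.symm ⟨z, hz⟩) : Y) : F ω), hmem _⟩, h5⟩ = f.symm z := by
      apply Subtype.ext
      change ((f.symm (e (e.symm ⟨z, hz⟩) : Y) : F ω) : EuclideanSpace ℝ (Fin d)) = _
      rw [e.apply_symm_apply]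
    rw [h6, f.apply_symm_apply]
    exact hd

/-! ### from good functions to quasisymmetric images -/

/-- A copy of the limit set carrying a new metric. -/
def Wr (ω : Conf d n) : Type := F ω

/-- The point of the limit set. -/
def pt (ω : Conf d n) (x : Wr ω) : F ω := x

/-- The point of the unit cube. -/
def toK (ω : Conf d n) (x : Wr ω) : K0 d n :=
  ⟨(pt ω x : EuclideanSpace ℝ (Fin d)), F_subset ω (pt ω x).2⟩

theorem toK_mem (ω : Conf d n) (x : Wr ω) : toK ω x ∈ FK ω := (pt ω x).2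

theorem toK_inj (ω : Conf d n) {x y : Wr ω} (h : toK ω x = toK ω y) : x = y := by
  have h1 : (pt ω x : EuclideanSpace ℝ (Fin d)) = pt ω y :=
    congrArg (fun u : K0 d n => (u : EuclideanSpace ℝ (Fin d))) h
  have h2 : pt ω x = pt ω y := Subtype.ext h1
  exact h2

/-- The metric given by a good function. -/
noncomputable abbrev metOf (ω : Conf d n) (ρ : CM d n) (h : Met ω ρ) : MetricSpace (Wr ω) where
  dist x y := ρ (toK ω x, toK ω y)
  dist_self x := (h.1 _ _ _ (toK_mem ω x) (toK_mem ω x) (toK_mem ω x)).1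
  dist_comm x y := (h.1 _ _ _ (toK_mem ω x) (toK_mem ω y) (toK_mem ω x)).2.1
  dist_triangle x y z := (h.1 _ _ _ (toK_mem ω x) (toK_mem ω y) (toK_mem ω z)).2.2
  eq_of_dist_eq_zero := fun {x y} hxy => toK_inj ω (h.2 _ _ (toK_mem ω x) (toK_mem ω y) hxy)

theorem conf_le_of_good (ω : Conf d n) (ρ : CM d n) (s : ℝ) (h : Good s ω ρ) :
    confUpperBoxDim (F ω) ≤ (s : EReal) := by
  classical
  obtain ⟨hM, hQ1, hQ2, m, hC⟩ := h
  let _ : MetricSpace (Wr ω) := metOf ω ρ hM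
  have hdist : ∀ x y : Wr ω, dist x y = ρ (toK ω x, toK ω y) := fun x y => rfl
  have hcF : CompactSpace (F ω) := isCompact_iff_compactSpace.mp (isCompact_F ω)
  let e : F ω ≃ Wr ω := Equiv.refl _
  let κ : F ω → K0 d n := fun x => ⟨(x : EuclideanSpace ℝ (Fin d)), F_subset ω x.2⟩
  have hκ : Continuous κ := Continuous.subtype_mk continuous_subtype_val _
  have hκe : ∀ x, toK ω (e x) = κ x := fun x => rfl
  have hκd : ∀ x y, dist (κ x) (κ y) = dist x y := fun x y => rfl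
  have hκm : ∀ x, κ x ∈ FK ω := fun x => x.2
  have he : Continuous e := by
    rw [continuous_iff_continuousAt]
    intro x
    rw [ContinuousAt, tendsto_iff_dist_tendsto_zero]
    have h1 : Continuous fun y => ρ (κ y, κ x) :=
      ρ.continuous.comp (hκ.prodMk continuous_const)
    have h2 := h1.tendsto x
    rw [(hM.1 _ _ _ (hκm x) (hκm x) (hκm x)).1] at h2
    exact h2
  let f : F ω ≃ₜ Wr ω := he.homeoOfEquivCompactToT2
  have hf : ∀ x, f x = e x := fun x => rfl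
  have hfd : ∀ x y, dist (f x) (f y) = ρ (κ x, κ y) := fun x y => rfl
  -- the distortion function
  let A : ℝ → Set ℝ := fun t => {M | 0 ≤ M ∧ QS t M ω ρ}
  have hAanti : ∀ t t', t ≤ t' → A t' ⊆ A t := by
    intro t t' htt M hMA
    refine ⟨hMA.1, fun x a b hx ha hb hd => hMA.2 x a b hx ha hb (hd.trans ?_)⟩
    exact mul_le_mul_of_nonneg_right htt dist_nonneg
  have hAne : ∀ t, (A t).Nonempty := by
    intro t
    obtain ⟨T, hT⟩ := exists_nat_ge t
    obtain ⟨M, hM⟩ := hQ1 T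
    exact ⟨M, hAanti t T hT ⟨by positivity, hM⟩⟩
  have hAbdd : ∀ t, BddBelow (A t) := fun t => ⟨0, fun M hM => hM.1⟩
  let H : ℝ → ℝ := fun t => sInf (A t)
  have hHmono : Monotone H := fun t t' htt => csInf_le_csInf (hAbdd t) (hAne t') (hAanti t t' htt)
  have hH0 : ∀ t, 0 ≤ H t := fun t => le_csInf (hAne t) fun M hM => hM.1
  have hHle : ∀ t ≤ 0, H t = 0 := by
    intro t ht
    refine le_antisymm (csInf_le (hAbdd t) ⟨le_rfl, ?_⟩) (hH0 t)
    intro x a b hx ha hb hd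
    have h1 : dist x a ≤ 0 := hd.trans (mul_nonpos_of_nonpos_of_nonneg ht dist_nonneg)
    have h2 : x = a := dist_le_zero.mp h1
    subst h2
    rw [(hM.1 _ _ _ hx hx hx).1, zero_mul]
  have hHlim : Tendsto H (𝓝[>] 0) (𝓝 0) := by
    rw [Metric.tendsto_nhds]
    intro ε hε
    obtain ⟨k, hk⟩ := exists_nat_one_div_lt hε
    obtain ⟨j, hj⟩ := hQ2 k
    have hj0 : (0 : ℝ) < 1 / ((j : ℝ) + 1) := by positivity
    filter_upwards [Ioc_mem_nhdsGT hj0] with t ht
    rw [Real.dist_eq, sub_zero, abs_of_nonneg (hH0 t)]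
    refine lt_of_le_of_lt ?_ hk
    exact (hHmono ht.2).trans (csInf_le (hAbdd _) ⟨by positivity, hj⟩)
  have hρ0 : ∀ x y, x ∈ FK ω → y ∈ FK ω → 0 ≤ ρ (x, y) := by
    intro x y hx hy
    have h1 := (hM.1 x y x hx hy hx)
    rw [h1.1, ← h1.2.1] at h1
    linarith [h1.2.2]
  have hHQS : ∀ t, QS t (H t) ω ρ := by
    intro t x a b hx ha hb hd
    rcases (hρ0 x b hx hb).eq_or_lt with h0 | h0
    · obtain ⟨M, hMA⟩ := hAne t
      have := hMA.2 x a b hx ha hb hd
      rw [← h0] at this ⊢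
      simpa using this
    · rw [← div_le_iff₀ h0]
      refine le_csInf (hAne t) fun M hMA => ?_
      rw [div_le_iff₀ h0]
      exact hMA.2 x a b hx ha hb hd
  obtain ⟨η, hη⟩ := exists_homeo H hHmono hHle hHlim
  have hqs : IsQuasisymmetric f := by
    refine ⟨η, fun x a b t ht hd => ?_⟩
    rw [hfd, hfd]
    refine (hHQS t (κ x) (κ a) (κ b) (hκm x) (hκm a) (hκm b) ?_).trans ?_
    · rw [hκd, hκd]
      exact hd
    · exact mul_le_mul_of_nonneg_right (hη t) (hρ0 _ _ (hκm x) (hκm b))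
  refine (conf_le_of (Wr ω) f hqs).trans ?_
  refine upperBoxDim_le s (1 + 2 ^ s) (by positivity) ?_
  have hm0 : (0 : ℝ) < 1 / ((m : ℝ) + 1) := by positivity
  filter_upwards [Ioo_mem_nhdsGT hm0] with ε hε
  obtain ⟨ε', h1, h2⟩ := exists_rat_btwn (show ε / 2 < ε by linarith [hε.1])
  have hε'0 : (0 : ℝ) < (ε' : ℝ) := by linarith [hε.1]
  have hε'1 : (0 : ℚ) < ε' := by exact_mod_cast hε'0
  have hε'2 : ε' < 1 / ((m : ℚ) + 1) := by
    have : ((ε' : ℚ) : ℝ) < ((1 / ((m : ℚ) + 1) : ℚ) : ℝ) := by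
      push_cast
      linarith [hε.2]
    exact_mod_cast this
  obtain ⟨⟨N, hN⟩, z, hz1, hz2⟩ := hC ⟨ε', hε'1, hε'2⟩
  dsimp only at z hz1 hz2 hN
  let w : Fin N → Wr ω := fun i => e ⟨((z i : K0 d n) : EuclideanSpace ℝ (Fin d)), hz1 i⟩
  have hw : ∀ i, toK ω (w i) = z i := fun i => rfl
  have hcov : coverNum (Wr ω) ε ≤ (N : ℕ∞) := by
    refine (coverNum_le_card (Finset.univ.image w) ?_).trans ?_
    · intro y
      obtain ⟨i, hi⟩ := hz2 (toK ω y) (toK_mem ω y)
      refine ⟨w i, Finset.mem_image_of_mem _ (Finset.mem_univ i), ?_⟩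
      rw [hdist, hw]
      exact hi.trans h2.le
    · have : (Finset.univ.image w).card ≤ N := Finset.card_image_le.trans (by simp)
      exact_mod_cast this
  have hcov' : ((coverNum (Wr ω) ε : ℕ∞) : ℝ≥0∞) ≤ (N : ℝ≥0∞) := by
    have := ENat.toENNReal_le.2 hcov
    simpa using this
  refine hcov'.trans ?_
  have h3 : (N : ℝ≥0∞) = ENNReal.ofReal (N : ℝ) := by simp
  rw [h3]
  refine ENNReal.ofReal_le_ofReal (hN.trans ?_)
  have hεs : 0 < ε ^ (-s) := Real.rpow_pos_of_pos hε.1 _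
  have h2s : (0 : ℝ) < 2 ^ s := by positivity
  rcases le_total 0 s with hs | hs
  · have h4 : (ε' : ℝ) ^ (-s) ≤ (ε / 2) ^ (-s) :=
      Real.rpow_le_rpow_of_nonpos (by linarith [hε.1]) h1.le (by linarith)
    refine h4.trans ?_
    rw [Real.div_rpow hε.1.le (by norm_num), Real.rpow_neg (by norm_num : (0:ℝ) ≤ 2)]
    have h5 : ε ^ (-s) / (2 ^ s)⁻¹ = 2 ^ s * ε ^ (-s) := by field_simp
    rw [h5]
    nlinarith
  · have h4 : (ε' : ℝ) ^ (-s) ≤ ε ^ (-s) :=
      Real.rpow_le_rpow hε'0.le h2.le (by linarith)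
    refine h4.trans ?_
    nlinarith

end Pool.Agent.N488.CB
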