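import Pool.Agent.N488.CB3

/-!
# The conformal upper box dimension of percolation is almost surely constant
-/

set_option autoImplicit false

open MeasureTheory Set Filter Topology
open scoped ENNReal NNReal

namespace Pool.Agent.N488.CB

open Pool.Agent.R671.MP

variable {d n : ℕ}

theorem an_conf_lt (c : EReal) : AnalyticSet {ω : Conf d n | confUpperBoxDim (F ω) < c} := by
  have e : {ω : Conf d n | confUpperBoxDim (F ω) < c} =
      ⋃ s : {s : ℚ // ((s : ℝ) : EReal) < c}, {ω : Conf d n | ∃ ρ, Good ((s : ℚ) : ℝ) ω ρ} := by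
    ext ω
    simp only [mem_iUnion]
    constructor
    · intro h
      have h' : confUpperBoxDim (F ω) < c := h
      obtain ⟨s, hs1, hs2⟩ := EReal.lt_iff_exists_rat_btwn.mp h'
      refine ⟨⟨s, hs2⟩, ?_⟩
      unfold confUpperBoxDim at hs1
      rw [iInf_lt_iff] at hs1
      obtain ⟨Y, hs1⟩ := hs1
      rw [iInf_lt_iff] at hs1
      obtain ⟨hY, hs1⟩ := hs1
      rw [iInf_lt_iff] at hs1
      obtain ⟨f, hs1⟩ := hs1
      rw [iInf_lt_iff] at hs1
      obtain ⟨hf, hs1⟩ := hs1
      exact good_of ω Y f hf s hs1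
    · rintro ⟨⟨s, hs⟩, ρ, hρ⟩
      exact lt_of_le_of_lt (conf_le_of_good ω ρ s hρ) hs
  rw [e]
  exact AnalyticSet.iUnion fun s => an_exists_Good _

theorem null_conf_lt (p : unitInterval) (c : EReal) :
    NullMeasurableSet {ω : Conf d n | confUpperBoxDim (F ω) < c} (law d n p) :=
  Pool.Agent.H894R3.Ana.analytic_nullMeasurable _ (an_conf_lt c)

/-- Zero-one law for inherited events. -/
theorem zero_one (hd : 1 ≤ d) (hn : 2 ≤ n) (p : unitInterval) (hp0 : (0 : ℝ) < p)
    (E : Set (Conf d n)) (hS : {ω | ¬ surv ω} ⊆ E)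
    (hE : ∀ ω ∈ E, ∀ a, ω [] a = true → shift a ω ∈ E)
    (h : (law d n p).real E ≠ 1) : ∀ᵐ ω ∂(law d n p), surv ω → ω ∉ E := by
  set P := law d n p with hP
  set E' := toMeasurable P E with hE'
  set t : ℝ := P.real E with ht
  have ht' : P.real E' = t := by
    rw [ht, Measure.real, Measure.real, hE', measure_toMeasurable]
  set q : ℝ := P.real {ω | ¬ surv ω} with hq
  have hmT : MeasurableSet E' := measurableSet_toMeasurable _ _
  have hmS : MeasurableSet {ω : Conf d n | ¬ surv ω} := ZO.meas_surv.compl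
  have e1 : t ≤ ((p : ℝ) * t + (1 - p)) ^ (n ^ d) := by
    have h1 := ZO.meas_all p E' hmT
    have h2 : E ⊆ {ω : Conf d n | ∀ a, ω [] a = true → shift a ω ∈ E'} :=
      fun ω hω a ha => subset_toMeasurable _ _ (hE ω hω a ha)
    have h3 : t ≤ P.real {ω : Conf d n | ∀ a, ω [] a = true → shift a ω ∈ E'} :=
      measureReal_mono h2
    rw [h1] at h3
    rw [ht'] at h3
    exact h3
  have e2 : q = ((p : ℝ) * q + (1 - p)) ^ (n ^ d) := by
    have := ZO.meas_all p {ω : Conf d n | ¬ surv ω} hmS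
    have e : {ω : Conf d n | ∀ a, ω [] a = true → shift a ω ∈ {ω : Conf d n | ¬ surv ω}} =
        {ω : Conf d n | ¬ surv ω} := by
      ext ω
      exact (ZO.not_surv_iff ω).symm
    rw [e] at this
    exact this
  have hqt : q ≤ t := measureReal_mono hS
  have ht1 : t < 1 := lt_of_le_of_ne measureReal_le_one h
  have hq0 : 0 ≤ q := measureReal_nonneg
  have hM : 2 ≤ n ^ d := by
    calc 2 ≤ n := hn
      _ = n ^ 1 := (pow_one n).symm
      _ ≤ n ^ d := Nat.pow_le_pow_right (by omega) hd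
  have hqt' : q = t := by
    by_contra hne
    have hlt : q < t := lt_of_le_of_ne hqt hne
    have hsc := strictConvexOn_pow hM
    have hp1 : (0 : ℝ) ≤ 1 - p := by have := p.2.2; linarith
    set α : ℝ := (1 - t) / (1 - q) with hα
    set γ : ℝ := (t - q) / (1 - q) with hγ
    have h1q : 0 < 1 - q := by linarith
    have hα0 : 0 < α := div_pos (by linarith) h1q
    have hγ0 : 0 < γ := div_pos (by linarith) h1q
    have hsum : α + γ = 1 := by
      rw [hα, hγ, ← add_div, div_eq_one_iff_eq h1q.ne']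
      ring
    have htc : t = α * q + γ * 1 := by
      rw [hα, hγ]
      field_simp
      ring
    have hx : (p : ℝ) * q + (1 - p) ∈ Ici (0 : ℝ) := by
      rw [mem_Ici]
      exact add_nonneg (mul_nonneg hp0.le hq0) hp1
    have hne2 : (p : ℝ) * q + (1 - p) ≠ 1 := by
      intro h3
      have : (p : ℝ) * (1 - q) = 0 := by linarith
      rcases mul_eq_zero.1 this with h4 | h4
      · exact hp0.ne' h4
      · linarith
    have h5 := hsc.2 hx (mem_Ici.2 (zero_le_one (α := ℝ))) hne2 hα0 hγ0 hsum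
    simp only [smul_eq_mul, one_pow, mul_one] at h5
    rw [← e2] at h5
    have h6 : α * ((p : ℝ) * q + (1 - p)) + γ = (p : ℝ) * t + (1 - p) := by
      rw [htc]
      linear_combination ((1 : ℝ) - p) * hsum
    rw [h6] at h5
    linarith
  have h7 : P.real (E' \ {ω : Conf d n | ¬ surv ω}) = 0 := by
    rw [measureReal_sdiff (hS.trans (subset_toMeasurable _ _)) hmS]
    linarith
  rw [ae_iff]
  refine measure_mono_null ?_ ((measureReal_eq_zero_iff).1 h7)
  intro ω hω
  have h8 : ¬ (surv ω → ω ∉ E) := hω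
  push Not at h8
  exact ⟨subset_toMeasurable _ _ h8.2, fun h9 => h9 h8.1⟩

/-- the subcube `a` contains a scaled copy of the limit set of the shifted configuration -/
theorem conf_shift_le (hn : 1 ≤ n) (ω : Conf d n) (a : Fin d → Fin n) (ha : ω [] a = true) :
    confUpperBoxDim (F (shift a ω)) ≤ confUpperBoxDim (F ω) := by
  have hn0 : (0 : ℝ) < n := by exact_mod_cast hn
  let A : EuclideanSpace ℝ (Fin d) := (WithLp.equiv 2 _).symm fun i => ((a i : ℕ) : ℝ)
  have hmem : ∀ y : F (shift a ω), (1 / (n : ℝ)) • (A + (y : EuclideanSpace ℝ (Fin d))) ∈ F ω := by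
    intro y
    rw [F_step hn]
    refine ⟨a, y, ha, y.2, fun i => ?_⟩
    simp [A]
    field_simp
  refine conf_mono (fun y => ⟨_, hmem y⟩) (1 / (n : ℝ)) (by positivity) fun x y => ?_
  change dist ((1 / (n : ℝ)) • (A + (x : EuclideanSpace ℝ (Fin d))))
    ((1 / (n : ℝ)) • (A + (y : EuclideanSpace ℝ (Fin d)))) = _
  rw [dist_smul₀, dist_add_left, Real.norm_of_nonneg (by positivity)]
  rfl

/-- Almost surely constant, in the extended reals. -/
theorem main_ereal (hd : 1 ≤ d) (hn : 2 ≤ n) (p : unitInterval) (hp0 : (0 : ℝ) < p) :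
    ∃ c : EReal, ∀ᵐ ω ∂(law d n p), surv ω → confUpperBoxDim (F ω) = c := by
  have dich : ∀ c : EReal, (∀ᵐ ω ∂(law d n p), surv ω → confUpperBoxDim (F ω) < c) ∨
      (∀ᵐ ω ∂(law d n p), surv ω → ¬ confUpperBoxDim (F ω) < c) := by
    intro c
    let E : Set (Conf d n) := {ω | confUpperBoxDim (F ω) < c} ∪ {ω | ¬ surv ω}
    have hEm : NullMeasurableSet E (law d n p) :=
      (null_conf_lt p c).union (ZO.meas_surv.compl).nullMeasurableSet
    by_cases h1 : (law d n p).real E = 1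
    · left
      have h2 : law d n p E = 1 := by
        have : law d n p E = ENNReal.ofReal ((law d n p).real E) := by rw [ofReal_measureReal]
        rw [this, h1, ENNReal.ofReal_one]
      have h3 : law d n p Eᶜ = 0 := by
        rw [prob_compl_eq_zero_iff₀ hEm]
        exact h2
      rw [ae_iff]
      refine measure_mono_null ?_ h3
      intro ω hω
      have h4 : ¬ (surv ω → confUpperBoxDim (F ω) < c) := hω
      push Not at h4
      rintro (h5 | h5)
      · exact absurd h5 (not_lt.mpr h4.2)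
      · exact h5 h4.1
    · right
      have h2 := zero_one hd hn p hp0 E subset_union_right (by
        rintro ω (hω | hω) a ha
        · left
          exact lt_of_le_of_lt (conf_shift_le (by omega) ω a ha) hω
        · right
          exact (ZO.not_surv_iff ω).mp hω a ha) h1
      filter_upwards [h2] with ω h3 h4 h5
      exact h3 h4 (Or.inl h5)
  let S : Set EReal := {c | ∀ᵐ ω ∂(law d n p), surv ω → confUpperBoxDim (F ω) < c}
  refine ⟨sInf S, ?_⟩
  have h1 : ∀ r : ℚ, ∀ᵐ ω ∂(law d n p), surv ω →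
      ((sInf S < ((r : ℝ) : EReal) → confUpperBoxDim (F ω) < ((r : ℝ) : EReal)) ∧
      (((r : ℝ) : EReal) < sInf S → ((r : ℝ) : EReal) ≤ confUpperBoxDim (F ω))) := by
    intro r
    rcases dich ((r : ℝ) : EReal) with h | h
    · filter_upwards [h] with ω hω hs
      refine ⟨fun _ => hω hs, fun h3 => ?_⟩
      have : sInf S ≤ ((r : ℝ) : EReal) := sInf_le h
      exact absurd h3 (not_lt.mpr this)
    · by_cases h3 : sInf S < ((r : ℝ) : EReal)
      · obtain ⟨c, hc, hcr⟩ := sInf_lt_iff.mp h3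
        have hc' : ∀ᵐ ω ∂(law d n p), surv ω → confUpperBoxDim (F ω) < c := hc
        filter_upwards [hc'] with ω hω hs
        exact ⟨fun _ => (hω hs).trans hcr, fun h4 => absurd h4 (not_lt.mpr h3.le)⟩
      · filter_upwards [h] with ω hω hs
        exact ⟨fun h4 => absurd h4 h3, fun _ => not_lt.mp (hω hs)⟩
  have h2 := ae_all_iff.mpr h1
  filter_upwards [h2] with ω hω hs
  refine le_antisymm ?_ ?_
  · by_contra hcon
    push Not at hcon
    obtain ⟨r, hr1, hr2⟩ := EReal.lt_iff_exists_rat_btwn.mp hcon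
    exact absurd ((hω r hs).1 hr1) (not_lt.mpr hr2.le)
  · by_contra hcon
    push Not at hcon
    obtain ⟨r, hr1, hr2⟩ := EReal.lt_iff_exists_rat_btwn.mp hcon
    exact absurd ((hω r hs).2 hr2) (not_le.mpr hr1)

/-! ### bounds, so that the constant is a real number -/

theorem conf_le_self (X : Type) [MetricSpace X] : confUpperBoxDim X ≤ upperBoxDim X :=
  conf_le_of X (Homeomorph.refl X) ⟨Homeomorph.refl _, fun _ _ _ _ _ h => h⟩

theorem upperBoxDim_nonneg (Y : Type) [MetricSpace Y] [Nonempty Y] : 0 ≤ upperBoxDim Y := by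
  have h1 : ∀ᶠ ε : ℝ in 𝓝[>] (0 : ℝ), (0 : EReal) ≤
      ENNReal.log ((coverNum Y ε : ℕ∞) : ℝ≥0∞) / ((Real.log (1 / ε) : ℝ) : EReal) := by
    filter_upwards [T12_small] with ε hε
    have hLpos : 0 < Real.log (1 / ε) := Real.log_pos (by rw [lt_div_iff₀ hε.1]; linarith [hε.2])
    refine EReal.div_nonneg ?_ (by exact_mod_cast hLpos.le)
    have h2 : (1 : ℕ∞) ≤ coverNum Y ε := by
      unfold coverNum
      refine le_iInf₂ fun s hs => ?_
      obtain ⟨z, hz, -⟩ := hs (Classical.arbitrary Y)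
      have : 1 ≤ s.card := Finset.card_pos.mpr ⟨z, hz⟩
      exact_mod_cast this
    have h3 : (1 : ℝ≥0∞) ≤ ((coverNum Y ε : ℕ∞) : ℝ≥0∞) := by
      have := ENat.toENNReal_le.2 h2
      simpa using this
    rw [← ENNReal.log_one]
    exact ENNReal.log_le_log h3
  exact le_limsup_of_frequently_le h1.frequently (by isBoundedDefault)

theorem conf_nonneg (X : Type) [MetricSpace X] [Nonempty X] : 0 ≤ confUpperBoxDim X := by
  unfold confUpperBoxDim
  refine le_iInf fun Y => le_iInf fun hY => le_iInf fun f => le_iInf fun _ => ?_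
  have : Nonempty Y := ⟨f (Classical.arbitrary X)⟩
  exact upperBoxDim_nonneg Y

theorem coverNum_K0 (ε : ℝ) (hε0 : 0 < ε) (hε1 : ε ≤ 1) :
    ((coverNum (K0 d n) ε : ℕ∞) : ℝ≥0∞) ≤ ENNReal.ofReal (((d : ℝ) + 3) ^ d * ε ^ (-(d : ℝ))) := by
  classical
  obtain ⟨m, hm1, hm2⟩ : ∃ m : ℕ, ((d : ℝ) + 1) / ε ≤ m ∧ (m : ℝ) < ((d : ℝ) + 1) / ε + 1 :=
    ⟨⌈((d : ℝ) + 1) / ε⌉₊, Nat.le_ceil _, Nat.ceil_lt_add_one (by positivity)⟩
  have hm0 : (0 : ℝ) < m := lt_of_lt_of_le (by positivity) hm1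
  have hmem : ∀ j : Fin d → Fin (m + 1), (WithLp.toLp 2 fun i => ((j i : ℕ) : ℝ) / m) ∈
      cube ([] : List (Fin d → Fin n)) := by
    intro j i
    have h1 : ((j i : ℕ) : ℝ) ≤ m := by
      have := Nat.lt_succ_iff.mp (j i).2
      exact_mod_cast this
    simp only [corner, List.length_nil, pow_zero, div_one, zero_add]
    exact ⟨by positivity, by rw [div_le_one hm0]; exact h1⟩
  let c : (Fin d → Fin (m + 1)) → K0 d n := fun j => ⟨_, hmem j⟩
  have hcov : coverNum (K0 d n) ε ≤ (((m + 1) ^ d : ℕ) : ℕ∞) := by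
    refine (coverNum_le_card (Finset.univ.image c) ?_).trans ?_
    · intro y
      have hy : ∀ i, 0 ≤ (y : EuclideanSpace ℝ (Fin d)) i ∧ (y : EuclideanSpace ℝ (Fin d)) i ≤ 1 := by
        intro i
        have := y.2 i
        simpa [corner] using this
      have hfl : ∀ i, ⌊(y : EuclideanSpace ℝ (Fin d)) i * m⌋₊ < m + 1 := by
        intro i
        rw [Nat.floor_lt (mul_nonneg (hy i).1 hm0.le)]
        push_cast
        nlinarith [(hy i).1, (hy i).2]
      refine ⟨c fun i => ⟨⌊(y : EuclideanSpace ℝ (Fin d)) i * m⌋₊, hfl i⟩,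
        Finset.mem_image_of_mem _ (Finset.mem_univ _), ?_⟩
      have hi : ∀ i, |(y : EuclideanSpace ℝ (Fin d)) i -
          (⌊(y : EuclideanSpace ℝ (Fin d)) i * m⌋₊ : ℝ) / m| ≤ 1 / m := by
        intro i
        have h1 := Nat.floor_le (mul_nonneg (hy i).1 hm0.le)
        have h2 := Nat.lt_floor_add_one ((y : EuclideanSpace ℝ (Fin d)) i * m)
        rw [abs_le]
        constructor
        · rw [neg_le_sub_iff_le_add, div_le_iff₀ hm0, add_mul, div_mul_cancel₀ _ hm0.ne']
          linarith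
        · rw [sub_le_iff_le_add, ← add_div, le_div_iff₀ hm0]
          linarith
      change dist (y : EuclideanSpace ℝ (Fin d))
        (WithLp.toLp 2 fun i => (⌊(y : EuclideanSpace ℝ (Fin d)) i * m⌋₊ : ℝ) / m) ≤ ε
      rw [EuclideanSpace.dist_eq]
      have h1 : ∑ i, dist ((y : EuclideanSpace ℝ (Fin d)) i)
          ((⌊(y : EuclideanSpace ℝ (Fin d)) i * m⌋₊ : ℝ) / m) ^ 2 ≤
          (((d : ℝ) + 1) * (1 / m)) ^ 2 := by
        calc ∑ i, dist ((y : EuclideanSpace ℝ (Fin d)) i)
              ((⌊(y : EuclideanSpace ℝ (Fin d)) i * m⌋₊ : ℝ) / m) ^ 2 ≤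
              ∑ _i : Fin d, (1 / (m : ℝ)) ^ 2 := by
              refine Finset.sum_le_sum fun i _ => ?_
              rw [Real.dist_eq]
              exact pow_le_pow_left₀ (abs_nonneg _) (hi i) 2
          _ = d * (1 / (m : ℝ)) ^ 2 := by simp
          _ ≤ (((d : ℝ) + 1) * (1 / m)) ^ 2 := by
              have hd : (0 : ℝ) ≤ d := Nat.cast_nonneg d
              rw [mul_pow]
              refine mul_le_mul_of_nonneg_right ?_ (by positivity)
              nlinarith
      calc √(∑ i, dist ((y : EuclideanSpace ℝ (Fin d)) i)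
            ((⌊(y : EuclideanSpace ℝ (Fin d)) i * m⌋₊ : ℝ) / m) ^ 2) ≤
            √((((d : ℝ) + 1) * (1 / m)) ^ 2) := Real.sqrt_le_sqrt h1
        _ = ((d : ℝ) + 1) * (1 / m) := Real.sqrt_sq (by positivity)
        _ ≤ ε := by
            rw [mul_one_div, div_le_iff₀ hm0]
            rw [div_le_iff₀ hε0] at hm1
            linarith
    · have : (Finset.univ.image c).card ≤ (m + 1) ^ d := Finset.card_image_le.trans (by simp)
      exact_mod_cast this
  have hcov' : ((coverNum (K0 d n) ε : ℕ∞) : ℝ≥0∞) ≤ (((m + 1) ^ d : ℕ) : ℝ≥0∞) := by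
    have := ENat.toENNReal_le.2 hcov
    simpa using this
  refine hcov'.trans ?_
  have h3 : (((m + 1) ^ d : ℕ) : ℝ≥0∞) = ENNReal.ofReal (((m + 1) ^ d : ℕ) : ℝ) := by
    rw [ENNReal.ofReal_natCast]
  rw [h3]
  refine ENNReal.ofReal_le_ofReal ?_
  rw [Real.rpow_neg hε0.le, Real.rpow_natCast, ← div_eq_mul_inv, ← div_pow]
  push_cast
  refine pow_le_pow_left₀ (by positivity) ?_ d
  have h4 : (1 : ℝ) ≤ 1 / ε := by rw [le_div_iff₀ hε0]; linarith
  have h5 : ((d : ℝ) + 3) / ε = ((d : ℝ) + 1) / ε + 2 * (1 / ε) := by ring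
  rw [h5]
  linarith

theorem conf_F_le (ω : Conf d n) : confUpperBoxDim (F ω) ≤ ((d : ℝ) : EReal) := by
  have h1 : confUpperBoxDim (F ω) ≤ confUpperBoxDim (K0 d n) :=
    conf_mono (fun y => ⟨(y : EuclideanSpace ℝ (Fin d)), F_subset ω y.2⟩) 1 one_pos fun x y => by
      rw [one_mul]; rfl
  refine h1.trans ((conf_le_self _).trans ?_)
  refine upperBoxDim_le (d : ℝ) (((d : ℝ) + 3) ^ d) (by positivity) ?_
  filter_upwards [T12_small] with ε hε
  exact coverNum_K0 ε hε.1 hε.2.le

theorem main_real (hd : 1 ≤ d) (hn : 2 ≤ n) (p : unitInterval) (hp0 : (0 : ℝ) < p) :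
    ∃ c : ℝ, 0 ≤ c ∧ c ≤ d ∧
      ∀ᵐ ω ∂(law d n p), (F ω).Nonempty → confUpperBoxDim (F ω) = (c : EReal) := by
  obtain ⟨c, hc⟩ := main_ereal hd hn p hp0
  by_cases hs : ∀ᵐ ω ∂(law d n p), ¬ surv ω
  · refine ⟨0, le_rfl, by positivity, ?_⟩
    filter_upwards [hs] with ω hω hne
    exact absurd ((F_nonempty_iff (by omega) ω).mp hne) hω
  · have h1 : ∃ᶠ ω in ae (law d n p), surv ω := by
      rw [Filter.Frequently]
      exact hs
    obtain ⟨ω, hω1, hω2⟩ := (h1.and_eventually hc).exists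
    have hne : (F ω).Nonempty := (F_nonempty_iff (by omega) ω).mpr hω1
    have : Nonempty (F ω) := hne.to_subtype
    have h2 := hω2 hω1
    have h3 : 0 ≤ c := by rw [← h2]; exact conf_nonneg _
    have h4 : c ≤ ((d : ℝ) : EReal) := by rw [← h2]; exact conf_F_le ω
    lift c to ℝ using ⟨(lt_of_le_of_lt h4 (EReal.coe_lt_top _)).ne,
      (lt_of_lt_of_le (EReal.bot_lt_zero) h3).ne'⟩
    refine ⟨c, by exact_mod_cast h3, by exact_mod_cast h4, ?_⟩
    filter_upwards [hc] with ω' h5 h6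
    exact h5 ((F_nonempty_iff (by omega) ω').mp h6)

end Pool.Agent.N488.CB
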