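import Pool.Agent.R492.CF.Base
import Pool.Agent.Results.MP_254ca6_gt.ProperInclusions

set_option autoImplicit false

namespace Pool.Agent.N488.CFTree

open Set Topology Filter Pool.Agent.R492.CF Pool.Agent.Results.MP_254ca6_gt.ProperInclusions

/-- `g` is the `t`-limit of `z`, and `p` is an index map for `z` along `t`. -/
def D (t : βω) (z : ℕ → βω) (p : ℕ → ℕ) (g : βω) : Prop :=
  Tendsto z t (𝓝 g) ∧ ∀ᶠ i in (t : Filter ℕ), {n | p n = i} ∈ z i

theorem compl_mem {u : βω} {S : Set ℕ} : Sᶜ ∈ u ↔ S ∉ u := Ultrafilter.compl_mem_iff_notMem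

theorem ext_mem {u w : βω} (h : ∀ S ∈ u, S ∈ w) : w = u :=
  Ultrafilter.coe_le_coe.mp fun S hS => h S hS

theorem D.map_eq {t : βω} {z : ℕ → βω} {p : ℕ → ℕ} {g : βω} (h : D t z p g) : g.map p = t := by
  ext S
  rw [Ultrafilter.mem_map, mem_iff_of_tendsto h.1]
  have : ∀ᶠ i in (t : Filter ℕ), (p ⁻¹' S ∈ z i ↔ i ∈ S) := by
    filter_upwards [h.2] with i hi
    constructor
    · intro h1
      obtain ⟨n, hn1, hn2⟩ := (z i).nonempty_of_mem (inter_mem h1 hi)
      have h3 : p n = i := hn2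
      exact h3 ▸ hn1
    · intro h1
      refine mem_of_superset hi ?_
      intro n hn
      have h3 : p n = i := hn
      change p n ∈ S
      rw [h3]; exact h1
  exact ⟨fun h1 => mem_of_superset (inter_mem h1 this) fun i hi => hi.2.mp hi.1,
    fun h1 => mem_of_superset (inter_mem h1 this) fun i hi => hi.2.mpr hi.1⟩

/-- membership in the closure of a discrete sequence gives a decomposition -/
theorem D_of_cl {z : ℕ → βω} {p : ℕ → ℕ} {y : βω}
    (hcl : ∀ S ∈ y, ∃ i, {n | p n = i} ∈ z i ∧ S ∈ z i) : D (y.map p) z p y := by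
  constructor
  · apply tendsto_of_mem_iff
    intro S hS
    rw [Ultrafilter.mem_map]
    by_contra hno
    obtain ⟨i, hi1, hi2⟩ := hcl _ (inter_mem hS (compl_mem.mpr hno))
    obtain ⟨n, hn1, hn2⟩ := (z i).nonempty_of_mem (inter_mem hi1 hi2)
    have h3 : p n = i := hn1
    apply hn2.2
    change S ∈ z (p n)
    rw [h3]
    exact mem_of_superset hi2 inter_subset_left
  · change _ ∈ y.map p
    rw [Ultrafilter.mem_map]
    by_contra hno
    obtain ⟨i, hi1, hi2⟩ := hcl _ (compl_mem.mpr hno)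
    obtain ⟨n, hn1, hn2⟩ := (z i).nonempty_of_mem (inter_mem hi1 hi2)
    have h3 : p n = i := hn1
    apply hn2
    change {n' | p n' = p n} ∈ z (p n)
    rw [h3]
    exact hi1

theorem half {t : βω} {z : ℕ → βω} {p : ℕ → ℕ} {g : βω} {v : βω} {y : ℕ → βω} {q : ℕ → ℕ}
    (h1 : D t z p g) (h2 : D v y q g)
    (hcl : ∀ᶠ j in (v : Filter ℕ), ∀ S ∈ y j, ∃ i, {n | p n = i} ∈ z i ∧ S ∈ z i) :
    (∃ Q, D v (fun j => (y j).map p) Q t) ∧ ∀ᶠ j in (v : Filter ℕ), D ((y j).map p) z p (y j) := by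
  classical
  have hD : ∀ᶠ j in (v : Filter ℕ), D ((y j).map p) z p (y j) := by
    filter_upwards [hcl] with j hj
    exact D_of_cl hj
  refine ⟨?_, hD⟩
  have hgp := h1.map_eq
  let E : ℕ → Set ℕ := fun j => {i | {n | q n = j} ∈ z i}
  have hE : ∀ i j j', i ∈ E j → i ∈ E j' → j = j' := by
    intro i j j' hj hj'
    obtain ⟨n, hn1, hn2⟩ := (z i).nonempty_of_mem (inter_mem hj hj')
    have h3 : q n = j := hn1
    have h4 : q n = j' := hn2
    rw [← h3, ← h4]
  let Q : ℕ → ℕ := fun i => if h : ∃ j, i ∈ E j then h.choose else 0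
  have hQ : ∀ i j, i ∈ E j → Q i = j := by
    intro i j hij
    have h : ∃ j, i ∈ E j := ⟨j, hij⟩
    have : Q i = h.choose := dif_pos h
    rw [this]
    exact hE i _ _ h.choose_spec hij
  refine ⟨Q, ?_, ?_⟩
  · apply tendsto_of_mem_iff
    intro S hS
    rw [← hgp, Ultrafilter.mem_map, mem_iff_of_tendsto h2.1] at hS
    exact hS
  · filter_upwards [hD, h2.2] with j hj1 hj2
    have h3 : E j ∈ (y j).map p := (mem_iff_of_tendsto hj1.1 _).mp hj2
    exact mem_of_superset h3 fun i hi => hQ i j hi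

/-- Comparison of two decompositions of one ultrafilter. -/
theorem compare {t : βω} {z : ℕ → βω} {p : ℕ → ℕ} {g : βω} {v : βω} {y : ℕ → βω} {q : ℕ → ℕ}
    (h1 : D t z p g) (h2 : D v y q g) :
    ((∃ Q, D v (fun j => (y j).map p) Q t) ∧
      ∀ᶠ j in (v : Filter ℕ), D ((y j).map p) z p (y j)) ∨
    ((∃ Q, D t (fun i => (z i).map q) Q v) ∧
      ∀ᶠ i in (t : Filter ℕ), D ((z i).map q) y q (z i)) := by
  classical
  by_cases hA : ∀ᶠ j in (v : Filter ℕ), ∀ S ∈ y j, ∃ i, {n | p n = i} ∈ z i ∧ S ∈ z i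
  · exact Or.inl (half h1 h2 hA)
  by_cases hB : ∀ᶠ i in (t : Filter ℕ), ∀ S ∈ z i, ∃ j, {n | q n = j} ∈ y j ∧ S ∈ y j
  · exact Or.inr (half h2 h1 hB)
  exfalso
  have hA' : ∀ᶠ j in (v : Filter ℕ), ¬ ∀ S ∈ y j, ∃ i, {n | p n = i} ∈ z i ∧ S ∈ z i :=
    Ultrafilter.eventually_not.mpr hA
  have hB' : ∀ᶠ i in (t : Filter ℕ), ¬ ∀ S ∈ z i, ∃ j, {n | q n = j} ∈ y j ∧ S ∈ y j :=
    Ultrafilter.eventually_not.mpr hB
  let J : ℕ → Prop := fun j => {n | q n = j} ∈ y j ∧
    ∃ S ∈ y j, ∀ i, {n | p n = i} ∈ z i → S ∉ z i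
  let I : ℕ → Prop := fun i => {n | p n = i} ∈ z i ∧
    ∃ S ∈ z i, ∀ j, {n | q n = j} ∈ y j → S ∉ y j
  have hJ : ∀ᶠ j in (v : Filter ℕ), J j := by
    filter_upwards [hA', h2.2] with j hj hj2
    push Not at hj
    obtain ⟨S, hS, h⟩ := hj
    exact ⟨hj2, S, hS, h⟩
  have hI : ∀ᶠ i in (t : Filter ℕ), I i := by
    filter_upwards [hB', h1.2] with j hj hj2
    push Not at hj
    obtain ⟨S, hS, h⟩ := hj
    exact ⟨hj2, S, hS, h⟩
  let S : ℕ → Set ℕ := fun j => if h : J j then h.2.choose else ∅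
  let T : ℕ → Set ℕ := fun i => if h : I i then h.2.choose else ∅
  have hS1 : ∀ j, J j → S j ∈ y j := by
    intro j hj
    have : S j = hj.2.choose := dif_pos hj
    rw [this]; exact hj.2.choose_spec.1
  have hS2 : ∀ j i, I i → S j ∉ z i := by
    intro j i hi
    by_cases hj : J j
    · have : S j = hj.2.choose := dif_pos hj
      rw [this]; exact hj.2.choose_spec.2 i hi.1
    · have : S j = ∅ := dif_neg hj
      rw [this]; exact (z i).empty_notMem
  have hT1 : ∀ i, I i → T i ∈ z i := by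
    intro j hj
    have : T j = hj.2.choose := dif_pos hj
    rw [this]; exact hj.2.choose_spec.1
  have hT2 : ∀ i j, J j → T i ∉ y j := by
    intro j i hi
    by_cases hj : I j
    · have : T j = hj.2.choose := dif_pos hj
      rw [this]; exact hj.2.choose_spec.2 i hi.1
    · have : T j = ∅ := dif_neg hj
      rw [this]; exact (y i).empty_notMem
  let U : Set ℕ := {x | ∃ j, x ∈ S j ∧ ∀ i ≤ j, x ∉ T i}
  let V : Set ℕ := {x | ∃ i, x ∈ T i ∧ ∀ j ≤ i, x ∉ S j}
  have hUV : ∀ x, x ∈ U → x ∈ V → False := by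
    rintro x ⟨j, hj1, hj2⟩ ⟨i, hi1, hi2⟩
    rcases le_total i j with h | h
    · exact hj2 i h hi1
    · exact hi2 j h hj1
  have hU : ∀ j, J j → U ∈ y j := by
    intro j hj
    have h3 : (⋂ i ∈ Finset.range (j + 1), (T i)ᶜ) ∈ y j := by
      rw [← Ultrafilter.mem_coe, Filter.biInter_finset_mem]
      intro i _
      exact compl_mem.mpr (hT2 i j hj)
    refine mem_of_superset (inter_mem (hS1 j hj) h3) ?_
    rintro x ⟨hx1, hx2⟩
    exact ⟨j, hx1, fun i hi => mem_iInter₂.mp hx2 i (Finset.mem_range.mpr (by omega))⟩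
  have hV : ∀ i, I i → V ∈ z i := by
    intro j hj
    have h3 : (⋂ i ∈ Finset.range (j + 1), (S i)ᶜ) ∈ z j := by
      rw [← Ultrafilter.mem_coe, Filter.biInter_finset_mem]
      intro i _
      exact compl_mem.mpr (hS2 i j hj)
    refine mem_of_superset (inter_mem (hT1 j hj) h3) ?_
    rintro x ⟨hx1, hx2⟩
    exact ⟨j, hx1, fun i hi => mem_iInter₂.mp hx2 i (Finset.mem_range.mpr (by omega))⟩
  have h3 : U ∈ g := (mem_iff_of_tendsto h2.1 _).mpr (mem_of_superset hJ hU)
  have h4 : V ∈ g := (mem_iff_of_tendsto h1.1 _).mpr (mem_of_superset hI hV)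
  obtain ⟨x, hx1, hx2⟩ := g.nonempty_of_mem (inter_mem h3 h4)
  exact hUV x hx1 hx2

/-- A discrete sum of ultrafilters above `v` is not `v`. -/
theorem glue {s : βω} {T : ℕ → βω} {p : ℕ → ℕ} {v : βω} (h : D s T p v) (hs : ¬ Principal s)
    (hT : ∀ᶠ n in (s : Filter ℕ), ∃ h : ℕ → ℕ, (T n).map h = v) : False := by
  classical
  let H : ℕ → ℕ → ℕ := fun n => if h : ∃ h : ℕ → ℕ, (T n).map h = v then h.choose else id
  have hH : ∀ᶠ n in (s : Filter ℕ), (T n).map (H n) = v := by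
    filter_upwards [hT] with n hn
    have : H n = hn.choose := dif_pos hn
    rw [this]; exact hn.choose_spec
  let G : ℕ → ℕ := fun k => H (p k) k
  have hG : ∀ᶠ n in (s : Filter ℕ), (T n).map G = v := by
    filter_upwards [hH, h.2] with n hn hn2
    rw [← hn]
    apply ext_mem
    intro S hS
    rw [Ultrafilter.mem_map] at hS ⊢
    refine mem_of_superset (inter_mem hS hn2) ?_
    rintro k ⟨hk1, hk2⟩
    have h3 : p k = n := hk2
    change H (p k) k ∈ S
    rw [h3]; exact hk1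
  have hvG : v.map G = v := by
    apply ext_mem
    intro S hS
    rw [Ultrafilter.mem_map, mem_iff_of_tendsto h.1]
    filter_upwards [hG] with n hn
    rw [← Ultrafilter.mem_map, hn]
    exact hS
  have hfix := fixed_point v G hvG
  rw [mem_iff_of_tendsto h.1] at hfix
  have hTv : ∀ᶠ n in (s : Filter ℕ), T n = v ∧ {k | p k = n} ∈ T n := by
    filter_upwards [hfix, hG, h.2] with n hn1 hn2 hn3
    refine ⟨?_, hn3⟩
    rw [← hn2]
    apply ext_mem
    intro S hS
    rw [Ultrafilter.mem_map] at hS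
    refine mem_of_superset (inter_mem hS hn1) ?_
    rintro k ⟨hk1, hk2⟩
    have h3 : G k = k := hk2
    have h4 : G k ∈ S := hk1
    rwa [h3] at h4
  obtain ⟨m, hm, m', hm', hne⟩ := (infinite_of_mem hs hTv).nontrivial
  have h5 : {k | p k = m} ∈ v := hm.1 ▸ hm.2
  have h6 : {k | p k = m'} ∈ v := hm'.1 ▸ hm'.2
  obtain ⟨k, hk1, hk2⟩ := v.nonempty_of_mem (inter_mem h5 h6)
  exact hne ((show p k = m from hk1).symm.trans (show p k = m' from hk2))

theorem map_principal {u : βω} (p : ℕ → ℕ) (h : Principal u) : Principal (u.map p) := by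
  obtain ⟨n, rfl⟩ := h
  exact ⟨p n, Ultrafilter.map_pure p n⟩

/-- If all members of the family are principal then `v` is an image of `s`. -/
theorem map_of_principal {s : βω} {T : ℕ → βω} {v : βω}
    (h : Tendsto T s (𝓝 v)) (hT : ∀ᶠ n in (s : Filter ℕ), Principal (T n)) :
    ∃ a : ℕ → ℕ, s.map a = v ∧ ∀ᶠ n in (s : Filter ℕ), T n = pure (a n) := by
  classical
  let a : ℕ → ℕ := fun n => if h : Principal (T n) then h.choose else 0
  have ha : ∀ᶠ n in (s : Filter ℕ), T n = pure (a n) := by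
    filter_upwards [hT] with n hn
    have : a n = hn.choose := dif_pos hn
    rw [this]; exact hn.choose_spec
  refine ⟨a, ?_, ha⟩
  apply ext_mem
  intro S hS
  rw [mem_iff_of_tendsto h] at hS
  rw [Ultrafilter.mem_map]
  filter_upwards [hS, ha] with n hn1 hn2
  have h3 : S ∈ T n := hn1
  rw [hn2] at h3
  exact Ultrafilter.mem_pure.mp h3

theorem D_of_inj {v : βω} {f : ℕ → βω} {w : βω} (h1 : Function.Injective f)
    (h2 : DiscreteTopology (range f)) (h3 : Tendsto f v (𝓝 w)) : ∃ p, D v f p w := by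
  obtain ⟨p, hp⟩ := exists_disjoint_sep h1 h2
  exact ⟨p, h3, Eventually.of_forall hp⟩

theorem inX_cases {v w : βω} (h : InX v w) : Principal w ∨ ∃ f : ℕ → βω, (∀ n, InX v (f n)) ∧
    Function.Injective f ∧ DiscreteTopology (range f) ∧ Tendsto f v (𝓝 w) := by
  cases h with
  | pure n => exact Or.inl ⟨n, rfl⟩
  | lim f _ h1 h2 h3 h4 => exact Or.inr ⟨f, h1, h2, h3, h4⟩

/-- Claim C. -/
theorem claimC {v g : βω} (hg : InX v g) : ∀ (z : ℕ → βω) (t : βω) (p : ℕ → ℕ),
    ¬ Principal t → D t z p g → (∀ᶠ i in (t : Filter ℕ), InX v (z i)) →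
    ∃ h : ℕ → ℕ, t.map h = v := by
  induction hg with
  | pure n =>
    intro z t p ht hD _
    exact absurd (hD.map_eq ▸ map_principal p ⟨n, rfl⟩) ht
  | lim y g hy hyi hyd hyg ih =>
    intro z t p ht hD hz
    obtain ⟨q, hq⟩ := D_of_inj hyi hyd hyg
    rcases compare hD hq with ⟨⟨Q, hQ⟩, -⟩ | ⟨⟨Q, hQ⟩, hdec⟩
    · exact ⟨Q, hQ.map_eq⟩
    · by_cases hpr : ∀ᶠ i in (t : Filter ℕ), Principal ((z i).map q)
      · obtain ⟨a, ha, -⟩ := map_of_principal hQ.1 hpr
        exact ⟨a, ha⟩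
      · exfalso
        have hnp : ∀ᶠ i in (t : Filter ℕ), ¬ Principal ((z i).map q) :=
          Ultrafilter.eventually_not.mpr hpr
        refine glue hQ ht ?_
        filter_upwards [hdec, hnp, hz] with i hi1 hi2 hi3
        rcases inX_cases hi3 with hp | ⟨x, hx, hxi, hxd, hxz⟩
        · exact absurd (map_principal q hp) hi2
        · obtain ⟨r, hr⟩ := D_of_inj hxi hxd hxz
          rcases compare hi1 hr with ⟨⟨R, hR⟩, -⟩ | ⟨⟨R, hR⟩, hdec2⟩
          · exact ⟨R, hR.map_eq⟩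
          · by_cases hpr2 : ∀ᶠ j in ((z i).map q : Filter ℕ), Principal ((y j).map r)
            · obtain ⟨a, ha, -⟩ := map_of_principal hR.1 hpr2
              exact ⟨a, ha⟩
            · exfalso
              have hnp2 : ∀ᶠ j in ((z i).map q : Filter ℕ), ¬ Principal ((y j).map r) :=
                Ultrafilter.eventually_not.mpr hpr2
              refine glue hR hi2 ?_
              filter_upwards [hdec2, hnp2] with j hj1 hj2
              exact ih j x _ r hj2 hj1 (Eventually.of_forall hx)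

end Pool.Agent.N488.CFTree
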