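import Pool.Agent.N488.CFTree

set_option autoImplicit false

namespace Pool.Agent.N488.CFTree

open Set Topology Filter Pool.Agent.R492.CF Pool.Agent.Results.MP_254ca6_gt.ProperInclusions

theorem disc_of_open {X : Type} [TopologicalSpace X] (f : ℕ → X)
    (h : ∀ i, ∃ U : Set X, IsOpen U ∧ f i ∈ U ∧ ∀ j, j ≠ i → f j ∉ U) :
    Function.Injective f ∧ DiscreteTopology (range f) := by
  have hinj : Function.Injective f := by
    intro i j hij
    by_contra hne
    obtain ⟨U, -, h1, h2⟩ := h i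
    exact h2 j (Ne.symm hne) (hij ▸ h1)
  refine ⟨hinj, ?_⟩
  rw [discreteTopology_iff_isOpen_singleton]
  rintro ⟨_, ⟨i, rfl⟩⟩
  obtain ⟨U, hU, h1, h2⟩ := h i
  refine isOpen_induced_iff.mpr ⟨U, hU, ?_⟩
  ext ⟨_, ⟨j, rfl⟩⟩
  constructor
  · intro hj
    have hj' : f j ∈ U := hj
    have h6 : j = i := by
      by_contra hne
      exact h2 j hne hj'
    subst h6
    rfl
  · intro hj
    have h5 : f j = f i := congrArg Subtype.val hj
    change f j ∈ U
    rw [h5]; exact h1

theorem open_of_disc {X : Type} [TopologicalSpace X] (f : ℕ → X) (hinj : Function.Injective f)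
    (hd : DiscreteTopology (range f)) :
    ∀ i, ∃ U : Set X, IsOpen U ∧ f i ∈ U ∧ ∀ j, j ≠ i → f j ∉ U := by
  intro i
  have h1 : IsOpen ({⟨f i, ⟨i, rfl⟩⟩} : Set (range f)) := isOpen_discrete _
  obtain ⟨U, hU, hUi⟩ := isOpen_induced_iff.mp h1
  refine ⟨U, hU, ?_, ?_⟩
  · have : (⟨f i, ⟨i, rfl⟩⟩ : range f) ∈ (Subtype.val ⁻¹' U : Set (range f)) := by
      rw [hUi]; rfl
    exact this
  · intro j hj hjU
    have h2 : (⟨f j, ⟨j, rfl⟩⟩ : range f) ∈ (Subtype.val ⁻¹' U : Set (range f)) := hjU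
    rw [hUi] at h2
    exact hj (hinj (congrArg Subtype.val (show _ = _ from h2)))

theorem exists_retract {v : βω} (hv : ¬ Principal v) {A : Set ℕ} (hA : A ∈ v) :
    ∃ σ : ℕ → ℕ, Function.Injective σ ∧ (∀ n, σ n ∈ A) ∧ ∀ᶠ n in (v : Filter ℕ), σ n = n := by
  classical
  have hAinf := infinite_of_mem hv hA
  obtain ⟨B, hBA, hBu, hBc⟩ : ∃ B ⊆ A, B ∈ v ∧ (A \ B).Infinite := by
    let g := hAinf.natEmbedding A
    set A1 := range fun k : ℕ => (g (2 * k) : ℕ) with hA1
    have hA1A : A1 ⊆ A := by rintro _ ⟨k, rfl⟩; exact (g _).2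
    have hA1inf : A1.Infinite := infinite_range_of_injective fun a b hab => by
      have := g.injective (Subtype.ext hab)
      simpa using this
    by_cases h : A1 ∈ v
    · refine ⟨A1, hA1A, h, ?_⟩
      have hsub : (range fun k : ℕ => (g (2 * k + 1) : ℕ)) ⊆ A \ A1 := by
        rintro _ ⟨k, rfl⟩
        refine ⟨(g _).2, ?_⟩
        rintro ⟨j, hj⟩
        have := g.injective (Subtype.ext hj)
        omega
      refine Set.Infinite.mono hsub (infinite_range_of_injective fun a b hab => ?_)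
      have := g.injective (Subtype.ext hab)
      simpa using this
    · refine ⟨A \ A1, sdiff_subset, inter_mem hA (Ultrafilter.compl_mem_iff_notMem.mpr h), ?_⟩
      have : A \ (A \ A1) = A1 := by
        rw [sdiff_sdiff_right_self]
        exact inter_eq_right.mpr hA1A
      rw [this]
      exact hA1inf
  let e := hBc.natEmbedding (A \ B)
  refine ⟨fun n => if n ∈ B then n else (e n : ℕ), ?_, ?_, ?_⟩
  · intro a b hab
    by_cases ha : a ∈ B <;> by_cases hb : b ∈ B <;> simp only [ha, hb, if_true, if_false] at hab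
    · exact hab
    · exact absurd (hab ▸ ha) (e b).2.2
    · exact absurd (hab ▸ hb) (e a).2.2
    · exact e.injective (Subtype.ext hab)
  · intro n
    by_cases hn : n ∈ B
    · simp only [hn, if_true]; exact hBA hn
    · simp only [hn, if_false]; exact (e n).2.1
  · filter_upwards [hBu] with n hn
    simp only [hn, if_true]

/-- A discretely `v`-compact space has `v`-limits of sequences that are injective with discrete range
on a set of `v`. -/
theorem lim_of_partial {v : βω} (hv : ¬ Principal v) {X : Type} [TopologicalSpace X]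
    (hX : DiscretelyUCompact v X) {A : Set ℕ} (hA : A ∈ v) (x : ℕ → X)
    (h : ∀ i ∈ A, ∃ U : Set X, IsOpen U ∧ x i ∈ U ∧ ∀ j ∈ A, j ≠ i → x j ∉ U) :
    ∃ y, Tendsto x v (𝓝 y) := by
  obtain ⟨σ, hσ1, hσ2, hσ3⟩ := exists_retract hv hA
  obtain ⟨h1, h2⟩ := disc_of_open (x ∘ σ) (by
    intro i
    obtain ⟨U, hU, hU1, hU2⟩ := h (σ i) (hσ2 i)
    exact ⟨U, hU, hU1, fun j hj => hU2 (σ j) (hσ2 j) (hσ1.ne hj)⟩)
  obtain ⟨y, hy⟩ := hX (x ∘ σ) h1 h2
  refine ⟨y, hy.congr' ?_⟩
  filter_upwards [hσ3] with n hn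
  simp [hn]

/-! ### The space `X_K` -/

section K

variable (A : Set (Set ℕ))

/-- the trace of an ultrafilter on a family of sets -/
noncomputable def θ (p : βω) : A → Bool := fun S => @decide (S.1 ∈ p) (Classical.propDecidable _)

theorem θ_apply (p : βω) (S : A) : θ A p S = true ↔ S.1 ∈ p := by
  unfold θ
  exact @decide_eq_true_iff _ (Classical.propDecidable _)

theorem continuous_θ : Continuous (θ A) := by
  refine continuous_pi fun S => ?_
  rw [continuous_bool_rng true]
  have : (fun p => θ A p S) ⁻¹' {true} = {p : βω | S.1 ∈ p} := by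
    ext p
    exact θ_apply A p S
  rw [this]
  exact ⟨ultrafilter_isClosed_basic _, ultrafilter_isOpen_basic _⟩

variable {A}

theorem mem_iff_of_θ {p p' : βω} (h : θ A p = θ A p') {S : Set ℕ} (hS : S ∈ A) :
    S ∈ p ↔ S ∈ p' := by
  rw [← θ_apply A p ⟨S, hS⟩, ← θ_apply A p' ⟨S, hS⟩, h]

theorem eventually_mem_of_θ {v p : βω} {f : ℕ → A → Bool} (h : Tendsto f v (𝓝 (θ A p)))
    {S : Set ℕ} (hS : S ∈ A) (hSp : S ∈ p) : ∀ᶠ i in (v : Filter ℕ), f i ⟨S, hS⟩ = true := by
  have h1 : Tendsto (fun i => f i ⟨S, hS⟩) v (𝓝 (θ A p ⟨S, hS⟩)) :=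
    ((continuous_apply (⟨S, hS⟩ : A)).tendsto _).comp h
  rw [(θ_apply A p ⟨S, hS⟩).mpr hSp] at h1
  exact h1 (IsOpen.mem_nhds (isOpen_discrete {true}) rfl)

variable (A)

/-- The least set of traces containing the traces of principal ultrafilters and closed under
`v`-limits of injections with discrete range. -/
inductive InK (v : βω) : (A → Bool) → Prop
  | pure (n : ℕ) : InK v (θ A (pure n))
  | lim (f : ℕ → A → Bool) (x : A → Bool) : (∀ n, InK v (f n)) → Function.Injective f →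
      DiscreteTopology (range f) → Tendsto f v (𝓝 x) → InK v x

variable {A}

theorem InK.exists_lift {v : βω} {x : A → Bool} (h : InK A v x) : ∃ p, θ A p = x := by
  induction h with
  | pure n => exact ⟨_, rfl⟩
  | lim f x _ _ _ hx ih =>
    choose P hP using ih
    obtain ⟨p, hp⟩ := exists_limit P v
    refine ⟨p, ?_⟩
    have h1 : Tendsto (fun n => θ A (P n)) v (𝓝 (θ A p)) := ((continuous_θ A).tendsto p).comp hp
    simp only [hP] at h1
    exact tendsto_nhds_unique h1 hx

/-- lifting discreteness through a continuous map -/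
theorem disc_lift {f : ℕ → A → Bool} {P : ℕ → βω} (hP : ∀ n, θ A (P n) = f n)
    (h1 : Function.Injective f) (h2 : DiscreteTopology (range f)) :
    Function.Injective P ∧ DiscreteTopology (range P) := by
  apply disc_of_open
  intro i
  obtain ⟨U, hU, hU1, hU2⟩ := open_of_disc f h1 h2 i
  refine ⟨θ A ⁻¹' U, hU.preimage (continuous_θ A), ?_, fun j hj hj2 => ?_⟩
  · rw [mem_preimage, hP]; exact hU1
  · rw [mem_preimage, hP] at hj2
    exact hU2 j hj hj2

theorem inK_discretely_compact (v : βω) : DiscretelyUCompact v {x : A → Bool // InK A v x} := by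
  intro f hinj hd
  have hd' : Function.Injective (fun n => (f n).1) ∧ DiscreteTopology (range fun n => (f n).1) := by
    apply disc_of_open
    intro i
    obtain ⟨U, hU, hU1, hU2⟩ := open_of_disc f hinj hd i
    obtain ⟨V, hV, rfl⟩ := isOpen_induced_iff.mp hU
    exact ⟨V, hV, hU1, fun j hj => hU2 j hj⟩
  choose P hP using fun n => (f n).2.exists_lift
  obtain ⟨p, hp⟩ := exists_limit P v
  have h1 : Tendsto (fun n => θ A (P n)) v (𝓝 (θ A p)) := ((continuous_θ A).tendsto p).comp hp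
  simp only [hP] at h1
  exact ⟨⟨θ A p, InK.lim (fun n => (f n).1) _ (fun n => (f n).2) hd'.1 hd'.2 h1⟩,
    tendsto_subtype_rng.mpr h1⟩

/-- separation by sets in the algebra -/
theorem exists_sep_alg (hc : ∀ S ∈ A, Sᶜ ∈ A) (hi : ∀ S ∈ A, ∀ T ∈ A, S ∩ T ∈ A) (hu : univ ∈ A)
    {f : ℕ → A → Bool} {P : ℕ → βω} (hP : ∀ n, θ A (P n) = f n)
    (h1 : Function.Injective f) (h2 : DiscreteTopology (range f)) (i : ℕ) :
    ∃ B ∈ A, B ∈ P i ∧ ∀ j, j ≠ i → B ∉ P j := by
  classical
  obtain ⟨U, hU, hU1, hU2⟩ := open_of_disc f h1 h2 i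
  obtain ⟨I, u, hI1, hI2⟩ := isOpen_pi_iff.mp hU (f i) hU1
  -- the set of points agreeing with `f i` on `I`
  have key : ∀ J : Finset A, ∃ B ∈ A, ∀ j, B ∈ P j ↔ ∀ S ∈ J, f j S = f i S := by
    intro J
    induction J using Finset.induction_on with
    | empty => exact ⟨univ, hu, fun j => ⟨fun _ S hS => by simp at hS, fun _ => univ_mem⟩⟩
    | insert S J hSJ ih =>
      obtain ⟨B, hB1, hB2⟩ := ih
      by_cases hS : f i S = true
      · refine ⟨S.1 ∩ B, hi _ S.2 _ hB1, fun j => ?_⟩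
        rw [← Ultrafilter.mem_coe, inter_mem_iff, Ultrafilter.mem_coe, Ultrafilter.mem_coe, hB2,
          Finset.forall_mem_insert, ← θ_apply A (P j) S, hP, hS]
      · refine ⟨S.1ᶜ ∩ B, hi _ (hc _ S.2) _ hB1, fun j => ?_⟩
        rw [← Ultrafilter.mem_coe, inter_mem_iff, Ultrafilter.mem_coe, Ultrafilter.mem_coe, hB2,
          Finset.forall_mem_insert, compl_mem, ← θ_apply A (P j) S, hP]
        simp only [Bool.not_eq_true] at hS
        rw [hS, Bool.not_eq_true]
  obtain ⟨B, hB1, hB2⟩ := key I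
  refine ⟨B, hB1, (hB2 i).mpr fun _ _ => rfl, fun j hj hBj => ?_⟩
  apply hU2 j hj
  apply hI2
  intro S hS
  rw [(hB2 j).mp hBj S hS]
  exact (hI1 S hS).2

end K

/-! ### The algebra attached to a map `π` and a sequence `g` -/

/-- The sets on whose trace `g n` depends only on `π n`. -/
def Alg (π : ℕ → ℕ) (g : ℕ → βω) : Set (Set ℕ) :=
  {S | ∀ n n', π n = π n' → (S ∈ g n ↔ S ∈ g n')}

section Alg

variable {π : ℕ → ℕ} {g : ℕ → βω}

theorem alg_compl (S : Set ℕ) (hS : S ∈ Alg π g) : Sᶜ ∈ Alg π g := by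
  intro n n' h
  rw [compl_mem, compl_mem, hS n n' h]

theorem alg_inter (S : Set ℕ) (hS : S ∈ Alg π g) (T : Set ℕ) (hT : T ∈ Alg π g) :
    S ∩ T ∈ Alg π g := by
  intro n n' h
  rw [← Ultrafilter.mem_coe, ← Ultrafilter.mem_coe, inter_mem_iff, inter_mem_iff,
    Ultrafilter.mem_coe, Ultrafilter.mem_coe, Ultrafilter.mem_coe, Ultrafilter.mem_coe,
    hS n n' h, hT n n' h]

theorem alg_univ : univ ∈ Alg π g := fun _ _ _ => ⟨fun _ => univ_mem, fun _ => univ_mem⟩

theorem alg_of_notMem {S : Set ℕ} (hS : ∀ n, S ∉ g n) : S ∈ Alg π g :=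
  fun n n' _ => ⟨fun h => absurd h (hS n), fun h => absurd h (hS n')⟩

theorem not_singleton_mem {u : βω} (hu : ¬ Principal u) (n : ℕ) : ({n} : Set ℕ) ∉ u := fun h =>
  infinite_of_mem hu h (finite_singleton n)

theorem eq_pure_of_singleton {u : βω} {n : ℕ} (h : ({n} : Set ℕ) ∈ u) : u = pure n := by
  apply ext_mem
  intro S hS
  rw [Ultrafilter.mem_pure] at hS
  exact mem_of_superset h (singleton_subset_iff.mpr hS)

theorem alg_singleton (hg : ∀ n, ¬ Principal (g n)) (k : ℕ) : ({k} : Set ℕ) ∈ Alg π g :=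
  alg_of_notMem fun n => not_singleton_mem (hg n) k

/-- Traces outside the closure of `g` lift to `X_v`. -/
theorem lift_inX {v : βω} (hv : ¬ Principal v) (hg : ∀ n, ¬ Principal (g n))
    {x : Alg π g → Bool} (hx : InK (Alg π g) v x) :
    ∀ p, θ (Alg π g) p = x → (∃ S ∈ p, ∀ n, S ∉ g n) → InX v p := by
  induction hx with
  | pure n =>
    intro p hp _
    have h1 : ({n} : Set ℕ) ∈ p :=
      (mem_iff_of_θ hp (alg_singleton hg n)).mpr (Ultrafilter.mem_pure.mpr rfl)
    rw [eq_pure_of_singleton h1]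
    exact InX.pure n
  | lim f x hf hfi hfd hfx ih =>
    rintro p rfl ⟨S, hSp, hSg⟩
    choose P hP using fun n => (hf n).exists_lift
    have h1 : ∀ T ∈ p, ∀ᶠ i in (v : Filter ℕ), T ∩ S ∈ P i := by
      intro T hT
      have h2 : T ∩ S ∈ Alg π g := alg_of_notMem fun n hn =>
        hSg n (mem_of_superset hn inter_subset_right)
      filter_upwards [eventually_mem_of_θ hfx h2 (inter_mem hT hSp)] with i hi
      rw [← hP, θ_apply] at hi
      exact hi
    have hlim : Tendsto P v (𝓝 p) := by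
      apply tendsto_of_mem_iff
      intro T hT
      filter_upwards [h1 T hT] with i hi
      exact mem_of_superset hi inter_subset_left
    have hX : ∀ᶠ i in (v : Filter ℕ), InX v (P i) := by
      filter_upwards [h1 S hSp] with i hi
      exact ih i (P i) (hP i) ⟨S, mem_of_superset hi inter_subset_left, hSg⟩
    obtain ⟨hPi, hPd⟩ := disc_lift hP hfi hfd
    obtain ⟨σ, hσ1, hσ2, hσ3⟩ := exists_retract hv hX
    refine InX.lim (P ∘ σ) p (fun n => hσ2 n) (hPi.comp hσ1) ?_ ?_
    · exact DiscreteTopology.of_subset hPd (range_comp_subset_range _ _)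
    · refine hlim.congr' ?_
      filter_upwards [hσ3] with n hn
      simp [hn]

/-- The trace of `u` is not reached. -/
theorem not_inK {v u : βω} {b : ℕ → ℕ} (hv : ¬ Principal v) (hg : ∀ n, ¬ Principal (g n))
    (hgX : ∀ n, InX v (g n)) (hb : ∀ n, {k | b k = n} ∈ g n) (hu : Tendsto g v (𝓝 u))
    (hπ1 : ¬ Principal (v.map π)) (hπ2 : ∀ A ∈ v, ¬ InjOn π A) :
    ¬ InK (Alg π g) v (θ (Alg π g) u) := by
  intro hK
  have hDu : D v g b u := ⟨hu, Eventually.of_forall hb⟩
  have hcases : (∃ n, θ (Alg π g) u = θ (Alg π g) (pure n)) ∨ ∃ f : ℕ → Alg π g → Bool,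
      (∀ n, InK (Alg π g) v (f n)) ∧ Function.Injective f ∧ DiscreteTopology (range f) ∧
      Tendsto f v (𝓝 (θ (Alg π g) u)) := by
    generalize hx : θ (Alg π g) u = x at hK
    cases hK with
    | pure n => exact Or.inl ⟨n, rfl⟩
    | lim f _ h1 h2 h3 h4 => exact Or.inr ⟨f, h1, h2, h3, h4⟩
  rcases hcases with ⟨n, hn⟩ | ⟨f, hf, hfi, hfd, hfx⟩
  · have h1 : ({n} : Set ℕ) ∈ u :=
      (mem_iff_of_θ hn (alg_singleton hg n)).mpr (Ultrafilter.mem_pure.mpr rfl)
    rw [mem_iff_of_tendsto hu] at h1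
    obtain ⟨k, hk⟩ := v.nonempty_of_mem h1
    exact not_singleton_mem (hg k) n hk
  choose P hP using fun n => (hf n).exists_lift
  obtain ⟨hPi, hPd⟩ := disc_lift hP hfi hfd
  obtain ⟨r, hr⟩ := exists_disjoint_sep hPi hPd
  obtain ⟨p', hp'⟩ := exists_limit P v
  have hDP : D v P r p' := ⟨hp', Eventually.of_forall hr⟩
  have hθ : θ (Alg π g) p' = θ (Alg π g) u := by
    have h1 : Tendsto (fun n => θ (Alg π g) (P n)) v (𝓝 (θ (Alg π g) p')) :=
      ((continuous_θ (Alg π g)).tendsto p').comp hp'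
    simp only [hP] at h1
    exact tendsto_nhds_unique h1 hfx
  have hcl : ∀ S ∈ p', ∃ n, {k | b k = n} ∈ g n ∧ S ∈ g n := by
    intro S hS
    by_contra hno
    push Not at hno
    have h1 : ∀ n, S ∉ g n := fun n => hno n (hb n)
    have h2 : S ∈ u := (mem_iff_of_θ hθ (alg_of_notMem h1)).mp hS
    rw [mem_iff_of_tendsto hu] at h2
    obtain ⟨k, hk⟩ := v.nonempty_of_mem h2
    exact h1 k hk
  have hDs := D_of_cl hcl
  -- the images under `π` agree
  have hmem : ∀ (M : Set ℕ) n, (π ∘ b) ⁻¹' M ∈ g n ↔ π n ∈ M := by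
    intro M n
    constructor
    · intro h
      obtain ⟨k, hk1, hk2⟩ := (g n).nonempty_of_mem (inter_mem h (hb n))
      have h3 : b k = n := hk2
      have h4 : π (b k) ∈ M := hk1
      rwa [h3] at h4
    · intro h
      refine mem_of_superset (hb n) ?_
      intro k hk
      have h3 : b k = n := hk
      change π (b k) ∈ M
      rw [h3]; exact h
  have hπb : p'.map (π ∘ b) = v.map π := by
    apply ext_mem
    intro M hM
    rw [Ultrafilter.mem_map] at hM ⊢
    have h1 : (π ∘ b) ⁻¹' M ∈ Alg π g := by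
      intro n n' h
      rw [hmem, hmem, h]
    rw [mem_iff_of_θ hθ h1, mem_iff_of_tendsto hu]
    refine mem_of_superset hM ?_
    intro n hn
    exact (hmem M n).mpr hn
  by_cases hA : ∀ᶠ i in (v : Filter ℕ), ∀ S ∈ P i, ∃ n, {k | b k = n} ∈ g n ∧ S ∈ g n
  · -- Case A
    choose B hB1 hB2 hB3 using exists_sep_alg alg_compl alg_inter alg_univ hP hfi hfd
    let M : ℕ → Set ℕ := fun i => {m | ∃ n, π n = m ∧ B i ∈ g n}
    have hM : ∀ i n, π n ∈ M i ↔ B i ∈ g n := by
      intro i n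
      constructor
      · rintro ⟨n', hn', hB⟩
        exact (hB1 i n' n hn').mp hB
      · intro h
        exact ⟨n, rfl, h⟩
    obtain ⟨σ, hσ1, hσ2, hσ3⟩ := exists_retract hv hA
    have hW : ∀ i j, M i ∈ (P (σ j)).map (π ∘ b) ↔ B i ∈ P (σ j) := by
      intro i j
      have h1 := (D_of_cl (hσ2 j)).1
      rw [mem_iff_of_tendsto h1 (B i), ← Ultrafilter.map_map, Ultrafilter.mem_map]
      have h2 : π ⁻¹' M i = {n | B i ∈ g n} := by
        ext n
        exact hM i n
      rw [h2]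
    obtain ⟨hWi, hWd⟩ := discrete_of_sep (f := fun i => (P (σ i)).map (π ∘ b)) (fun i => M (σ i))
      (fun i => (hW _ _).mpr (hB2 _))
      (fun i j hij h => hB3 _ _ (hσ1.ne hij) ((hW _ _).mp h))
    obtain ⟨R, hR⟩ := exists_disjoint_sep hWi hWd
    have hlim : Tendsto (fun i => (P (σ i)).map (π ∘ b)) v (𝓝 (v.map π)) := by
      apply tendsto_of_mem_iff
      intro S hS
      rw [← hπb, Ultrafilter.mem_map, mem_iff_of_tendsto hp'] at hS
      filter_upwards [hS, hσ3] with n hn1 hn2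
      rw [hn2]
      exact hn1
    have h1 : (v.map π).map R = v := map_of_leRF hlim R hR
    rw [Ultrafilter.map_map] at h1
    refine hπ2 _ (fixed_point v _ h1) ?_
    intro a ha c hc hac
    have h2 : R (π a) = a := ha
    have h3 : R (π c) = c := hc
    rw [← h2, ← h3, hac]
  · -- Case B
    have hA' : ∀ᶠ i in (v : Filter ℕ), ∃ S ∈ P i, ∀ n, S ∉ g n := by
      filter_upwards [Ultrafilter.eventually_not.mpr hA] with i hi
      push Not at hi
      obtain ⟨S, hS, h⟩ := hi
      exact ⟨S, hS, fun n => h n (hb n)⟩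
    have hs : ¬ Principal (p'.map b) := by
      intro h
      apply hπ1
      rw [← hπb, ← Ultrafilter.map_map]
      exact map_principal π h
    rcases compare hDs hDP with ⟨-, h⟩ | ⟨⟨Q, hQ⟩, hdec⟩
    · obtain ⟨i, hi1, S, hS, hS2⟩ := (h.and hA').exists
      rw [mem_iff_of_tendsto hi1.1] at hS
      obtain ⟨n, hn⟩ := ((P i).map b).nonempty_of_mem hS
      exact hS2 n hn
    · refine glue hQ hs ?_
      have h1 : ∀ᶠ n in (p'.map b : Filter ℕ), {i | ∃ S ∈ P i, ∀ n, S ∉ g n} ∈ (g n).map r :=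
        (mem_iff_of_tendsto hQ.1 _).mp hA'
      filter_upwards [h1, hdec] with n hn1 hn2
      refine claimC (hgX n) P _ r ?_ hn2 ?_
      · rintro ⟨i, hi⟩
        rw [hi] at hn1 hn2
        obtain ⟨S, hS, hS2⟩ := Ultrafilter.mem_pure.mp hn1
        have h3 := (mem_iff_of_tendsto hn2.1 S).mpr (Ultrafilter.mem_pure.mpr hS)
        exact hS2 n h3
      · filter_upwards [hn1] with i hi
        exact lift_inX hv hg (hf i) (P i) (hP i) hi

end Alg

end Pool.Agent.N488.CFTree
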