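import Pool.Agent.N488.CFTree2

set_option autoImplicit false

namespace Pool.Agent.N488.CFTree

open Set Topology Filter Pool.Agent.R492.CF Pool.Agent.Results.MP_254ca6_gt.ProperInclusions

/-- Selective (Ramsey) ultrafilters. -/
def Selective (v : βω) : Prop :=
  ¬ Principal v ∧ ∀ f : ℕ → ℕ, ∃ A ∈ v, (∀ a ∈ A, ∀ b ∈ A, f a = f b) ∨ InjOn f A

theorem eq_pure_of_const {v : βω} {f : ℕ → ℕ} {A : Set ℕ} (hA : A ∈ v)
    (h : ∀ a ∈ A, ∀ b ∈ A, f a = f b) : Principal (v.map f) := by
  obtain ⟨a, ha⟩ := v.nonempty_of_mem hA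
  refine ⟨f a, ?_⟩
  apply eq_pure_of_singleton
  rw [Ultrafilter.mem_map]
  exact mem_of_superset hA fun b hb => h b hb a ha

theorem const_of_principal {v : βω} {f : ℕ → ℕ} (h : Principal (v.map f)) :
    ∃ A ∈ v, ∀ a ∈ A, ∀ b ∈ A, f a = f b := by
  obtain ⟨n, hn⟩ := h
  refine ⟨f ⁻¹' {n}, ?_, ?_⟩
  · rw [← Ultrafilter.mem_map, hn, Ultrafilter.mem_pure]
    rfl
  · intro a ha b hb
    exact (show f a = n from ha).trans (show f b = n from hb).symm

/-- In a non-selective nonprincipal ultrafilter the negative case. -/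
theorem perm_of_leCF {u v : βω} (hv : ¬ Principal v) (hns : ¬ Selective v) (hu : ¬ Principal u)
    (h : LeCF u v) : ∃ e : Equiv.Perm ℕ, v.map e = u := by
  obtain ⟨π, hπ⟩ : ∃ π : ℕ → ℕ, ∀ A ∈ v, ¬ ((∀ a ∈ A, ∀ b ∈ A, π a = π b) ∨ InjOn π A) := by
    by_contra hno
    push Not at hno
    exact hns ⟨hv, fun f => by
      obtain ⟨A, hA, h⟩ := hno f
      exact ⟨A, hA, h⟩⟩
  rcases inX_cases (inX_of_leCF h) with h1 | ⟨g0, hg0X, hg0i, hg0d, hg0u⟩
  · exact absurd h1 hu
  obtain ⟨b0, hb0⟩ := exists_disjoint_sep hg0i hg0d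
  by_cases hpr : ∀ᶠ n in (v : Filter ℕ), Principal (g0 n)
  · -- the isomorphic case
    obtain ⟨a, ha1, ha2⟩ := map_of_principal hg0u hpr
    obtain ⟨e, he⟩ := exists_perm v hv a _ ha2 (by
      intro m hm n hn hmn
      have h1 := hb0 m
      have h2 := hb0 n
      rw [show g0 m = pure (a m) from hm] at h1
      rw [show g0 n = pure (a n) from hn] at h2
      have h3 : b0 (a m) = m := Ultrafilter.mem_pure.mp h1
      have h4 : b0 (a n) = n := Ultrafilter.mem_pure.mp h2
      rw [← h3, ← h4, hmn])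
    exact ⟨e, he.trans ha1⟩
  exfalso
  have hnp : ∀ᶠ n in (v : Filter ℕ), ¬ Principal (g0 n) := Ultrafilter.eventually_not.mpr hpr
  obtain ⟨σ, hσ1, hσ2, hσ3⟩ := exists_retract hv hnp
  let g : ℕ → βω := g0 ∘ σ
  have hgi : Function.Injective g := hg0i.comp hσ1
  have hgd : DiscreteTopology (range g) :=
    DiscreteTopology.of_subset hg0d (range_comp_subset_range _ _)
  obtain ⟨b, hb⟩ := exists_disjoint_sep hgi hgd
  have hgu : Tendsto g v (𝓝 u) := by
    refine hg0u.congr' ?_
    filter_upwards [hσ3] with n hn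
    simp [g, hn]
  have hg : ∀ n, ¬ Principal (g n) := fun n => hσ2 n
  have hgX : ∀ n, InX v (g n) := fun n => hg0X _
  apply not_inK (π := π) (b := b) (u := u) hv hg hgX hb hgu
  · intro h1
    obtain ⟨A, hA, h2⟩ := const_of_principal h1
    exact hπ A hA (Or.inl h2)
  · intro A hA h2
    exact hπ A hA (Or.inr h2)
  · -- apply the preorder to the space `X_K`
    have hsing : ∀ i, ∃ U : Set {x : Alg π g → Bool // InK (Alg π g) v x}, IsOpen U ∧
        (⟨θ (Alg π g) (pure i), InK.pure i⟩ : {x : Alg π g → Bool // InK (Alg π g) v x}) ∈ U ∧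
        ∀ j, j ≠ i →
        (⟨θ (Alg π g) (pure j), InK.pure j⟩ : {x : Alg π g → Bool // InK (Alg π g) v x}) ∉ U := by
      intro i
      refine ⟨{x | x.1 ⟨{i}, alg_singleton hg i⟩ = true}, ?_, ?_, ?_⟩
      · have h1 : Continuous fun x : {x : Alg π g → Bool // InK (Alg π g) v x} =>
            x.1 ⟨{i}, alg_singleton hg i⟩ := (continuous_apply _).comp continuous_subtype_val
        exact (isOpen_discrete {true}).preimage h1
      · exact (θ_apply _ _ _).mpr (Ultrafilter.mem_pure.mpr rfl)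
      · intro j hj h
        exact hj (Ultrafilter.mem_pure.mp ((θ_apply _ _ _).mp h))
    obtain ⟨h1, h2⟩ := disc_of_open
      (fun n => (⟨θ (Alg π g) (pure n), InK.pure n⟩ : {x : Alg π g → Bool // InK (Alg π g) v x}))
      hsing
    obtain ⟨y, hy⟩ := h _ inferInstance (inK_discretely_compact v) _ h1 h2
    have h3 : Tendsto (fun n : ℕ => θ (Alg π g) (pure n)) u (𝓝 y.1) :=
      (continuous_subtype_val.tendsto _).comp hy
    have h4 : Tendsto (fun n : ℕ => θ (Alg π g) (pure n)) u (𝓝 (θ (Alg π g) u)) :=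
      ((continuous_θ _).tendsto u).comp (Ultrafilter.tendsto_pure_self u)
    rw [tendsto_nhds_unique h4 h3]
    exact y.2

/-! ### Selective ultrafilters -/

/-- The diagonal property of selective ultrafilters. -/
theorem Selective.diag {v : βω} (h : Selective v) (C : ℕ → Set ℕ) (hC : ∀ n, C n ∈ v) :
    ∃ B ∈ v, ∀ n ∈ B, ∀ m ∈ B, n < m → m ∈ C n := by
  classical
  obtain ⟨hv, hsel⟩ := h
  -- decreasing version
  let C' : ℕ → Set ℕ := fun n => {m | n < m ∧ ∀ k ≤ n, m ∈ C k}
  have hC' : ∀ n, C' n ∈ v := by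
    intro n
    have h1 : (⋂ k ∈ Finset.range (n + 1), C k) ∈ v := by
      rw [← Ultrafilter.mem_coe, Filter.biInter_finset_mem]
      intro k _
      exact hC k
    have h2 : {m | n < m} ∈ v := by
      by_contra h2
      have h3 := compl_mem.mpr h2
      refine infinite_of_mem hv h3 ((finite_le_nat n).subset ?_)
      intro m hm
      have h4 : ¬ n < m := hm
      exact not_lt.mp h4
    refine mem_of_superset (inter_mem h1 h2) ?_
    rintro m ⟨hm1, hm2⟩
    exact ⟨hm2, fun k hk => mem_iInter₂.mp hm1 k (Finset.mem_range.mpr (by omega))⟩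
  have hex : ∀ m, ∃ n, m ∉ C' n := fun m => ⟨m, fun h => lt_irrefl _ h.1⟩
  let f : ℕ → ℕ := fun m => Nat.find (hex m)
  have hf : ∀ m, m ∉ C' (f m) := fun m => Nat.find_spec (hex m)
  have hf2 : ∀ m n, n < f m → m ∈ C' n := by
    intro m n hn
    by_contra h
    exact Nat.find_min (hex m) hn h
  obtain ⟨A, hA, hA2⟩ := hsel f
  have hinj : InjOn f A := by
    rcases hA2 with h1 | h1
    · exfalso
      obtain ⟨a, ha⟩ := v.nonempty_of_mem hA
      obtain ⟨b, hb1, hb2⟩ := v.nonempty_of_mem (inter_mem hA (hC' (f a)))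
      apply hf b
      rw [h1 b hb1 a ha]; exact hb2
    · exact h1
  -- `A` is a pseudointersection
  have hfin : ∀ n, ∃ N, ∀ m ∈ A, N ≤ m → m ∈ C' n := by
    intro n
    have h1 : (A ∩ f ⁻¹' (Set.Iic n)).Finite := by
      refine Set.Finite.of_finite_image ((Set.finite_Iic n).subset ?_) (hinj.mono inter_subset_left)
      rintro _ ⟨m, hm, rfl⟩
      exact hm.2
    obtain ⟨N, hN⟩ := h1.bddAbove
    refine ⟨N + 1, fun m hm hNm => ?_⟩
    apply hf2
    by_contra hno
    have := hN (show m ∈ A ∩ f ⁻¹' (Set.Iic n) from ⟨hm, not_lt.mp hno⟩)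
    omega
  choose φ hφ using hfin
  -- interval partition
  let a : ℕ → ℕ := fun k => Nat.rec 0 (fun _ x => max (x + 1) (φ x)) k
  have ha0 : a 0 = 0 := rfl
  have ha1 : ∀ k, a (k + 1) = max (a k + 1) (φ (a k)) := fun k => rfl
  have hamono : StrictMono a := strictMono_nat_of_lt_succ fun k => by
    rw [ha1]; exact lt_of_lt_of_le (Nat.lt_succ_self _) (le_max_left _ _)
  have hex2 : ∀ m, ∃ k, m < a (k + 1) := fun m =>
    ⟨m, lt_of_lt_of_le (Nat.lt_succ_self m) (hamono.id_le _)⟩
  let ι : ℕ → ℕ := fun m => Nat.find (hex2 m)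
  have hι1 : ∀ m, m < a (ι m + 1) := fun m => Nat.find_spec (hex2 m)
  have hι2 : ∀ m, a (ι m) ≤ m := by
    intro m
    refine not_lt.mp fun h => ?_
    have h0 : ι m ≠ 0 := by
      intro h0
      rw [h0, ha0] at h
      omega
    obtain ⟨j, hj⟩ := Nat.exists_eq_succ_of_ne_zero h0
    rw [hj] at h
    have h2 : j < ι m := by omega
    exact Nat.find_min (hex2 m) h2 h
  obtain ⟨A2, hA21, hA22⟩ := hsel ι
  have hinj2 : InjOn ι A2 := by
    rcases hA22 with h1 | h1
    · exfalso
      obtain ⟨x, hx⟩ := v.nonempty_of_mem hA21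
      refine infinite_of_mem hv hA21 ((finite_lt_nat (a (ι x + 1))).subset ?_)
      intro m hm
      have := hι1 m
      rw [h1 m hm x hx] at this
      exact this
    · exact h1
  obtain ⟨c, hc⟩ : ∃ c : ℕ, {m | ι m % 2 = c} ∈ v := by
    by_cases h0 : {m | ι m % 2 = 0} ∈ v
    · exact ⟨0, h0⟩
    · refine ⟨1, mem_of_superset (compl_mem.mpr h0) ?_⟩
      intro m hm
      have h1 : ¬ ι m % 2 = 0 := hm
      change ι m % 2 = 1
      omega
  refine ⟨A ∩ A2 ∩ {m | ι m % 2 = c}, inter_mem (inter_mem hA hA21) hc, ?_⟩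
  rintro n ⟨⟨hn1, hn2⟩, hn3⟩ m ⟨⟨hm1, hm2⟩, hm3⟩ hnm
  have hn3' : ι n % 2 = c := hn3
  have hm3' : ι m % 2 = c := hm3
  have h1 : ι n < ι m := by
    rcases lt_trichotomy (ι n) (ι m) with h | h | h
    · exact h
    · exact absurd (hinj2 hn2 hm2 h) hnm.ne
    · exfalso
      have h2 : a (ι m + 1) ≤ a (ι n) := hamono.monotone h
      have h3 := hι1 m
      have h4 := hι2 n
      omega
  have h2 : ι n + 2 ≤ ι m := by omega
  have h3 : a (ι n + 2) ≤ m := (hamono.monotone h2).trans (hι2 m)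
  have h4 : φ (a (ι n + 1)) ≤ m := by
    refine le_trans ?_ h3
    rw [show ι n + 2 = (ι n + 1) + 1 from rfl, ha1]
    exact le_max_right _ _
  have h5 := hφ (a (ι n + 1)) m hm1 h4
  exact h5.2 n (hι1 n).le

/-- For selective `v`, discrete `v`-compactness implies `v`-compactness. -/
theorem Selective.compact {v : βω} (h : Selective v) (X : Type) [TopologicalSpace X]
    (hX : T35Space X) (hd : DiscretelyUCompact v X) : UCompact v X := by
  classical
  intro x
  by_contra hno
  push Not at hno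
  obtain ⟨A, hA, hA2⟩ := h.2 (fun n => sInf {m | x m = x n})
  have hidx : ∀ n, x (sInf {m | x m = x n}) = x n := fun n =>
    Nat.sInf_mem (s := {m | x m = x n}) ⟨n, rfl⟩
  have hinj : InjOn x A := by
    rcases hA2 with h1 | h1
    · exfalso
      obtain ⟨a, ha⟩ := v.nonempty_of_mem hA
      apply hno (x a)
      refine tendsto_const_nhds.congr' ?_
      filter_upwards [hA] with b hb
      have h2 := h1 a ha b hb
      rw [← hidx a, h2, hidx b]
    · intro a ha b hb hab
      apply h1 ha hb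
      simp only [hab]
  have hU : ∀ n, ∃ U : Set X, IsOpen U ∧ x n ∈ U ∧ {m | x m ∉ U} ∈ v := by
    intro n
    have h1 := hno (x n)
    rw [tendsto_nhds] at h1
    push Not at h1
    obtain ⟨U, hU, hxU, hUv⟩ := h1
    exact ⟨U, hU, hxU, compl_mem.mpr hUv⟩
  choose U hU1 hU2 hU3 using hU
  obtain ⟨B, hB, hB2⟩ := h.diag (fun n => {m | x m ∉ U n}) hU3
  have hAB : A ∩ B ∈ v := inter_mem hA hB
  obtain ⟨y, hy⟩ := lim_of_partial h.1 hd hAB x (by
    rintro i ⟨hiA, hiB⟩
    refine ⟨U i \ (x '' {j | j < i ∧ j ∈ A}), (hU1 i).sdiff ?_, ⟨hU2 i, ?_⟩, ?_⟩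
    · exact (((finite_lt_nat i).subset fun j hj => hj.1).image x).isClosed
    · rintro ⟨j, ⟨hj1, hj2⟩, hj3⟩
      exact hj1.ne (hinj hj2 hiA hj3)
    · rintro j ⟨hjA, hjB⟩ hji ⟨h1, h2⟩
      rcases lt_or_gt_of_ne hji with h3 | h3
      · exact h2 ⟨j, ⟨h3, hjA⟩, rfl⟩
      · exact hB2 i hiB j hjB h3 h1)
  exact hno y hy

theorem leCF_of_selective {u v : βω} (hv : Selective v) (h : LeC u v) : LeCF u v :=
  fun X _ hX hd f _ _ => h X hX (hv.compact X hX hd) f

theorem LeCF.trans {u v w : βω} (h1 : LeCF u v) (h2 : LeCF v w) : LeCF u w :=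
  fun X _ hX hd => h1 X hX (h2 X hX hd)

theorem inX_principal {v u : βω} (hv : Principal v) (h : InX v u) : Principal u := by
  obtain ⟨n, rfl⟩ := hv
  induction h with
  | pure n => exact ⟨n, rfl⟩
  | lim f w _ _ _ hw ih =>
    have h1 : Tendsto f (pure n : βω) (𝓝 (f n)) := tendsto_pure_nhds f n
    rw [limit_unique hw h1]
    exact ih n

/-- The description of the Comfort–Frolik preorder. -/
theorem leCF_iff (u v : βω) :
    LeCF u v ↔ Principal u ∨ (∃ e : Equiv.Perm ℕ, v.map e = u) ∨ (Selective v ∧ LeC u v) := by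
  constructor
  · intro h
    by_cases hu : Principal u
    · exact Or.inl hu
    by_cases hs : Selective v
    · exact Or.inr (Or.inr ⟨hs, leC_of_leCF h⟩)
    by_cases hv : Principal v
    · exact absurd (inX_principal hv (inX_of_leCF h)) hu
    · exact Or.inr (Or.inl (perm_of_leCF hv hs hu h))
  · rintro (⟨n, rfl⟩ | ⟨e, rfl⟩ | ⟨hs, h⟩)
    · exact leCF_pure n v
    · have h1 := leCF_perm (v.map e) e.symm
      have h2 : (v.map e).map e.symm = v := by
        rw [Ultrafilter.map_map]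
        have : (e.symm ∘ e : ℕ → ℕ) = id := by funext n; simp
        rw [this]; exact Ultrafilter.map_id v
      rwa [h2] at h1
    · exact leCF_of_selective hs h

/-! ### The tree property -/

/-- A preorder `R` on `βω` is tree-like if the set of predecessors of each point is linearly
preordered. -/
def TreeLike (R : βω → βω → Prop) : Prop :=
  ∀ v u w, R u v → R w v → (R u w ∨ R w u)

theorem LeCF.symm_of_perm {u v : βω} (h : ∃ e : Equiv.Perm ℕ, v.map e = u) : LeCF v u := by
  obtain ⟨e, rfl⟩ := h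
  exact leCF_perm v e

theorem treeLike_of_no_selective (h : ¬ ∃ v, Selective v) : TreeLike LeCF := by
  intro v u w hu hw
  rcases (leCF_iff u v).mp hu with h1 | h1 | h1
  · exact Or.inl ((leCF_iff u w).mpr (Or.inl h1))
  · exact Or.inr (LeCF.trans hw (LeCF.symm_of_perm h1))
  · exact absurd ⟨v, h1.1⟩ h

/-- `v ⊗ u` -/
theorem exists_tensor {v : βω} (u : βω) (hu : InX v u) :
    ∃ w, InX v w ∧ D v (fun n => u.map (Nat.pair n)) (fun k => (Nat.unpair k).1) w := by
  have hmap : ∀ (e : ℕ → ℕ), Function.Injective e → ∀ u, InX v u → InX v (u.map e) := by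
    intro e he u hu
    induction hu with
    | pure n => rw [Ultrafilter.map_pure]; exact InX.pure _
    | lim f w _ hfi hfd hfw ih =>
      obtain ⟨B, hB1, hB2⟩ := exists_sep hfi hfd
      obtain ⟨h1, h2⟩ := discrete_of_sep (f := fun n => (f n).map e) (fun i => e '' B i)
        (fun i => by
          rw [Ultrafilter.mem_map, preimage_image_eq _ he]
          exact hB1 i)
        (fun i j hij h => by
          rw [Ultrafilter.mem_map, preimage_image_eq _ he] at h
          exact hB2 i j hij h)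
      refine InX.lim _ _ ih h1 h2 ?_
      apply tendsto_of_mem_iff
      intro S hS
      rw [Ultrafilter.mem_map, mem_iff_of_tendsto hfw] at hS
      exact hS
  have hsep : ∀ n, {k | (Nat.unpair k).1 = n} ∈ u.map (Nat.pair n) := by
    intro n
    rw [Ultrafilter.mem_map]
    have : Nat.pair n ⁻¹' {k | (Nat.unpair k).1 = n} = univ := by
      ext m; simp
    rw [this]
    exact univ_mem
  obtain ⟨w, hw⟩ := exists_limit (fun n => u.map (Nat.pair n)) v
  obtain ⟨h1, h2⟩ := discrete_of_sep (f := fun n => u.map (Nat.pair n))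
    (fun i => {k | (Nat.unpair k).1 = i}) hsep (by
      intro i j hij h
      obtain ⟨k, hk1, hk2⟩ := (u.map (Nat.pair j)).nonempty_of_mem (inter_mem h (hsep j))
      exact hij ((show (Nat.unpair k).1 = j from hk2).symm.trans
        (show (Nat.unpair k).1 = i from hk1)))
  refine ⟨w, InX.lim _ _ (fun n => hmap _ ?_ _ hu) h1 h2 hw, hw, Eventually.of_forall hsep⟩
  intro a b hab
  exact (Nat.pair_eq_pair.mp hab).2

theorem leC_of_inX {u v : βω} (h : InX v u) : LeC u v :=
  fun X _ hX hv f => limit_of_inX h X hX hv f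

theorem mem_tensor {v u w : βω}
    (h : D v (fun n => u.map (Nat.pair n)) (fun k => (Nat.unpair k).1) w) (S : Set ℕ) :
    S ∈ w ↔ ∀ᶠ n in (v : Filter ℕ), ∀ᶠ m in (u : Filter ℕ), Nat.pair n m ∈ S :=
  mem_iff_of_tendsto h.1 S

theorem tensor_snd {v u w : βω}
    (h : D v (fun n => u.map (Nat.pair n)) (fun k => (Nat.unpair k).1) w) :
    w.map (fun k => (Nat.unpair k).2) = u := by
  apply ext_mem
  intro S hS
  rw [Ultrafilter.mem_map, mem_tensor h]
  refine Eventually.of_forall fun n => ?_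
  filter_upwards [hS] with m hm
  simpa using hm

theorem tensor_not_selective {v u w : βω} (hv : ¬ Principal v) (hu : ¬ Principal u)
    (h : D v (fun n => u.map (Nat.pair n)) (fun k => (Nat.unpair k).1) w) : ¬ Selective w := by
  rintro ⟨-, hs⟩
  obtain ⟨A, hA, hA2⟩ := hs (fun k => (Nat.unpair k).1)
  rcases hA2 with h1 | h1
  · apply hv
    rw [← h.map_eq]
    exact eq_pure_of_const hA h1
  · rw [mem_tensor h] at hA
    obtain ⟨n, hn⟩ := hA.exists
    obtain ⟨m, hm, m', hm', hne⟩ := (infinite_of_mem hu hn).nontrivial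
    have h2 := h1 hm hm' (by simp)
    exact hne (Nat.pair_eq_pair.mp h2).2

theorem tensor_snd_not_inj {v u w : βω} (hv : ¬ Principal v)
    (h : D v (fun n => u.map (Nat.pair n)) (fun k => (Nat.unpair k).1) w) {A : Set ℕ}
    (hA : A ∈ w) : ¬ InjOn (fun k => (Nat.unpair k).2) A := by
  intro hi
  rw [mem_tensor h] at hA
  obtain ⟨n, hn, n', hn', hne⟩ := (infinite_of_mem hv hA).nontrivial
  obtain ⟨m, hm1, hm2⟩ := (hn.and hn').exists
  have h2 := hi hm1 hm2 (by simp)
  exact hne (Nat.pair_eq_pair.mp h2).1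

theorem no_selective_of_treeLike (h : TreeLike LeCF) : ¬ ∃ v, Selective v := by
  rintro ⟨v, hv⟩
  have hvX : InX v v := InX.lim _ _ InX.pure pure_discrete.1 pure_discrete.2
    (Ultrafilter.tendsto_pure_self v)
  obtain ⟨w2, hw2X, hw2⟩ := exists_tensor v hvX
  obtain ⟨w3, hw3X, hw3⟩ := exists_tensor w2 hw2X
  have hp2 : ¬ Principal w2 := fun hp => hv.1 (hw2.map_eq ▸ map_principal _ hp)
  have hp3 : ¬ Principal w3 := fun hp => hv.1 (hw3.map_eq ▸ map_principal _ hp)
  have hs2 := tensor_not_selective hv.1 hv.1 hw2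
  have hs3 := tensor_not_selective hv.1 hp2 hw3
  -- the two are not isomorphic
  have hiso : ∀ e : Equiv.Perm ℕ, w2.map e ≠ w3 := by
    intro e he
    have h1 : w2.map ((fun k => (Nat.unpair k).2) ∘ e) = w2 := by
      rw [← Ultrafilter.map_map, he]
      exact tensor_snd hw3
    have h2 := fixed_point w2 _ h1
    refine tensor_snd_not_inj hv.1 hw3 (A := e '' {n | ((fun k => (Nat.unpair k).2) ∘ e) n = n})
      ?_ ?_
    · rw [← he, Ultrafilter.mem_map, preimage_image_eq _ e.injective]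
      exact h2
    · rintro _ ⟨a, ha, rfl⟩ _ ⟨b, hb, rfl⟩ hab
      have h3 : (Nat.unpair (e a)).2 = a := ha
      have h4 : (Nat.unpair (e b)).2 = b := hb
      have h5 : (Nat.unpair (e a)).2 = (Nat.unpair (e b)).2 := hab
      rw [h3, h4] at h5
      rw [h5]
  rcases h v w2 w3 (leCF_of_selective hv (leC_of_inX hw2X)) (leCF_of_selective hv (leC_of_inX hw3X))
    with h1 | h1
  · rcases (leCF_iff w2 w3).mp h1 with h2 | ⟨e, he⟩ | h2
    · exact hp2 h2
    · apply hiso e.symm
      rw [← he, Ultrafilter.map_map]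
      have : (e.symm ∘ e : ℕ → ℕ) = id := by funext n; simp
      rw [this]; exact Ultrafilter.map_id w3
    · exact hs3 h2.1
  · rcases (leCF_iff w3 w2).mp h1 with h2 | ⟨e, he⟩ | h2
    · exact hp3 h2
    · exact hiso e he
    · exact hs2 h2.1

theorem treeLike_iff : TreeLike LeCF ↔ ¬ ∃ v, Selective v :=
  ⟨no_selective_of_treeLike, treeLike_of_no_selective⟩

end Pool.Agent.N488.CFTree
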