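import Mathlib

/-!
# Complete Erdős space has no small closed copies of itself

`ES` is the set of the points of `ℓ²` all of whose coordinates are in `{0} ∪ {1/k}`.
* `no_bounded_clopen`: `ES` has no nonempty bounded clopen subset (Erdős).
* `exists_zeroDim_point`: every nonempty bounded closed subset `A` of `ES` has a point with
  arbitrarily small relatively clopen neighbourhoods in `A`.
* `no_small`: there is no closed embedding of `ES` into itself with bounded range.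
-/

set_option autoImplicit false

open Set Filter Topology

namespace Pool.Agent.N488.Erd

/-- the Hilbert space `ℓ²` -/
abbrev L2 := lp (fun _ : ℕ => ℝ) 2

/-- complete Erdős space -/
def ES : Set L2 := {x : lp (fun _ : ℕ => ℝ) 2 | ∀ i : ℕ, (x : ℕ → ℝ) i = 0 ∨
  ∃ k : ℕ, 0 < k ∧ (x : ℕ → ℝ) i = 1 / (k : ℝ)}

/-- the set of values of the coordinates -/
def S : Set ℝ := {t | t = 0 ∨ ∃ k : ℕ, 0 < k ∧ t = 1 / (k : ℝ)}

lemma isClosed_S : IsClosed S := by
  have h1 : Tendsto (fun k : ℕ => 1 / ((k : ℝ) + 1)) atTop (𝓝 0) :=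
    tendsto_one_div_add_atTop_nhds_zero_nat
  have h2 := h1.isCompact_insert_range
  have h3 : insert (0 : ℝ) (range fun k : ℕ => 1 / ((k : ℝ) + 1)) = S := by
    ext t
    simp only [mem_insert_iff, mem_range, S, mem_ofPred_eq]
    constructor
    · rintro (h | ⟨k, rfl⟩)
      · exact Or.inl h
      · exact Or.inr ⟨k + 1, Nat.succ_pos k, by push_cast; rfl⟩
    · rintro (h | ⟨k, hk, rfl⟩)
      · exact Or.inl h
      · refine Or.inr ⟨k - 1, ?_⟩
        have h4 : ((k - 1 : ℕ) : ℝ) + 1 = k := by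
          rw [Nat.cast_sub hk]
          push_cast
          ring
        rw [h4]
  rw [← h3]
  exact h2.isClosed

lemma S_nonneg {t : ℝ} (h : t ∈ S) : 0 ≤ t := by
  rcases h with h | ⟨k, -, rfl⟩
  · exact h.ge
  · positivity

lemma S_max {s t : ℝ} (hs : s ∈ S) (ht : t ∈ S) : max s t ∈ S := by
  rcases max_choice s t with h | h <;> rw [h] <;> assumption

lemma S_rat {t : ℝ} (h : t ∈ S) : ∃ q : ℚ, t = q := by
  rcases h with h | ⟨k, -, rfl⟩
  · exact ⟨0, by simp [h]⟩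
  · exact ⟨1 / k, by push_cast; rfl⟩

lemma mem_ES {x : L2} : x ∈ ES ↔ ∀ i, (x : ℕ → ℝ) i ∈ S := Iff.rfl

lemma continuous_coord (i : ℕ) : Continuous fun x : L2 => (x : ℕ → ℝ) i :=
  (continuous_apply i).comp (lp.uniformContinuous_coe (p := 2)).continuous

lemma isClosed_ES : IsClosed ES := by
  have h1 : ES = ⋂ i : ℕ, {x : L2 | (x : ℕ → ℝ) i ∈ S} := by
    ext x
    simp [mem_ES]
  rw [h1]
  exact isClosed_iInter fun i => isClosed_S.preimage (continuous_coord i)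

/-- raise the coordinates `0, …, m-1` of `x` to at least `1/k` -/
noncomputable def raise (x : L2) (c : ℝ) : ℕ → L2
  | 0 => x
  | m + 1 => raise x c m + lp.single 2 m (max ((x : ℕ → ℝ) m) c - (x : ℕ → ℝ) m)

lemma raise_apply (x : L2) (c : ℝ) (m i : ℕ) :
    (raise x c m : ℕ → ℝ) i = if i < m then max ((x : ℕ → ℝ) i) c else (x : ℕ → ℝ) i := by
  induction m with
  | zero => simp [raise]
  | succ m ih =>
    rw [raise, lp.coeFn_add, Pi.add_apply, ih, lp.coeFn_single]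
    by_cases h : i = m
    · subst h
      simp
    · rw [Pi.single_eq_of_ne h]
      have h1 : i < m ↔ i < m + 1 := by omega
      simp only [h1, add_zero]

lemma raise_mem {x : L2} (hx : x ∈ ES) {c : ℝ} (hc : c ∈ S) (m : ℕ) : raise x c m ∈ ES := by
  intro i
  have h : (raise x c m : ℕ → ℝ) i ∈ S := by
    rw [raise_apply]
    split_ifs
    · exact S_max (hx i) hc
    · exact hx i
  exact h

lemma raise_norm (x : L2) {c : ℝ} (hc : 0 ≤ c) (m : ℕ) : m * c ^ 2 ≤ ‖raise x c m‖ ^ 2 := by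
  have h1 := lp.sum_rpow_le_norm_rpow (p := 2) (by norm_num) (raise x c m) (Finset.range m)
  have h2 : (2 : ENNReal).toReal = ((2 : ℕ) : ℝ) := by norm_num
  rw [h2] at h1
  simp only [Real.rpow_natCast] at h1
  refine le_trans ?_ h1
  have h3 : ∀ i ∈ Finset.range m, c ^ 2 ≤ ‖(raise x c m : ℕ → ℝ) i‖ ^ 2 := by
    intro i hi
    rw [raise_apply, if_pos (Finset.mem_range.1 hi), Real.norm_eq_abs, sq_abs]
    exact pow_le_pow_left₀ hc (le_max_right _ _) 2
  calc (m : ℝ) * c ^ 2 = ∑ i ∈ Finset.range m, c ^ 2 := by simp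
    _ ≤ _ := Finset.sum_le_sum h3

/-- one step of Erdős' construction -/
lemma step {U : Set ES} {R : ℝ} (hR : ∀ x ∈ U, ‖(x : L2)‖ ≤ R) {x : ES} (hx : x ∈ U) {k : ℕ}
    (hk : 0 < k) : ∃ x' ∈ U, ∃ z ∉ U, (∀ i, ((x : L2) : ℕ → ℝ) i ≤ ((x' : L2) : ℕ → ℝ) i) ∧
      dist x' z ≤ 1 / k := by
  classical
  have hc : (1 / (k : ℝ)) ∈ S := Or.inr ⟨k, hk, rfl⟩
  have hc0 : 0 < 1 / (k : ℝ) := by positivity
  let y : ℕ → ES := fun m => ⟨raise x (1 / k) m, raise_mem x.2 hc m⟩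
  have hex : ∃ m, y m ∉ U := by
    obtain ⟨m, hm⟩ := exists_nat_gt (R ^ 2 / (1 / (k : ℝ)) ^ 2)
    refine ⟨m, fun h => ?_⟩
    have h1 := hR _ h
    have h2 : ‖raise (x : L2) (1 / k) m‖ ^ 2 ≤ R ^ 2 :=
      pow_le_pow_left₀ (norm_nonneg _) h1 2
    have h3 := raise_norm (x : L2) hc0.le m
    rw [div_lt_iff₀ (by positivity)] at hm
    linarith
  have h0 : Nat.find hex ≠ 0 := by
    intro h
    have h1 := Nat.find_spec hex
    rw [h] at h1
    exact h1 hx
  obtain ⟨m, hm⟩ := Nat.exists_eq_succ_of_ne_zero h0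
  refine ⟨y m, ?_, y (m + 1), ?_, ?_, ?_⟩
  · by_contra h
    have := Nat.find_min' hex h
    omega
  · have h1 := Nat.find_spec hex
    rw [hm] at h1
    exact h1
  · intro i
    show ((x : L2) : ℕ → ℝ) i ≤ (raise (x : L2) (1 / k) m : ℕ → ℝ) i
    rw [raise_apply]
    split_ifs
    · exact le_max_left _ _
    · exact le_rfl
  · rw [Subtype.dist_eq, dist_comm, dist_eq_norm]
    show ‖raise (x : L2) (1 / k) (m + 1) - raise (x : L2) (1 / k) m‖ ≤ 1 / k
    rw [raise, add_sub_cancel_left, lp.norm_single (by norm_num), Real.norm_eq_abs, abs_le]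
    have h1 : 0 ≤ ((x : L2) : ℕ → ℝ) m := S_nonneg (x.2 m)
    constructor
    · have := le_max_left (((x : L2) : ℕ → ℝ) m) (1 / k)
      linarith
    · rcases max_choice (((x : L2) : ℕ → ℝ) m) (1 / k) with h | h <;> rw [h] <;> linarith

lemma norm_sub_sq_le {a b : L2} (ha : ∀ i, 0 ≤ (a : ℕ → ℝ) i)
    (hab : ∀ i, (a : ℕ → ℝ) i ≤ (b : ℕ → ℝ) i) : ‖b - a‖ ^ 2 ≤ ‖b‖ ^ 2 - ‖a‖ ^ 2 := by
  have h1 : ‖a‖ ^ 2 ≤ inner ℝ a b := by
    rw [← real_inner_self_eq_norm_sq, lp.inner_eq_tsum, lp.inner_eq_tsum]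
    refine Summable.tsum_le_tsum (fun i => ?_) (lp.summable_inner a a) (lp.summable_inner a b)
    simp only [RCLike.inner_apply, conj_trivial]
    exact mul_le_mul_of_nonneg_right (hab i) (ha i)
  have h2 := norm_sub_sq_real b a
  rw [real_inner_comm] at h2
  linarith

/-- **Erdős**: no nonempty clopen subset of `ES` is bounded. -/
theorem no_bounded_clopen {U : Set ES} (hU : IsClopen U) (hne : U.Nonempty) {R : ℝ}
    (hR : ∀ x ∈ U, ‖(x : L2)‖ ≤ R) : False := by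
  obtain ⟨x₀, hx₀⟩ := hne
  choose! f hf g hg hle hdist using
    fun (k : ℕ) (x : ES) (hx : x ∈ U) => step hR hx (Nat.succ_pos k)
  obtain ⟨u, hu0, hus⟩ : ∃ u : ℕ → ES, u 0 = x₀ ∧ ∀ k, u (k + 1) = f k (u k) :=
    ⟨fun k => Nat.rec x₀ (fun k x => f k x) k, rfl, fun k => rfl⟩
  have huU : ∀ k, u k ∈ U := by
    intro k
    induction k with
    | zero => rw [hu0]; exact hx₀
    | succ k ih => rw [hus]; exact hf k _ ih
  have hmono : ∀ i : ℕ, Monotone (fun k : ℕ => ((u k).1 : ℕ → ℝ) i) := by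
    intro i
    refine monotone_nat_of_le_succ fun k => ?_
    rw [hus]
    exact hle k _ (huU k) i
  have hnn : ∀ (k i : ℕ), 0 ≤ ((u k).1 : ℕ → ℝ) i := fun k i => S_nonneg ((u k).2 i)
  have hsub : ∀ k l, k ≤ l → ‖(u l : L2) - (u k : L2)‖ ^ 2 ≤ ‖(u l : L2)‖ ^ 2 - ‖(u k : L2)‖ ^ 2 :=
    fun k l hkl => norm_sub_sq_le (a := (u k : L2)) (b := (u l : L2)) (hnn k)
      fun i => hmono i hkl
  have hvmono : Monotone fun k : ℕ => ‖(u k : L2)‖ ^ 2 := by
    intro k l hkl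
    have := hsub k l hkl
    have h2 := sq_nonneg ‖(u l : L2) - (u k : L2)‖
    show ‖(u k : L2)‖ ^ 2 ≤ ‖(u l : L2)‖ ^ 2
    linarith
  have hbdd : BddAbove (range fun k => ‖(u k : L2)‖ ^ 2) := by
    refine ⟨R ^ 2, ?_⟩
    rintro _ ⟨k, rfl⟩
    exact pow_le_pow_left₀ (norm_nonneg _) (hR _ (huU k)) 2
  have hconv := tendsto_atTop_ciSup hvmono hbdd
  set L := ⨆ k, ‖(u k : L2)‖ ^ 2
  have hcau : CauchySeq fun k => (u k : L2) := by
    rw [Metric.cauchySeq_iff']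
    intro ε hε
    have h1 : ∀ᶠ k in atTop, L - ε ^ 2 < ‖(u k : L2)‖ ^ 2 :=
      hconv.eventually (lt_mem_nhds (by linarith [pow_pos hε 2]))
    obtain ⟨N, hN⟩ := h1.exists
    refine ⟨N, fun n hn => ?_⟩
    rw [dist_eq_norm]
    have h2 := hsub N n hn
    have h3 : ‖(u n : L2)‖ ^ 2 ≤ L := le_ciSup hbdd n
    exact lt_of_pow_lt_pow_left₀ 2 hε.le (by linarith)
  obtain ⟨w, hw⟩ := cauchySeq_tendsto_of_complete hcau
  have hwES : w ∈ ES := isClosed_ES.mem_of_tendsto hw (Eventually.of_forall fun k => (u k).2)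
  have hw' : Tendsto u atTop (𝓝 ⟨w, hwES⟩) := tendsto_subtype_rng.2 hw
  have hwU : (⟨w, hwES⟩ : ES) ∈ U := hU.1.mem_of_tendsto hw' (Eventually.of_forall huU)
  have hz : Tendsto (fun k => g k (u k)) atTop (𝓝 ⟨w, hwES⟩) := by
    have h1 : Tendsto (fun k => u (k + 1)) atTop (𝓝 ⟨w, hwES⟩) :=
      hw'.comp (tendsto_add_atTop_nat 1)
    have h2 : Tendsto (fun k : ℕ => 1 / ((k : ℝ) + 1)) atTop (𝓝 0) :=
      tendsto_one_div_add_atTop_nhds_zero_nat
    have h3 : Tendsto (fun k => dist (u (k + 1)) (g k (u k))) atTop (𝓝 0) := by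
      refine squeeze_zero (fun _ => dist_nonneg) (fun k => ?_) h2
      have h4 := hdist k (u k) (huU k)
      rw [hus]
      have h5 : ((Nat.succ k : ℕ) : ℝ) = (k : ℝ) + 1 := by push_cast; ring
      rw [h5] at h4
      exact h4
    exact tendsto_of_tendsto_of_dist h1 h3
  have hc : IsClosed Uᶜ := hU.2.isClosed_compl
  exact hc.mem_of_tendsto hz (Eventually.of_forall fun k => hg k _ (huU k)) hwU

/-- a bounded nonempty set has small relatively clopen subsets -/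
lemma small_clopen {A : Set ES} (hne : A.Nonempty) {R : ℝ} (hR : ∀ x ∈ A, ‖(x : L2)‖ ≤ R)
    {ε : ℝ} (hε : 0 < ε) :
    ∃ x ∈ A, ∃ D : Set ES, IsClopen D ∧ x ∈ D ∧ ∀ y ∈ A ∩ D, dist y x ≤ ε := by
  classical
  wlog hR1 : 1 ≤ R generalizing R
  · exact this (R := max R 1) (fun x hx => (hR x hx).trans (le_max_left _ _)) (le_max_right _ _)
  set c := ε ^ 2 with hc
  have hcpos : 0 < c := pow_pos hε 2
  have hRpos : 0 < R := by linarith
  -- a point of almost maximal norm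
  let N : Set ℝ := (fun x : ES => ‖(x : L2)‖) '' A
  have hNb : BddAbove N := ⟨R, by rintro _ ⟨x, hx, rfl⟩; exact hR x hx⟩
  have hNn : N.Nonempty := hne.image _
  obtain ⟨η, hη, hη1, hη2⟩ : ∃ η : ℝ, 0 < η ∧ η ≤ 1 ∧ (2 * R + 1) * η ≤ c / 4 := by
    refine ⟨min 1 (c / (4 * (2 * R + 1))), by positivity, min_le_left _ _, ?_⟩
    calc (2 * R + 1) * min 1 (c / (4 * (2 * R + 1))) ≤ (2 * R + 1) * (c / (4 * (2 * R + 1))) := by
          gcongr
          exact min_le_right _ _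
      _ = c / 4 := by field_simp
  obtain ⟨_, ⟨x, hxA, rfl⟩, hx⟩ := exists_lt_of_lt_csSup hNn (show sSup N - η < sSup N by linarith)
  have hmax : ∀ y ∈ A, ‖(y : L2)‖ ≤ ‖(x : L2)‖ + η := by
    intro y hy
    have h1 : ‖(y : L2)‖ ≤ sSup N := le_csSup hNb ⟨y, hy, rfl⟩
    have h2 : sSup N - η < ‖(x : L2)‖ := hx
    linarith
  -- a finite part of `x`
  have hτ : 0 < c / (16 * R) := by positivity
  have hsum := lp.hasSum_single (E := fun _ : ℕ => ℝ) (p := 2) (by norm_num) (x : L2)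
  obtain ⟨F, hF⟩ := ((Metric.tendsto_nhds.1 hsum) _ hτ).exists
  set xF : L2 := ∑ i ∈ F, lp.single 2 i (((x : L2) : ℕ → ℝ) i) with hxF
  have hF' : ‖(x : L2) - xF‖ ≤ c / (16 * R) := by
    rw [dist_comm, dist_eq_norm] at hF
    exact hF.le
  obtain ⟨δ, hδirr, hδ0, hδ1⟩ := exists_irrational_btwn
    (show (0 : ℝ) < c / 8 / (1 + ∑ i ∈ F, |((x : L2) : ℕ → ℝ) i|) by
      have : 0 ≤ ∑ i ∈ F, |((x : L2) : ℕ → ℝ) i| := Finset.sum_nonneg fun _ _ => abs_nonneg _
      positivity)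
  let D : Set ES := ⋂ i ∈ F, {y : ES | |((y : L2) : ℕ → ℝ) i - ((x : L2) : ℕ → ℝ) i| < δ}
  have hDclopen : IsClopen D := by
    refine isClopen_biInter_finset fun i _ => ?_
    have hcont : Continuous fun y : ES => |((y : L2) : ℕ → ℝ) i - ((x : L2) : ℕ → ℝ) i| :=
      (((continuous_coord i).comp continuous_subtype_val).sub continuous_const).abs
    refine ⟨?_, isOpen_lt hcont continuous_const⟩
    have h1 : {y : ES | |((y : L2) : ℕ → ℝ) i - ((x : L2) : ℕ → ℝ) i| < δ} =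
        {y : ES | |((y : L2) : ℕ → ℝ) i - ((x : L2) : ℕ → ℝ) i| ≤ δ} := by
      ext y
      simp only [mem_ofPred_eq]
      refine ⟨le_of_lt, fun h => lt_of_le_of_ne h fun he => ?_⟩
      obtain ⟨q, hq⟩ := S_rat (y.2 i)
      obtain ⟨r, hr⟩ := S_rat (x.2 i)
      apply hδirr
      refine ⟨|q - r|, ?_⟩
      rw [← he, hq, hr]
      push_cast
      rfl
    rw [h1]
    exact isClosed_le hcont continuous_const
  refine ⟨x, hxA, D, hDclopen, ?_, ?_⟩
  · simp only [D, mem_iInter, mem_ofPred_eq, sub_self, abs_zero]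
    exact fun _ _ => hδ0
  · rintro y ⟨hyA, hyD⟩
    simp only [D, mem_iInter, mem_ofPred_eq] at hyD
    have h1 : |inner ℝ xF ((y : L2) - (x : L2))| ≤ c / 8 := by
      rw [hxF, sum_inner]
      calc |∑ i ∈ F, inner ℝ (lp.single 2 i (((x : L2) : ℕ → ℝ) i)) ((y : L2) - (x : L2))|
          ≤ ∑ i ∈ F, |inner ℝ (lp.single 2 i (((x : L2) : ℕ → ℝ) i)) ((y : L2) - (x : L2))| :=
            Finset.abs_sum_le_sum_abs _ _
        _ ≤ ∑ i ∈ F, |((x : L2) : ℕ → ℝ) i| * δ := by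
            refine Finset.sum_le_sum fun i hi => ?_
            rw [lp.inner_single_left, RCLike.inner_apply, conj_trivial, abs_mul, mul_comm]
            refine mul_le_mul_of_nonneg_left ?_ (abs_nonneg _)
            rw [lp.coeFn_sub, Pi.sub_apply]
            exact (hyD i hi).le
        _ = (∑ i ∈ F, |((x : L2) : ℕ → ℝ) i|) * δ := by rw [Finset.sum_mul]
        _ ≤ (1 + ∑ i ∈ F, |((x : L2) : ℕ → ℝ) i|) * δ := by
            refine mul_le_mul_of_nonneg_right ?_ hδ0.le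
            linarith
        _ ≤ c / 8 := by
            have h2 : 0 < 1 + ∑ i ∈ F, |((x : L2) : ℕ → ℝ) i| := by
              have : 0 ≤ ∑ i ∈ F, |((x : L2) : ℕ → ℝ) i| :=
                Finset.sum_nonneg fun _ _ => abs_nonneg _
              positivity
            rw [mul_comm, ← le_div_iff₀ h2]
            exact hδ1.le
    have h2 : |inner ℝ ((x : L2) - xF) ((y : L2) - (x : L2))| ≤ c / 8 := by
      calc |inner ℝ ((x : L2) - xF) ((y : L2) - (x : L2))| ≤ ‖(x : L2) - xF‖ * ‖(y : L2) - (x : L2)‖ :=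
            abs_real_inner_le_norm _ _
        _ ≤ (c / (16 * R)) * (2 * R) := by
            refine mul_le_mul hF' ?_ (norm_nonneg _) hτ.le
            calc ‖(y : L2) - (x : L2)‖ ≤ ‖(y : L2)‖ + ‖(x : L2)‖ := norm_sub_le _ _
              _ ≤ R + R := add_le_add (hR y hyA) (hR x hxA)
              _ = 2 * R := by ring
        _ = c / 8 := by field_simp; ring
    have h3 : |inner ℝ (x : L2) ((y : L2) - (x : L2))| ≤ c / 4 := by
      have h4 : inner ℝ (x : L2) ((y : L2) - (x : L2)) =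
          inner ℝ xF ((y : L2) - (x : L2)) + inner ℝ ((x : L2) - xF) ((y : L2) - (x : L2)) := by
        rw [← inner_add_left, add_sub_cancel]
      rw [h4]
      calc |inner ℝ xF ((y : L2) - (x : L2)) + inner ℝ ((x : L2) - xF) ((y : L2) - (x : L2))|
          ≤ |inner ℝ xF ((y : L2) - (x : L2))| + |inner ℝ ((x : L2) - xF) ((y : L2) - (x : L2))| :=
            abs_add_le _ _
        _ ≤ c / 8 + c / 8 := add_le_add h1 h2
        _ = c / 4 := by ring
    have h5 : ‖(y : L2) - (x : L2)‖ ^ 2 = ‖(y : L2)‖ ^ 2 - ‖(x : L2)‖ ^ 2 -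
        2 * inner ℝ (x : L2) ((y : L2) - (x : L2)) := by
      rw [norm_sub_sq_real, inner_sub_right, real_inner_self_eq_norm_sq, real_inner_comm]
      ring
    have h6 : ‖(y : L2)‖ ^ 2 ≤ (‖(x : L2)‖ + η) ^ 2 :=
      pow_le_pow_left₀ (norm_nonneg _) (hmax y hyA) 2
    have h7 : ‖(x : L2)‖ ≤ R := hR x hxA
    have h8 : (‖(x : L2)‖ + η) ^ 2 - ‖(x : L2)‖ ^ 2 ≤ (2 * R + 1) * η := by
      have : (‖(x : L2)‖ + η) ^ 2 - ‖(x : L2)‖ ^ 2 = (2 * ‖(x : L2)‖ + η) * η := by ring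
      rw [this]
      refine mul_le_mul_of_nonneg_right ?_ hη.le
      linarith
    have h9 : ‖(y : L2) - (x : L2)‖ ^ 2 ≤ ε ^ 2 := by
      have h10 := (abs_le.1 h3).1
      rw [h5]
      linarith
    rw [Subtype.dist_eq, dist_eq_norm]
    exact le_of_sq_le_sq h9 hε.le

/-- **A nonempty bounded closed subset of `ES` is zero-dimensional at some point.** -/
theorem exists_zeroDim_point {A : Set ES} (hA : IsClosed A) (hne : A.Nonempty) {R : ℝ}
    (hR : ∀ x ∈ A, ‖(x : L2)‖ ≤ R) :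
    ∃ a ∈ A, ∀ ε : ℝ, 0 < ε → ∃ G : Set ES, IsClopen G ∧ a ∈ G ∧ ∀ y ∈ A ∩ G, dist y a ≤ ε := by
  have hstep : ∀ (k : ℕ) (G : {G : Set ES // IsClopen G ∧ (A ∩ G).Nonempty}),
      ∃ G' : {G : Set ES // IsClopen G ∧ (A ∩ G).Nonempty}, G'.1 ⊆ G.1 ∧
        ∃ x ∈ A ∩ G'.1, ∀ y ∈ A ∩ G'.1, dist y x ≤ 1 / ((k : ℝ) + 1) := by
    rintro k ⟨G, hG, hGne⟩
    obtain ⟨x, hx, D, hD, hxD, hxy⟩ := small_clopen hGne (R := R) (fun x hx => hR x hx.1)
      (show (0 : ℝ) < 1 / ((k : ℝ) + 1) by positivity)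
    refine ⟨⟨G ∩ D, hG.inter hD, ⟨x, hx.1, hx.2, hxD⟩⟩, inter_subset_left, x,
      ⟨hx.1, hx.2, hxD⟩, ?_⟩
    rintro y ⟨hyA, hyG, hyD⟩
    exact hxy y ⟨⟨hyA, hyG⟩, hyD⟩
  choose next hnsub x hx hxy using hstep
  let G : ℕ → {G : Set ES // IsClopen G ∧ (A ∩ G).Nonempty} := fun k =>
    Nat.rec ⟨univ, isClopen_univ, by simpa using hne⟩ (fun k G => next k G) k
  have hGs : ∀ k, G (k + 1) = next k (G k) := fun k => rfl
  have hanti : Antitone fun k => (G k).1 := antitone_nat_of_succ_le fun k => by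
    rw [hGs]
    exact hnsub k (G k)
  let p : ℕ → ES := fun k => x k (G k)
  have hp : ∀ k, p k ∈ A ∩ (G (k + 1)).1 := fun k => by
    rw [hGs]
    exact hx k (G k)
  have hpy : ∀ k, ∀ y ∈ A ∩ (G (k + 1)).1, dist y (p k) ≤ 1 / ((k : ℝ) + 1) := fun k => by
    rw [hGs]
    exact hxy k (G k)
  have hlim : Tendsto (fun k : ℕ => 1 / ((k : ℝ) + 1)) atTop (𝓝 0) :=
    tendsto_one_div_add_atTop_nhds_zero_nat
  have hcau : CauchySeq p := by
    rw [Metric.cauchySeq_iff']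
    intro ε hε
    obtain ⟨N, hN⟩ := (hlim.eventually (gt_mem_nhds hε)).exists
    refine ⟨N, fun n hn => ?_⟩
    refine lt_of_le_of_lt (hpy N (p n) ⟨(hp n).1, ?_⟩) hN
    exact hanti (Nat.add_le_add_right hn 1) (hp n).2
  have : CompleteSpace ES := isClosed_ES.isComplete.completeSpace_coe
  obtain ⟨a, ha⟩ := cauchySeq_tendsto_of_complete hcau
  have haA : a ∈ A := hA.mem_of_tendsto ha (Eventually.of_forall fun k => (hp k).1)
  have haG : ∀ k, a ∈ (G (k + 1)).1 := by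
    intro k
    refine (G (k + 1)).2.1.1.mem_of_tendsto ha ?_
    filter_upwards [eventually_ge_atTop k] with n hn
    exact hanti (Nat.add_le_add_right hn 1) (hp n).2
  refine ⟨a, haA, fun ε hε => ?_⟩
  obtain ⟨N, hN⟩ := (hlim.eventually (gt_mem_nhds (half_pos hε))).exists
  refine ⟨(G (N + 1)).1, (G (N + 1)).2.1, haG N, fun y hy => ?_⟩
  have h1 := hpy N y hy
  have h2 := hpy N a ⟨haA, haG N⟩
  calc dist y a ≤ dist y (p N) + dist a (p N) := dist_triangle_right _ _ _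
    _ ≤ ε := by linarith

/-- **There is no closed embedding of `ES` into itself with bounded range.** -/
theorem no_small {ψ : ES → ES} (hψ : IsClosedEmbedding ψ) {R : ℝ}
    (hR : ∀ x, ‖(ψ x : L2)‖ ≤ R) : False := by
  have hne : (range ψ).Nonempty := by
    refine ⟨ψ ⟨0, fun i => Or.inl ?_⟩, mem_range_self _⟩
    simp
  obtain ⟨_, ⟨x, rfl⟩, hx⟩ := exists_zeroDim_point hψ.isClosed_range hne (R := R)
    (by rintro _ ⟨y, rfl⟩; exact hR y)
  have h1 : Metric.ball x 1 ∈ comap ψ (𝓝 (ψ x)) := by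
    rw [← hψ.isInducing.nhds_eq_comap]
    exact Metric.ball_mem_nhds x one_pos
  obtain ⟨O, hO, hOx⟩ := h1
  obtain ⟨ε, hε, hεO⟩ := Metric.mem_nhds_iff.1 hO
  obtain ⟨G, hG, hxG, hGy⟩ := hx (ε / 2) (half_pos hε)
  refine no_bounded_clopen (hG.preimage hψ.continuous) ⟨x, hxG⟩ (R := ‖(x : L2)‖ + 1) ?_
  intro y hy
  have h2 : y ∈ Metric.ball x 1 := hOx (hεO (by
    rw [Metric.mem_ball]
    exact lt_of_le_of_lt (hGy _ ⟨mem_range_self y, hy⟩) (half_lt_self hε)))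
  rw [Metric.mem_ball, Subtype.dist_eq, dist_eq_norm] at h2
  calc ‖(y : L2)‖ = ‖(x : L2) + ((y : L2) - (x : L2))‖ := by rw [add_sub_cancel]
    _ ≤ ‖(x : L2)‖ + ‖(y : L2) - (x : L2)‖ := norm_add_le _ _
    _ ≤ ‖(x : L2)‖ + 1 := by linarith

end Pool.Agent.N488.Erd
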