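import Pool.Agent.N488.Erd

/-!
# Homeomorphism groups of disjoint unions and complete Erdős space

If `K` is a compact Hausdorff space whose homeomorphism group is homeomorphic to complete Erdős
space, then the homeomorphism group of the disjoint union `ℕ × K` of countably many copies of `K`
is not homeomorphic to complete Erdős space.
-/

set_option autoImplicit false

open Set Filter Topology

namespace Pool.Agent.N488.Erd

universe u

/-- the compact-open topology on the set of self-homeomorphisms -/
abbrev coTop (M : Type u) [TopologicalSpace M] : TopologicalSpace (M ≃ₜ M) :=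
  TopologicalSpace.induced (fun g : M ≃ₜ M => ContinuousMap.mk (⇑g) g.continuous) inferInstance

variable {K : Type u} [TopologicalSpace K]

/-- apply `g` on the copy number `N` of `K` and the identity on the others -/
def ext (N : ℕ) (g : K ≃ₜ K) : (ℕ × K) ≃ₜ (ℕ × K) where
  toFun p := (p.1, if p.1 = N then g p.2 else p.2)
  invFun p := (p.1, if p.1 = N then g.symm p.2 else p.2)
  left_inv := by
    rintro ⟨m, x⟩
    by_cases h : m = N <;> simp [h]
  right_inv := by
    rintro ⟨m, x⟩
    by_cases h : m = N <;> simp [h]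
  continuous_toFun := by
    rw [continuous_prod_of_discrete_left]
    intro m
    by_cases h : m = N
    · simp only [h, if_true]
      exact continuous_const.prodMk g.continuous
    · simp only [h, if_false]
      exact continuous_const.prodMk continuous_id
  continuous_invFun := by
    rw [continuous_prod_of_discrete_left]
    intro m
    by_cases h : m = N
    · simp only [h, if_true]
      exact continuous_const.prodMk g.symm.continuous
    · simp only [h, if_false]
      exact continuous_const.prodMk continuous_id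

lemma ext_apply (N : ℕ) (g : K ≃ₜ K) (p : ℕ × K) :
    ext N g p = (p.1, if p.1 = N then g p.2 else p.2) := rfl

/-- the inclusion into the space of continuous maps -/
def toC {M : Type u} [TopologicalSpace M] (g : M ≃ₜ M) : C(M, M) :=
  ContinuousMap.mk (⇑g) g.continuous

lemma continuous_toC {M : Type u} [TopologicalSpace M] :
    Continuous[coTop M, inferInstance] (toC : (M ≃ₜ M) → C(M, M)) :=
  continuous_induced_dom

lemma isEmbedding_toC {M : Type u} [TopologicalSpace M] :
    @IsEmbedding _ _ (coTop M) inferInstance (toC : (M ≃ₜ M) → C(M, M)) := by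
  let _ := coTop M
  refine ⟨⟨rfl⟩, ?_⟩
  intro g h hgh
  ext x
  exact congrArg (fun f : C(M, M) => f x) hgh

lemma isEmbedding_ext [CompactSpace K] [T2Space K] (N : ℕ) :
    @IsEmbedding _ _ (coTop K) (coTop (ℕ × K)) (ext N : (K ≃ₜ K) → _) := by
  let _ := coTop K
  let _ := coTop (ℕ × K)
  have hcont : Continuous (ext N : (K ≃ₜ K) → _) := by
    rw [continuous_induced_rng]
    refine ContinuousMap.continuous_of_continuous_uncurry _ ?_
    have h1 : Continuous fun q : (K ≃ₜ K) × K => toC q.1 q.2 :=
      ContinuousEval.continuous_eval.comp (continuous_toC.prodMap continuous_id)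
    have h2 : Continuous fun q : ℕ × ((K ≃ₜ K) × K) =>
        ((q.1, if q.1 = N then q.2.1 q.2.2 else q.2.2) : ℕ × K) := by
      rw [continuous_prod_of_discrete_left]
      intro m
      by_cases h : m = N
      · simp only [h, if_true]
        exact continuous_const.prodMk h1
      · simp only [h, if_false]
        exact continuous_const.prodMk continuous_snd
    have h3 : Continuous fun q : (K ≃ₜ K) × (ℕ × K) => (q.2.1, (q.1, q.2.2)) := by fun_prop
    exact h2.comp h3
  have hr : Continuous fun h : (ℕ × K) ≃ₜ (ℕ × K) =>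
      ((⟨Prod.snd, continuous_snd⟩ : C(ℕ × K, K)).comp ((toC h).comp
        ⟨fun x : K => (N, x), by fun_prop⟩) : C(K, K)) := by
    have h1 : Continuous fun f : C(ℕ × K, ℕ × K) =>
        ((⟨Prod.snd, continuous_snd⟩ : C(ℕ × K, K)).comp (f.comp
          ⟨fun x : K => (N, x), by fun_prop⟩) : C(K, K)) :=
      (ContinuousMap.continuous_postcomp _).comp (ContinuousMap.continuous_precomp _)
    exact h1.comp continuous_toC
  refine IsEmbedding.of_comp hcont hr ?_
  have h2 : (fun h : (ℕ × K) ≃ₜ (ℕ × K) =>
      ((⟨Prod.snd, continuous_snd⟩ : C(ℕ × K, K)).comp ((toC h).comp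
        ⟨fun x : K => (N, x), by fun_prop⟩) : C(K, K))) ∘ ext N = toC := by
    funext g
    ext x
    simp [toC, ext_apply]
  rw [h2]
  exact isEmbedding_toC

lemma range_ext (N : ℕ) : range (ext N : (K ≃ₜ K) → _) =
    {h | ∀ (m : ℕ) (x : K), m ≠ N → h (m, x) = (m, x)} := by
  ext h
  simp only [mem_range, mem_ofPred_eq]
  constructor
  · rintro ⟨g, rfl⟩ m x hm
    simp [ext_apply, hm]
  · intro hh
    have key : ∀ (h : (ℕ × K) ≃ₜ (ℕ × K)), (∀ (m : ℕ) (x : K), m ≠ N → h (m, x) = (m, x)) →
        ∀ x : K, (h (N, x)).1 = N := by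
      intro h hh x
      by_contra hne
      have h1 := hh (h (N, x)).1 (h (N, x)).2 hne
      have h2 : ((h (N, x)).1, (h (N, x)).2) = (N, x) := h.injective h1
      exact hne (congrArg Prod.fst h2)
    have hsymm : ∀ (m : ℕ) (x : K), m ≠ N → h.symm (m, x) = (m, x) := by
      intro m x hm
      rw [Homeomorph.symm_apply_eq]
      exact (hh m x hm).symm
    refine ⟨{ toFun := fun x => (h (N, x)).2
              invFun := fun x => (h.symm (N, x)).2
              left_inv := ?_
              right_inv := ?_
              continuous_toFun := by fun_prop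
              continuous_invFun := by fun_prop }, ?_⟩
    · intro x
      have h1 : ((N, (h (N, x)).2) : ℕ × K) = h (N, x) := Prod.ext (key h hh x).symm rfl
      simp only [h1, Homeomorph.symm_apply_apply]
    · intro x
      have h1 : ((N, (h.symm (N, x)).2) : ℕ × K) = h.symm (N, x) :=
        Prod.ext (key h.symm hsymm x).symm rfl
      simp only [h1, Homeomorph.apply_symm_apply]
    · ext p
      · rw [ext_apply]
        rcases p with ⟨m, x⟩
        by_cases hm : m = N
        · subst hm
          exact (key h hh x).symm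
        · rw [hh m x hm]
      · rw [ext_apply]
        rcases p with ⟨m, x⟩
        by_cases hm : m = N
        · subst hm
          simp
        · rw [hh m x hm]
          simp [hm]

lemma isClosedEmbedding_ext [CompactSpace K] [T2Space K] (N : ℕ) :
    @IsClosedEmbedding _ _ (coTop K) (coTop (ℕ × K)) (ext N : (K ≃ₜ K) → _) := by
  let _ := coTop K
  let _ := coTop (ℕ × K)
  refine ⟨isEmbedding_ext N, ?_⟩
  rw [range_ext]
  have h1 : {h : (ℕ × K) ≃ₜ (ℕ × K) | ∀ (m : ℕ) (x : K), m ≠ N → h (m, x) = (m, x)} =
      ⋂ (m : ℕ) (x : K) (_ : m ≠ N), {h | toC h (m, x) = (m, x)} := by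
    ext h
    simp [toC]
  rw [h1]
  refine isClosed_iInter fun m => isClosed_iInter fun x => isClosed_iInter fun _ => ?_
  exact isClosed_eq ((continuous_eval_const (F := C(ℕ × K, ℕ × K)) (m, x)).comp continuous_toC)
    continuous_const

lemma tendsto_ext (g : ℕ → (K ≃ₜ K)) :
    Tendsto (fun N => ext N (g N)) atTop (@nhds _ (coTop (ℕ × K)) (Homeomorph.refl _)) := by
  let _ := coTop (ℕ × K)
  rw [(isEmbedding_toC (M := ℕ × K)).isInducing.tendsto_nhds_iff]
  rw [ContinuousMap.tendsto_nhds_compactOpen]
  intro C hC U _ hCU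
  have h1 : IsCompact (Prod.fst '' C) := hC.image continuous_fst
  obtain ⟨B, hB⟩ := (isCompact_iff_finite.1 h1).bddAbove
  filter_upwards [eventually_gt_atTop B] with N hN p hp
  have h2 : p.1 ≤ B := hB ⟨p, hp, rfl⟩
  have h3 : p.1 ≠ N := by omega
  have h4 : (toC (ext N (g N))) p = p := by
    show ext N (g N) p = p
    rw [ext_apply, if_neg h3]
  rw [Function.comp_apply, h4]
  exact hCU hp

/-- **Dichotomy.** Let `K` be a compact Hausdorff space. The homeomorphism groups of `K` and of
`ℕ × K` are not both homeomorphic to complete Erdős space. -/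
theorem dichotomy [CompactSpace K] [T2Space K]
    (e1 : @Homeomorph (K ≃ₜ K) ES (coTop K) inferInstance)
    (e2 : @Homeomorph ((ℕ × K) ≃ₜ (ℕ × K)) ES (coTop (ℕ × K)) inferInstance) : False := by
  let _ := coTop K
  let _ := coTop (ℕ × K)
  -- some copy of the homeomorphism group of `K` is mapped into a bounded set
  obtain ⟨N, hN⟩ : ∃ N, ∀ g : K ≃ₜ K, dist (e2 (ext N g)) (e2 (Homeomorph.refl _)) < 1 := by
    by_contra hcon
    push Not at hcon
    choose g hg using hcon
    have h1 := (e2.continuous.tendsto (Homeomorph.refl _)).comp (tendsto_ext g)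
    obtain ⟨N, hN⟩ := (h1.eventually (Metric.ball_mem_nhds _ one_pos)).exists
    exact absurd (Metric.mem_ball.1 hN) (not_lt.2 (hg N))
  have hψ : IsClosedEmbedding fun x : ES => e2 (ext N (e1.symm x)) :=
    e2.isClosedEmbedding.comp ((isClosedEmbedding_ext N).comp e1.symm.isClosedEmbedding)
  refine no_small hψ (R := ‖(e2 (Homeomorph.refl _) : L2)‖ + 1) fun x => ?_
  have h1 := hN (e1.symm x)
  rw [Subtype.dist_eq, dist_eq_norm] at h1
  calc ‖(e2 (ext N (e1.symm x)) : L2)‖ = ‖(e2 (Homeomorph.refl _) : L2) +
        ((e2 (ext N (e1.symm x)) : L2) - (e2 (Homeomorph.refl _) : L2))‖ := by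
          rw [add_sub_cancel]
    _ ≤ ‖(e2 (Homeomorph.refl _) : L2)‖ +
        ‖(e2 (ext N (e1.symm x)) : L2) - (e2 (Homeomorph.refl _) : L2)‖ := norm_add_le _ _
    _ ≤ ‖(e2 (Homeomorph.refl _) : L2)‖ + 1 := by linarith

end Pool.Agent.N488.Erd
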