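import Pool.Agent.N502.FR.Stm

/-!
# Project FR (helper502), leaf LGB: from the product to the means. By helper488.
-/

set_option autoImplicit false

open Finset

namespace Pool.Agent.N488.FR_LGB

open Pool.Agent.N502.FR

theorem termA {a : ℝ} (ha : 1 ≤ a) :
    Real.log (a / (a - 1 / 2)) ≤ 1 / 2 * (1 / a) + 1 / 4 * (a ^ 2)⁻¹ := by
  obtain ⟨u, hu⟩ : ∃ u : ℝ, u = 1 / (2 * a) := ⟨_, rfl⟩
  have hu0 : 0 < u := by rw [hu]; positivity
  have hu1 : u ≤ 1 / 2 := by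
    rw [hu]
    apply one_div_le_one_div_of_le (by norm_num)
    linarith
  have ha0 : a ≠ 0 := by linarith
  have e1 : a / (a - 1 / 2) = 1 / (1 - u) := by
    rw [hu, div_eq_div_iff (by linarith) ?_]
    · field_simp
    · have : 1 / (2 * a) ≤ 1 / 2 := hu ▸ hu1
      linarith
  have e2 : 1 / 2 * (1 / a) + 1 / 4 * (a ^ 2)⁻¹ = u + u ^ 2 := by
    rw [hu]; field_simp; ring
  rw [e1, e2, Real.log_le_iff_le_exp (by apply div_pos one_pos; linarith)]
  have h1 := Real.quadratic_le_exp_of_nonneg (x := u + u ^ 2) (by positivity)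
  refine le_trans ?_ h1
  rw [div_le_iff₀ (by linarith)]
  have h2 : 0 ≤ 1 - u - u ^ 2 - u ^ 3 := by
    have h3 : u ^ 2 ≤ 1 / 4 := by nlinarith
    have h4 : u ^ 3 ≤ 1 / 8 := by
      calc u ^ 3 ≤ (1 / 2) ^ 3 := pow_le_pow_left₀ hu0.le hu1 3
        _ = 1 / 8 := by norm_num
    linarith
  have h3 := mul_nonneg (sq_nonneg u) h2
  nlinarith

theorem termB {b : ℝ} (hb : 1 ≤ b) :
    Real.log (b / (b + 1 / 2)) ≤ -(1 / 2 * (1 / b)) + 1 / 8 * (b ^ 2)⁻¹ := by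
  obtain ⟨v, hv⟩ : ∃ v : ℝ, v = 1 / (2 * b) := ⟨_, rfl⟩
  have hv0 : 0 < v := by rw [hv]; positivity
  have hb0 : b ≠ 0 := by linarith
  have e1 : b / (b + 1 / 2) = (1 + v)⁻¹ := by
    rw [hv]
    field_simp
  have e2 : -(1 / 2 * (1 / b)) + 1 / 8 * (b ^ 2)⁻¹ = -v + v ^ 2 / 2 := by
    rw [hv]; field_simp; ring
  rw [e1, e2, Real.log_inv]
  have h1 := Real.le_log_one_add_of_nonneg hv0.le
  have h2 : v - v ^ 2 / 2 ≤ 2 * v / (v + 2) := by
    rw [le_div_iff₀ (by linarith)]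
    have : 0 < v ^ 3 := by positivity
    nlinarith
  linarith

theorem sum_sq (A : Finset ℕ) (hA : Pos A) : ∑ a ∈ A, ((a : ℝ) ^ 2)⁻¹ ≤ 2 := by
  have h1 : A ⊆ Ioo 0 (A.sup id + 1) := by
    intro a ha
    rw [mem_Ioo]
    have := hA a ha
    have h2 : id a ≤ A.sup id := Finset.le_sup ha
    simp only [id] at h2
    omega
  refine (Finset.sum_le_sum_of_subset_of_nonneg h1 fun _ _ _ => by positivity).trans ?_
  have := sum_Ioo_inv_sq_le (α := ℝ) 0 (A.sup id + 1)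
  simpa using this

theorem main : S_LGB := by
  intro A B hA hB h
  have hA1 : ∀ a ∈ A, (1 : ℝ) ≤ a := fun a ha => by exact_mod_cast hA a ha
  have hB1 : ∀ b ∈ B, (1 : ℝ) ≤ b := fun b hb => by exact_mod_cast hB b hb
  have hpA : ∀ a ∈ A, 0 < (a : ℝ) / (a - 1 / 2) := fun a ha => by
    have := hA1 a ha
    exact div_pos (by linarith) (by linarith)
  have hpB : ∀ b ∈ B, 0 < (b : ℝ) / (b + 1 / 2) := fun b hb => by
    have := hB1 b hb
    exact div_pos (by linarith) (by linarith)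
  have h1 := Real.log_lt_log (by norm_num) h
  rw [Real.log_mul (Finset.prod_pos hpA).ne' (Finset.prod_pos hpB).ne',
    Real.log_prod (fun a ha => (hpA a ha).ne'), Real.log_prod (fun b hb => (hpB b hb).ne')] at h1
  have h2 := Finset.sum_le_sum fun a ha => termA (hA1 a ha)
  have h3 := Finset.sum_le_sum fun b hb => termB (hB1 b hb)
  rw [Finset.sum_add_distrib, ← Finset.mul_sum, ← Finset.mul_sum] at h2
  rw [Finset.sum_add_distrib, ← Finset.mul_sum] at h3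
  have h3' : ∑ b ∈ B, Real.log ((b : ℝ) / (b + 1 / 2)) ≤
      -(1 / 2 * p1 B) + 1 / 8 * ∑ b ∈ B, ((b : ℝ) ^ 2)⁻¹ := by
    refine h3.trans (le_of_eq ?_)
    rw [p1, Finset.sum_neg_distrib, ← Finset.mul_sum]
  have h4 := sum_sq A hA
  have h5 := sum_sq B hB
  have h6 : Real.log (1 / 2) = -Real.log 2 := by rw [one_div, Real.log_inv]
  rw [h6] at h1
  have h7 := Real.log_two_lt_d9
  have h8 : ∑ a ∈ A, Real.log ((a : ℝ) / (a - 1 / 2)) ≤
      1 / 2 * p1 A + 1 / 4 * ∑ a ∈ A, ((a : ℝ) ^ 2)⁻¹ := h2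
  linarith

end Pool.Agent.N488.FR_LGB
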