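import Pool.Agent.N502.FR.Stm

/-!
# Project FR (helper502), leaf LRG: bound of the integrand for large `t`. By helper488.
-/

set_option autoImplicit false

open Finset

namespace Pool.Agent.N488.FR_LRG

open Pool.Agent.N502.FR

theorem fac_pos (t : ℝ) (a : ℕ) : 0 < 1 / √(1 + (t / a) ^ 2) := by positivity

theorem fac_le (t : ℝ) (a : ℕ) : 1 / √(1 + (t / a) ^ 2) ≤ 1 := by
  rw [div_le_one (by positivity)]
  rw [Real.one_le_sqrt]
  have : 0 ≤ (t / a) ^ 2 := sq_nonneg _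
  linarith

theorem rho_nonneg (A : Finset ℕ) (t : ℝ) : 0 ≤ rho A t :=
  Finset.prod_nonneg fun a _ => (fac_pos t a).le

theorem rho_mono {F A : Finset ℕ} (h : F ⊆ A) (t : ℝ) : rho A t ≤ rho F t := by
  rw [rho, rho, ← Finset.prod_sdiff h]
  have h1 : ∏ a ∈ A \ F, 1 / √(1 + (t / a) ^ 2) ≤ 1 :=
    Finset.prod_le_one (fun a _ => (fac_pos t a).le) fun a _ => fac_le t a
  exact mul_le_of_le_one_left (rho_nonneg F t) h1

theorem rho_sq (F : Finset ℕ) (t : ℝ) : rho F t * rho F t = ∏ h ∈ F, 1 / (1 + (t / h) ^ 2) := by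
  rw [rho, ← Finset.prod_mul_distrib]
  refine Finset.prod_congr rfl fun h _ => ?_
  rw [div_mul_div_comm, one_mul, Real.mul_self_sqrt (by positivity)]

theorem kf_le {F A B : Finset ℕ} {t : ℝ} (hA : F ⊆ A) (hB : F ⊆ B) (ht : 0 < t) :
    |kf A B t| ≤ (∏ h ∈ F, 1 / (1 + (t / (h : ℝ)) ^ 2)) / t := by
  rw [kf, abs_div, abs_mul, abs_mul, abs_of_nonneg (rho_nonneg A t), abs_of_nonneg (rho_nonneg B t),
    abs_of_pos ht, ← rho_sq]
  have h1 := Real.abs_sin_le_one (th A t - th B t)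
  have h2 := rho_mono hA t
  have h3 := rho_mono hB t
  have h4 := rho_nonneg A t
  have h5 := rho_nonneg B t
  have h6 := rho_nonneg F t
  apply div_le_div_of_nonneg_right _ ht.le
  calc rho A t * rho B t * |Real.sin (th A t - th B t)| ≤ rho A t * rho B t * 1 := by gcongr
    _ = rho A t * rho B t := mul_one _
    _ ≤ rho F t * rho F t := by gcongr

theorem main : S_LRG := by
  intro m F A B R t hm hA hB h1F pA pB hR hcase hRt
  have ht : 0 < t := by linarith
  refine (kf_le hA hB ht).trans ?_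
  have hpos : ∀ h ∈ F, (0 : ℝ) < h := fun h hh => by
    exact_mod_cast pA h (hA hh)
  rw [← Finset.mul_prod_erase F _ h1F]
  have h10 : (1 : ℝ) / (1 + (t / ((1 : ℕ) : ℝ)) ^ 2) = 1 / (1 + t ^ 2) := by
    rw [Nat.cast_one, div_one]
  rw [h10]
  have hP0 : 0 ≤ ∏ h ∈ F.erase 1, 1 / (1 + (t / (h : ℝ)) ^ 2) :=
    Finset.prod_nonneg fun h _ => by positivity
  have key : (∏ h ∈ F.erase 1, 1 / (1 + (t / (h : ℝ)) ^ 2)) / t ≤ 4 * (1 / 2) ^ m := by
    rcases hcase with ⟨hc, hl⟩ | hR2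
    · have h1 : ∏ h ∈ F.erase 1, 1 / (1 + (t / (h : ℝ)) ^ 2) ≤ (4 / 5) ^ (4 * m) := by
        have e : (F.erase 1).card = 4 * m := by rw [card_erase_of_mem h1F, hc]; omega
        rw [← e, ← Finset.prod_const]
        refine Finset.prod_le_prod (fun h _ => by positivity) fun h hh => ?_
        have hF := Finset.mem_of_mem_erase hh
        have h2 := hpos h hF
        have h3 := hl h hF
        have h4 : 1 / 2 ≤ t / h := by
          rw [le_div_iff₀ h2]
          linarith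
        rw [div_le_div_iff₀ (by positivity) (by norm_num)]
        nlinarith
      have h2 : ((4 : ℝ) / 5) ^ (4 * m) ≤ (1 / 2) ^ m := by
        rw [pow_mul]
        exact pow_le_pow_left₀ (by positivity) (by norm_num) m
      rw [div_le_iff₀ ht]
      have h3 : (0 : ℝ) < (1 / 2) ^ m := by positivity
      have h4 : 1 / 2 * (1 / 2 : ℝ) ^ m ≤ t * (1 / 2) ^ m :=
        mul_le_mul_of_nonneg_right (by linarith) h3.le
      linarith
    · have h1 : ∏ h ∈ F.erase 1, 1 / (1 + (t / (h : ℝ)) ^ 2) ≤ 1 := by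
        refine Finset.prod_le_one (fun h _ => by positivity) fun h _ => ?_
        rw [div_le_one (by positivity)]
        have : 0 ≤ (t / (h : ℝ)) ^ 2 := sq_nonneg _
        linarith
      rw [div_le_iff₀ ht]
      rw [hR2] at hRt
      have h2 : (1 / 2 : ℝ) ^ m * 2 ^ m = 1 := by rw [← mul_pow]; norm_num
      have h3 : (0 : ℝ) < (1 / 2) ^ m := by positivity
      have h4 : (1 / 2 : ℝ) ^ m * 2 ^ m ≤ (1 / 2) ^ m * t := mul_le_mul_of_nonneg_left hRt.le h3.le
      linarith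
  calc 1 / (1 + t ^ 2) * (∏ h ∈ F.erase 1, 1 / (1 + (t / (h : ℝ)) ^ 2)) / t
      = (∏ h ∈ F.erase 1, 1 / (1 + (t / (h : ℝ)) ^ 2)) / t * (1 / (1 + t ^ 2)) := by ring
    _ ≤ 4 * (1 / 2) ^ m * (1 / (1 + t ^ 2)) := by gcongr
    _ = 4 * (1 / 2) ^ m / (1 + t ^ 2) := by ring

end Pool.Agent.N488.FR_LRG
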