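import Pool.Agent.N661.JM.Stm

/-!
# Project JM, part LVJ: the joint laws of the values converge (helper488)

Adapted from `Pool.Agent.N953.FMLV` (helper953), the case `d = 1`.
-/

set_option autoImplicit false
open MeasureTheory Filter Topology Complex ProbabilityTheory
open scoped ContDiff

namespace Pool.Agent.N488.JMLVJ

open Pool.Agent.N661.BR (MW lin meas_eval)
open Pool.Agent.N661.BH (area frames loc)
open Pool.Agent.N661.JM
open Pool.Agent.N814.BHASM (Hyp mpos probz)
open Pool.Agent.N814.BHM (Pz mass int_Pz)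

noncomputable section

variable {Ω : Set ℂ} {lam : ℕ → ℝ} {u : ℕ → ℂ → ℝ}

lemma u_meas (H : Hyp Ω lam u) (n : ℕ) : AEMeasurable (u n) (Pz Ω) := by
  have h1 : Pz Ω ≪ volume.restrict Ω :=
    (Measure.smul_absolutelyContinuous).trans (withDensity_absolutelyContinuous _ _)
  have h2 : ContinuousOn (u n) Ω := ((H.sm n).mono H.sub).continuousOn
  exact (h2.aemeasurable H.op.measurableSet).mono_ac h1

/-- the mean over the frames at the point `0` -/
lemma frames_zero {k : ℕ} (G : (Fin k → ℂ) → ℂ) : frames G (fun _ => 0) = G fun _ => 0 := by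
  unfold frames
  have e1 : ∀ θ : ℝ, (G (fun j => Complex.exp (θ * I) * (fun _ : Fin k => (0 : ℂ)) j) +
      G (fun j => Complex.exp (θ * I) * starRingEnd ℂ ((fun _ : Fin k => (0 : ℂ)) j))) =
      2 * G fun _ => 0 := by
    intro θ
    simp only [map_zero, mul_zero]
    ring
  simp only [e1]
  rw [intervalIntegral.integral_const]
  have hpi : (Real.pi : ℂ) ≠ 0 := by exact_mod_cast Real.pi_ne_zero
  rw [Complex.real_smul]
  push_cast
  field_simp
  ring

lemma area_one : area Ω (fun _ => 1) = ((mass Ω : ℝ) : ℂ) := by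
  unfold area mass
  simp only [mul_one]
  exact integral_ofReal

lemma area_eq (h : 0 < mass Ω) (g : ℂ → ℂ) :
    area Ω g / area Ω (fun _ => 1) = ∫ z, g z ∂(Pz Ω) := by
  rw [area_one, int_Pz h]
  unfold area
  rw [Complex.real_smul, Complex.ofReal_inv, div_eq_inv_mul]
  rfl

lemma inner_toLp {d : ℕ} (x : Fin d → ℝ) (t : EuclideanSpace ℝ (Fin d)) :
    inner ℝ (WithLp.toLp 2 x : EuclideanSpace ℝ (Fin d)) t = ∑ i, t i * x i := by
  rw [PiLp.inner_apply]
  refine Finset.sum_congr rfl fun i _ => ?_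
  simp [RCLike.inner_apply]

theorem LVJ : S_LVJ := by
  intro d Ω lam u H hd μ hμ hL g hg hgb
  have := hμ
  have H0 := H ⟨0, hd⟩
  have := probz H0
  have hmp := mpos H0
  obtain ⟨C, hC⟩ := hgb
  let X : ℕ → ℂ → EuclideanSpace ℝ (Fin d) := fun n z => WithLp.toLp 2 fun i => u i n z
  let Y : (Fin d → MW) → EuclideanSpace ℝ (Fin d) := fun f => WithLp.toLp 2 fun i => f i 0
  have hcont : Continuous fun x : Fin d → ℝ => (WithLp.toLp 2 x : EuclideanSpace ℝ (Fin d)) :=
    PiLp.continuous_toLp 2 _
  have hX : ∀ n, AEMeasurable (X n) (Pz Ω) := by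
    intro n
    have h1 : AEMeasurable (fun z => fun i : Fin d => u i n z) (Pz Ω) :=
      aemeasurable_pi_lambda _ fun i => u_meas (H i) n
    exact hcont.measurable.comp_aemeasurable h1
  have hY0 : Measurable fun f : Fin d → MW => fun i : Fin d => f i 0 :=
    measurable_pi_lambda _ fun i => (meas_eval 0).comp (measurable_pi_apply i)
  have hY : Measurable Y := hcont.measurable.comp hY0
  let Pn : ℕ → ProbabilityMeasure (EuclideanSpace ℝ (Fin d)) := fun n =>
    ⟨(Pz Ω).map (X n), Measure.isProbabilityMeasure_map (hX n)⟩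
  let Q : ProbabilityMeasure (EuclideanSpace ℝ (Fin d)) := ⟨μ.map Y,
    Measure.isProbabilityMeasure_map hY.aemeasurable⟩
  have hexp : ∀ τ : EuclideanSpace ℝ (Fin d), Continuous fun x : EuclideanSpace ℝ (Fin d) =>
      Complex.exp (((inner ℝ x τ : ℝ) : ℂ) * I) := by
    intro τ
    fun_prop
  have hlim : Tendsto Pn atTop (𝓝 Q) := by
    refine ProbabilityMeasure.tendsto_iff_tendsto_charFun.2 fun τ => ?_
    have h1 := hL 1 (fun _ => 0) (fun i _ => τ i)
    have e1 : ∀ n, (area Ω fun z => frames (fun v : Fin 1 → ℂ => Complex.exp (I *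
        ((∑ i, ∑ j, (fun (i : Fin d) (_ : Fin 1) => τ i) i j * loc (lam i n) (u i n) z (v j) : ℝ) :
          ℂ))) (fun _ => 0)) /
        area Ω (fun _ => 1) =
        charFun ((Pn n : ProbabilityMeasure (EuclideanSpace ℝ (Fin d))) :
          Measure (EuclideanSpace ℝ (Fin d))) τ := by
      intro n
      rw [area_eq hmp]
      have e2 : charFun ((Pn n : ProbabilityMeasure (EuclideanSpace ℝ (Fin d))) :
          Measure (EuclideanSpace ℝ (Fin d))) τ = charFun ((Pz Ω).map (X n)) τ := rfl
      rw [e2, charFun_apply, integral_map (hX n) (hexp τ).aestronglyMeasurable]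
      refine integral_congr_ae (Eventually.of_forall fun z => ?_)
      show frames _ _ = Complex.exp (((inner ℝ (X n z) τ : ℝ) : ℂ) * I)
      rw [frames_zero, inner_toLp, mul_comm I]
      congr 3
      refine Finset.sum_congr rfl fun i _ => ?_
      rw [Fin.sum_univ_one]
      unfold loc
      rw [mul_zero, add_zero]
    have e3 : ∫ f : Fin d → MW, Complex.exp (I * ((∑ i, lin (fun _ : Fin 1 => 0)
        ((fun (i : Fin d) (_ : Fin 1) => τ i) i) (f i) : ℝ) : ℂ)) ∂μ =
        charFun ((Q : ProbabilityMeasure (EuclideanSpace ℝ (Fin d))) :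
          Measure (EuclideanSpace ℝ (Fin d))) τ := by
      have e2 : charFun ((Q : ProbabilityMeasure (EuclideanSpace ℝ (Fin d))) :
          Measure (EuclideanSpace ℝ (Fin d))) τ = charFun (μ.map Y) τ := rfl
      rw [e2, charFun_apply, integral_map hY.aemeasurable (hexp τ).aestronglyMeasurable]
      refine integral_congr_ae (Eventually.of_forall fun f => ?_)
      show Complex.exp (I * ((∑ i, lin (fun _ : Fin 1 => 0) (fun _ : Fin 1 => τ i) (f i) : ℝ) :
        ℂ)) = Complex.exp (((inner ℝ (Y f) τ : ℝ) : ℂ) * I)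
      rw [inner_toLp, mul_comm I]
      congr 3
      refine Finset.sum_congr rfl fun i _ => ?_
      unfold lin
      rw [Fin.sum_univ_one]
    rw [e3] at h1
    exact h1.congr e1
  have hgc : Continuous fun x : EuclideanSpace ℝ (Fin d) => g (WithLp.ofLp x) :=
    hg.comp (PiLp.continuous_ofLp 2 _)
  have hw := (ProbabilityMeasure.tendsto_iff_forall_integral_tendsto.1 hlim)
    (BoundedContinuousFunction.ofNormedAddCommGroup _ hgc C fun x => by
      rw [Real.norm_eq_abs]; exact hC _)
  have e4 : ∀ n, ∫ x, (BoundedContinuousFunction.ofNormedAddCommGroup _ hgc C fun x => by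
      rw [Real.norm_eq_abs]; exact hC _) x
      ∂((Pn n : ProbabilityMeasure (EuclideanSpace ℝ (Fin d))) :
        Measure (EuclideanSpace ℝ (Fin d))) =
      (∫ z in Ω, g (fun i => u i n z) / z.im ^ 2) / ∫ z in Ω, 1 / z.im ^ 2 := by
    intro n
    show ∫ x, g (WithLp.ofLp x) ∂((Pz Ω).map (X n)) = _
    rw [integral_map (hX n) hgc.aestronglyMeasurable, int_Pz hmp, smul_eq_mul,
      div_eq_inv_mul]
    unfold mass
    congr 2
    funext z
    rw [smul_eq_mul]
    show 1 / z.im ^ 2 * g (fun i => u i n z) = _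
    ring
  have e5 : ∫ x, (BoundedContinuousFunction.ofNormedAddCommGroup _ hgc C fun x => by
      rw [Real.norm_eq_abs]; exact hC _) x
      ∂((Q : ProbabilityMeasure (EuclideanSpace ℝ (Fin d))) :
        Measure (EuclideanSpace ℝ (Fin d))) =
      ∫ x, g x ∂(μ.map fun (f : Fin d → MW) (i : Fin d) => f i 0) := by
    show ∫ x, g (WithLp.ofLp x) ∂(μ.map Y) = _
    rw [integral_map hY.aemeasurable hgc.aestronglyMeasurable,
      integral_map hY0.aemeasurable hg.aestronglyMeasurable]
  rw [e5] at hw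
  exact hw.congr e4

end

end Pool.Agent.N488.JMLVJ
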