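import Pool.Agent.N906.KG.Nt

/-!
# Project KG, statement SEQK (consequence of SEQ0 and TEL)
-/

set_option autoImplicit false

namespace Pool.Agent.N488.KG

open NumberField IsDedekindDomain Finset Pool.Agent.H691R3 Pool.Agent.W223.AK Pool.Agent.N906.KG


/-- the real inequality behind SEQK -/
lemma prod_bound {N : ℕ} (R l : Fin N → ℝ) (H β V T : ℝ) (hN : 1 ≤ N) (hβ : 1 ≤ β)
    (hR0 : ∀ j, 0 < R j) (hRH : ∀ j, R j ≤ H) (hl0 : ∀ j, 0 ≤ l j)
    (hV : ∏ j, R j = V) (hT : ∑ j, l j = T) (hVH : β * H ^ (N - 1) ≤ V) (hTβ : T ≤ 2 * Real.log β) :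
    ∏ j, (R j * Real.exp (-l j) + 1) ≤ 2 ^ N * V * (Real.exp (-T) + 1 / β) := by
  classical
  have hβ0 : 0 < β := by linarith
  have hH0 : 0 < H := lt_of_lt_of_le (hR0 ⟨0, hN⟩) (hRH _)
  have hV0 : 0 < V := by rw [← hV]; exact prod_pos fun j _ => hR0 j
  have hRβ : ∀ j, β ≤ R j := by
    intro j
    have h1 : ∏ i ∈ univ.erase j, R i ≤ H ^ (N - 1) := by
      have h2 : ∏ i ∈ univ.erase j, R i ≤ ∏ _i ∈ univ.erase j, H :=
        Finset.prod_le_prod (fun i _ => (hR0 i).le) fun i _ => hRH i
      rwa [Finset.prod_const, Finset.card_erase_of_mem (mem_univ j), Finset.card_univ,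
        Fintype.card_fin] at h2
    have h3 : R j * ∏ i ∈ univ.erase j, R i = V := by
      rw [← hV, Finset.mul_prod_erase _ _ (mem_univ j)]
    have h4 : R j * ∏ i ∈ univ.erase j, R i ≤ R j * H ^ (N - 1) :=
      mul_le_mul_of_nonneg_left h1 (hR0 j).le
    have h5 : β * H ^ (N - 1) ≤ R j * H ^ (N - 1) := by linarith
    exact le_of_mul_le_mul_right h5 (pow_pos hH0 _)
  have hexp : ∀ j, 0 < Real.exp (-l j) := fun j => Real.exp_pos _
  have hexp1 : ∀ j, Real.exp (-l j) ≤ 1 := fun j => by
    rw [Real.exp_le_one_iff]; linarith [hl0 j]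
  -- the case of a small factor
  by_cases hall : ∀ j, l j ≤ Real.log (R j)
  · have h1 : ∀ j, R j * Real.exp (-l j) + 1 ≤ 2 * (R j * Real.exp (-l j)) := by
      intro j
      have h2 : 1 ≤ R j * Real.exp (-l j) := by
        have h3 : Real.exp (l j) ≤ R j := by
          calc Real.exp (l j) ≤ Real.exp (Real.log (R j)) := Real.exp_le_exp.2 (hall j)
            _ = R j := Real.exp_log (hR0 j)
        calc (1 : ℝ) = Real.exp (l j) * Real.exp (-l j) := by
              rw [← Real.exp_add]; simp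
          _ ≤ R j * Real.exp (-l j) := mul_le_mul_of_nonneg_right h3 (hexp j).le
      linarith
    calc ∏ j, (R j * Real.exp (-l j) + 1) ≤ ∏ j, (2 * (R j * Real.exp (-l j))) :=
          Finset.prod_le_prod (fun j _ => by have := mul_pos (hR0 j) (hexp j); linarith)
            fun j _ => h1 j
      _ = 2 ^ N * V * Real.exp (-T) := by
          rw [Finset.prod_mul_distrib, Finset.prod_mul_distrib, hV, ← Real.exp_sum,
            Finset.prod_const, Finset.card_univ, Fintype.card_fin, Finset.sum_neg_distrib, hT]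
          ring
      _ ≤ 2 ^ N * V * (Real.exp (-T) + 1 / β) := by
          apply mul_le_mul_of_nonneg_left _ (by positivity)
          have : 0 < 1 / β := by positivity
          linarith
  · push Not at hall
    obtain ⟨j₀, hj₀⟩ := hall
    have hoth : ∀ j, j ≠ j₀ → l j ≤ Real.log (R j) := by
      intro j hj
      by_contra hc
      push Not at hc
      have h1 : l j + l j₀ ≤ T := by
        rw [← hT, ← Finset.add_sum_erase _ _ (mem_univ j₀)]
        have h2 : l j ≤ ∑ x ∈ univ.erase j₀, l x :=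
          Finset.single_le_sum (fun i _ => hl0 i) (Finset.mem_erase.2 ⟨hj, mem_univ j⟩)
        linarith
      have h3 : Real.log β ≤ Real.log (R j) := Real.log_le_log hβ0 (hRβ j)
      have h4 : Real.log β ≤ Real.log (R j₀) := Real.log_le_log hβ0 (hRβ j₀)
      linarith
    have h0 : R j₀ * Real.exp (-l j₀) + 1 ≤ 2 := by
      have h3 : R j₀ ≤ Real.exp (l j₀) := by
        calc R j₀ = Real.exp (Real.log (R j₀)) := (Real.exp_log (hR0 j₀)).symm
          _ ≤ Real.exp (l j₀) := Real.exp_le_exp.2 hj₀.le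
      have h4 : R j₀ * Real.exp (-l j₀) ≤ Real.exp (l j₀) * Real.exp (-l j₀) :=
        mul_le_mul_of_nonneg_right h3 (hexp j₀).le
      rw [← Real.exp_add, add_neg_cancel, Real.exp_zero] at h4
      linarith
    have h1 : ∀ j, j ≠ j₀ → R j * Real.exp (-l j) + 1 ≤ 2 * R j := by
      intro j _
      have h2 : R j * Real.exp (-l j) ≤ R j * 1 := mul_le_mul_of_nonneg_left (hexp1 j) (hR0 j).le
      have h3 := hRβ j
      linarith
    calc ∏ j, (R j * Real.exp (-l j) + 1)
        = (R j₀ * Real.exp (-l j₀) + 1) * ∏ j ∈ univ.erase j₀, (R j * Real.exp (-l j) + 1) :=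
          (Finset.mul_prod_erase _ _ (mem_univ j₀)).symm
      _ ≤ 2 * ∏ j ∈ univ.erase j₀, (2 * R j) := by
          apply mul_le_mul h0 _ _ (by norm_num)
          · exact Finset.prod_le_prod
              (fun j _ => by have := mul_pos (hR0 j) (hexp j); linarith)
              fun j hj => h1 j (Finset.ne_of_mem_erase hj)
          · exact Finset.prod_nonneg fun j _ => by
              have := mul_pos (hR0 j) (hexp j); linarith
      _ = 2 ^ N * (V / R j₀) := by
          have h3 : R j₀ * ∏ i ∈ univ.erase j₀, R i = V := by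
            rw [← hV, Finset.mul_prod_erase _ _ (mem_univ j₀)]
          have h5 : ∏ i ∈ univ.erase j₀, R i = V / R j₀ := by
            rw [eq_div_iff (hR0 j₀).ne', ← h3]; ring
          rw [Finset.prod_mul_distrib, h5, Finset.prod_const,
            Finset.card_erase_of_mem (mem_univ j₀), Finset.card_univ, Fintype.card_fin]
          obtain ⟨M, rfl⟩ : ∃ M, N = M + 1 := ⟨N - 1, by omega⟩
          simp only [Nat.add_sub_cancel]
          ring
      _ ≤ 2 ^ N * (V / β) := by
          apply mul_le_mul_of_nonneg_left _ (by positivity)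
          exact div_le_div_of_nonneg_left hV0.le hβ0 (hRβ j₀)
      _ ≤ 2 ^ N * V * (Real.exp (-T) + 1 / β) := by
          have h6 : 0 ≤ (2 : ℝ) ^ N * V * Real.exp (-T) := by positivity
          have h7 : (2 : ℝ) ^ N * (V / β) = 2 ^ N * V * (1 / β) := by ring
          rw [h7, mul_add]
          linarith

lemma Rj_pos {K : Type} [Field K] [NumberField K] {N : ℕ}
    (B : Fin (N + 1) → InfinitePlace K → ℝ) (hB : ∀ k w, 0 < B k w)
    (e : Fin (N + 1) ≃ Fin (N + 1)) (j : Fin N) : 0 < Rj B e j := by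
  unfold Rj bn
  apply Finset.prod_pos
  intro w _
  apply pow_pos
  apply lt_min (hB _ _)
  have hj : j.castSucc < Fin.last N := Fin.castSucc_lt_last j
  exact lt_of_lt_of_le (hB (e (Fin.last N)) w)
    (le_ciSup (f := fun i : {i : Fin (N + 1) // j.castSucc < i} => B (e i) w)
      (Set.finite_range _).bddAbove ⟨Fin.last N, hj⟩)

lemma Rj_le {K : Type} [Field K] [NumberField K] {N : ℕ}
    (B : Fin (N + 1) → InfinitePlace K → ℝ) (hB : ∀ k w, 0 < B k w)
    (e : Fin (N + 1) ≃ Fin (N + 1)) (j : Fin N) :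
    Rj B e j ≤ bn (fun w => ⨆ k, B k w) := by
  unfold Rj bn
  have hj : j.castSucc < Fin.last N := Fin.castSucc_lt_last j
  apply Finset.prod_le_prod
  · intro w _
    apply pow_nonneg
    apply le_min (hB _ _).le
    exact (hB (e (Fin.last N)) w).le.trans
      (le_ciSup (f := fun i : {i : Fin (N + 1) // j.castSucc < i} => B (e i) w)
        (Set.finite_range _).bddAbove ⟨Fin.last N, hj⟩)
  · intro w _
    apply pow_le_pow_left₀
    · apply le_min (hB _ _).le
      exact (hB (e (Fin.last N)) w).le.trans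
        (le_ciSup (f := fun i : {i : Fin (N + 1) // j.castSucc < i} => B (e i) w)
          (Set.finite_range _).bddAbove ⟨Fin.last N, hj⟩)
    · exact (min_le_left _ _).trans
        (le_ciSup (f := fun k => B k w) (Set.finite_range _).bddAbove (e j.castSucc))

lemma lj_nonneg {K : Type} [Field K] [NumberField K] {N : ℕ} (D : Fin (N + 1) → Idl K)
    (e : Fin (N + 1) ≃ Fin (N + 1)) (j : Fin N) : 0 ≤ lj D e j := by
  unfold lj
  exact Finset.sum_nonneg fun v _ => mul_nonneg (Nat.cast_nonneg _) (log_Nv_pos v).le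

/-- SEQK from SEQ0 and TEL -/
theorem seqk (K : Type) [Field K] [NumberField K] (h1 : S_SEQ0 K) (h2 : S_TEL K) : S_SEQK K := by
  intro N hN
  obtain ⟨C, hC, hc⟩ := h1 N hN
  refine ⟨C * 2 ^ N, by positivity, ?_⟩
  intro D B H β F hD hB hβ hH hV hT hF
  have h3 := hc (Equiv.refl _) D 0 (fun _ => 0) B F hB (fun v => Or.inl rfl) (by
    intro x hx
    obtain ⟨ha, hb, hd⟩ := hF x hx
    refine ⟨ha, hb, ?_, hd⟩
    intro k v
    have : fv v ((x k : 𝓞 K) : K) ≤ 1 := fv_int_le_one v (x k)
    simpa using this)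
  have h4 := prod_bound (Rj B (Equiv.refl _)) (lj D (Equiv.refl _)) H β (vol B) (tl D) hN hβ
    (Rj_pos B hB _) (fun j => (Rj_le B hB _ j).trans hH) (lj_nonneg D _)
    ((h2 N (Equiv.refl _) hN).1 B hB) ((h2 N (Equiv.refl _) hN).2 D hD) hV hT
  have h5 : len (0 : Idl K) = 0 := by simp [len]
  rw [h5] at h3
  simp only [sub_zero] at h3
  calc (F.card : ℝ) ≤ C * ∏ j, (Rj B (Equiv.refl _) j * Real.exp (-lj D (Equiv.refl _) j) + 1) := h3
    _ ≤ C * (2 ^ N * vol B * (Real.exp (-tl D) + 1 / β)) := mul_le_mul_of_nonneg_left h4 hC.le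
    _ = C * 2 ^ N * vol B * (Real.exp (-tl D) + 1 / β) := by ring

end Pool.Agent.N488.KG
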