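import Pool.Agent.R790.Mm.Box

/-!
# The topologization of Kuratowski–Painlevé convergence (definitions)
-/

set_option autoImplicit false

open Set Filter Topology TopologicalSpace

namespace Pool.Agent.N488.KP

universe u

section General

variable {Y : Type u} [TopologicalSpace Y] {ι : Type u} [Preorder ι]

/-- `Li A`: the points each neighbourhood of which meets `A i` for all sufficiently large `i`. -/
def Li (A : ι → Closeds Y) : Set Y :=
  {x | ∀ U ∈ 𝓝 x, ∀ᶠ i in atTop, ((A i : Set Y) ∩ U).Nonempty}

/-- `Ls A`: the points each neighbourhood of which meets `A i` for cofinally many `i`. -/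
def Ls (A : ι → Closeds Y) : Set Y :=
  {x | ∀ U ∈ 𝓝 x, ∃ᶠ i in atTop, ((A i : Set Y) ∩ U).Nonempty}

/-- Kuratowski–Painlevé convergence of a net of closed sets. -/
def KPConverges (A : ι → Closeds Y) (B : Closeds Y) : Prop :=
  Ls A ⊆ (B : Set Y) ∧ (B : Set Y) ⊆ Li A

/-- In the topology `t`, every Kuratowski–Painlevé convergent net of closed sets converges to its
Kuratowski–Painlevé limit. -/
def Admissible (t : TopologicalSpace (Closeds Y)) : Prop :=
  ∀ (ι : Type u) [Preorder ι] [IsDirectedOrder ι] [Nonempty ι] (A : ι → Closeds Y)
    (B : Closeds Y), KPConverges A B → Tendsto A atTop (@nhds _ t B)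

variable (Y) in
/-- `τK`: the finest topology in which every Kuratowski–Painlevé convergent net converges to its
Kuratowski–Painlevé limit (the infimum of all such topologies in the order in which `t ≤ s` means
that `t` is finer than `s`). -/
@[instance_reducible] def tauK : TopologicalSpace (Closeds Y) := sInf {t | Admissible t}

end General

open Pool.Agent.R790.Mm

/-- The topology of the box distance on the set `XX` of mm-isomorphism classes of mm-spaces. -/
noncomputable instance boxTopology : TopologicalSpace XX := boxPM.toUniformSpace.toTopologicalSpace

end Pool.Agent.N488.KP
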