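import Pool.Agent.N488.KPDefs

/-!
# The topologization of Kuratowski–Painlevé convergence is not Hausdorff

If `y` is a point of a pseudometric space such that every ball around `y` contains an infinite
uniformly separated set, the closed sets `∅` and `closure {y}` have no disjoint `τK`-open
neighbourhoods: the closures of the points of a separated sequence converge to `∅`.
-/

set_option autoImplicit false

open Set Filter Topology TopologicalSpace

namespace Pool.Agent.N488.KP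

universe u

theorem admissible_tauK (Y : Type u) [TopologicalSpace Y] : Admissible (tauK Y) := by
  intro ι _ _ _ A B h
  rw [tauK, nhds_sInf]
  rw [tendsto_iInf]
  intro t
  rw [tendsto_iInf]
  exact fun ht => ht ι A B h

theorem isLeast_tauK (Y : Type u) [TopologicalSpace Y] :
    IsLeast {t : TopologicalSpace (Closeds Y) | Admissible t} (tauK Y) :=
  ⟨admissible_tauK Y, fun _ ht => sInf_le ht⟩

section

variable {Y : Type u} [PseudoMetricSpace Y]

/-- the closure of a point as a closed set -/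
def cl (y : Y) : Closeds Y := ⟨closure {y}, isClosed_closure⟩

lemma mem_cl {x y : Y} : x ∈ (cl y : Set Y) ↔ dist x y = 0 := by
  show x ∈ closure {y} ↔ _
  rw [Metric.mem_closure_iff_infDist_zero (singleton_nonempty y), Metric.infDist_singleton]

lemma cl_inter_ball {x y : Y} {r : ℝ} (h : ((cl y : Set Y) ∩ Metric.ball x r).Nonempty) :
    dist y x < r := by
  obtain ⟨z, hz, hzx⟩ := h
  rw [mem_cl] at hz
  rw [Metric.mem_ball] at hzx
  calc dist y x ≤ dist y z + dist z x := dist_triangle _ _ _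
    _ < r := by rw [dist_comm y z, hz, zero_add]; exact hzx

/-- uniformly separated sequences converge to the empty set -/
lemma conv_empty {x : ULift.{u} ℕ → Y} {δ : ℝ} (hδ : 0 < δ)
    (hx : ∀ m m', m ≠ m' → δ ≤ dist (x m) (x m')) :
    KPConverges (fun m => cl (x m)) ⊥ := by
  refine ⟨?_, by simp⟩
  intro y hy
  exfalso
  have h1 := hy (Metric.ball y (δ / 2)) (Metric.ball_mem_nhds y (half_pos hδ))
  rw [frequently_atTop] at h1
  obtain ⟨m, -, hm⟩ := h1 ⟨0⟩
  obtain ⟨m', hm', hm2⟩ := h1 ⟨m.down + 1⟩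
  have hne : m ≠ m' := by
    rintro rfl
    have h3 : m.down + 1 ≤ m.down := hm'
    omega
  have h4 := hx m m' hne
  have h5 := cl_inter_ball hm
  have h6 := cl_inter_ball hm2
  have h7 := dist_triangle_right (x m) (x m') y
  linarith

/-- convergent sequences of points -/
lemma conv_point {x : ULift.{u} ℕ → Y} {y : Y}
    (hx : ∀ m, dist (x m) y ≤ 1 / ((m.down : ℝ) + 1)) :
    KPConverges (fun m => cl (x m)) (cl y) := by
  have key : ∀ ε : ℝ, 0 < ε → ∀ᶠ m in atTop, dist (x m) y < ε := by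
    intro ε hε
    obtain ⟨N, hN⟩ := exists_nat_one_div_lt hε
    rw [eventually_atTop]
    refine ⟨⟨N⟩, fun m hm => ?_⟩
    have h1 : N ≤ m.down := hm
    refine (hx m).trans_lt (lt_of_le_of_lt ?_ hN)
    have h2 : (N : ℝ) ≤ m.down := by exact_mod_cast h1
    gcongr
  refine ⟨?_, ?_⟩
  · intro z hz
    rw [mem_cl]
    refine le_antisymm (le_of_forall_pos_le_add fun ε hε => ?_) dist_nonneg
    have h1 := hz (Metric.ball z (ε / 2)) (Metric.ball_mem_nhds z (half_pos hε))
    obtain ⟨m, hm, hm2⟩ := (h1.and_eventually (key (ε / 2) (half_pos hε))).exists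
    have h2 := cl_inter_ball hm
    have h3 := dist_triangle_left z y (x m)
    linarith
  · intro z hz U hU
    rw [mem_cl] at hz
    obtain ⟨ε, hε, hεU⟩ := Metric.mem_nhds_iff.1 hU
    filter_upwards [key ε hε] with m hm
    refine ⟨x m, subset_closure rfl, hεU ?_⟩
    rw [Metric.mem_ball]
    calc dist (x m) z ≤ dist (x m) y + dist z y := dist_triangle_right _ _ _
      _ < ε := by rw [hz, add_zero]; exact hm

/-- If every ball around `y` contains an infinite uniformly separated set, the closed sets `∅` and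
`closure {y}` cannot be separated in any topology in which Kuratowski–Painlevé convergent nets
converge. -/
theorem not_separated (y : Y)
    (hy : ∀ n : ℕ, ∃ (x : ℕ → Y) (δ : ℝ), 0 < δ ∧ (∀ m, dist (x m) y ≤ 1 / ((n : ℝ) + 1)) ∧
      ∀ m m', m ≠ m' → δ ≤ dist (x m) (x m')) (t : TopologicalSpace (Closeds Y))
    (ht : Admissible t) : ¬ @T2Space _ t := by
  intro hT
  have hne : (⊥ : Closeds Y) ≠ cl y := by
    intro h
    have h1 : y ∈ (cl y : Set Y) := subset_closure rfl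
    rw [← h] at h1
    exact h1
  obtain ⟨U, V, hU, hV, hyU, hyV, hUV⟩ := @T2Space.t2 _ t hT _ _ hne
  choose x δ hδ hxy hsep using hy
  have h1 : ∀ n : ℕ, ∃ m, cl (x n m) ∈ U := by
    intro n
    have h2 := ht (ULift.{u} ℕ) (fun m => cl (x n m.down)) ⊥ (conv_empty (hδ n) (by
      intro m m' hmm
      exact hsep n _ _ fun h => hmm (ULift.down_injective h)))
    have h4 : U ∈ @nhds _ t ⊥ := (@isOpen_iff_mem_nhds _ t _).1 hU _ hyU
    have h5 : ∀ᶠ m : ULift.{u} ℕ in atTop, cl (x n m.down) ∈ U := h2 h4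
    obtain ⟨m, hm⟩ := h5.exists
    exact ⟨m.down, hm⟩
  choose m hm using h1
  have h3 := ht (ULift.{u} ℕ) (fun n => cl (x n.down (m n.down))) (cl y)
    (conv_point fun n => hxy n.down _)
  have h4 : V ∈ @nhds _ t (cl y) := (@isOpen_iff_mem_nhds _ t _).1 hV _ hyV
  have h5 : ∀ᶠ n : ULift.{u} ℕ in atTop, cl (x n.down (m n.down)) ∈ V := h3 h4
  obtain ⟨n, hn⟩ := h5.exists
  exact Set.disjoint_left.1 hUV (hm n.down) hn

end

open Pool.Agent.R790.Mm MeasureTheory

/-- the two-point space with distance `R` and masses `1 - ε`, `ε` -/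
noncomputable def tpMeasure (ε : unitInterval) (R : ℝ) : Measure ℝ :=
  ENNReal.ofReal (1 - ε) • Measure.dirac 0 + ENNReal.ofReal ε • Measure.dirac R

instance (ε : unitInterval) (R : ℝ) : IsProbabilityMeasure (tpMeasure ε R) := by
  constructor
  simp only [tpMeasure, Measure.add_apply, Measure.smul_apply, measure_univ, smul_eq_mul, mul_one]
  rw [← ENNReal.ofReal_add (by linarith [ε.2.2]) ε.2.1]
  simp

/-- the two-point mm-space -/
noncomputable def tp (ε : unitInterval) (R : ℝ) : MM where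
  X := ℝ
  μ := tpMeasure ε R

lemma tp_real (ε : unitInterval) (R : ℝ) {s : Set ℝ} (hs : MeasurableSet s) :
    (tpMeasure ε R).real s = (1 - ε) * s.indicator 1 0 + ε * s.indicator 1 R := by
  have h1 : (tpMeasure ε R) s = ENNReal.ofReal ((1 - ε) * s.indicator 1 0 +
      ε * s.indicator 1 R) := by
    simp only [tpMeasure, Measure.add_apply, Measure.smul_apply, smul_eq_mul,
      Measure.dirac_apply' _ hs]
    have h0 : (0 : ℝ) ≤ 1 - ε := by linarith [ε.2.2]
    have h2 : (0 : ℝ) ≤ ε := ε.2.1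
    by_cases ha : (0 : ℝ) ∈ s <;> by_cases hb : R ∈ s <;>
      simp [ha, hb, ← ENNReal.ofReal_add, h0, h2]
  rw [Measure.real, h1, ENNReal.toReal_ofReal]
  have h0 : (0 : ℝ) ≤ 1 - ε := by linarith [ε.2.2]
  have h2 : (0 : ℝ) ≤ ε := ε.2.1
  have h3 : ∀ a : ℝ, (0 : ℝ) ≤ s.indicator (1 : ℝ → ℝ) a := fun a =>
    indicator_nonneg (fun _ _ => zero_le_one) a
  have := mul_nonneg h0 (h3 0)
  have := mul_nonneg h2 (h3 R)
  linarith

lemma box_tp_pt (ε : unitInterval) (R : ℝ) : box (tp ε R) pt ≤ ε := by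
  obtain ⟨φ, hφ⟩ := exists_param (tp ε R)
  obtain ⟨φ', hφ', hm, hmap⟩ : ∃ φ' : II → ℝ, φ' = φ ∧ Measurable φ' ∧
      leb.map φ' = tpMeasure ε R := ⟨φ, rfl, hφ.1, hφ.2⟩
  refine box_le ⟨ε.2.1, φ, fun _ => (), φ' ⁻¹' {(0 : ℝ)}, hφ, pt_param,
    hm (measurableSet_singleton _), ?_, ?_⟩
  · rw [leb_real_iff, map_real hm hmap (measurableSet_singleton _),
      tp_real ε R (measurableSet_singleton (0 : ℝ))]
    have h3 : (0 : ℝ) ≤ ({(0 : ℝ)} : Set ℝ).indicator (1 : ℝ → ℝ) R :=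
      indicator_nonneg (fun _ _ => zero_le_one) R
    have h4 := mul_nonneg ε.2.1 h3
    simp only [indicator_of_mem (mem_singleton (0 : ℝ)), Pi.one_apply, mul_one]
    linarith
  · intro s hs t ht
    have h1 : φ' s = (0 : ℝ) := hs
    have h2 : φ' t = (0 : ℝ) := ht
    have h3 : dist (φ s) (φ t) = 0 := by
      have h4 : dist (φ' s) (φ' t) = 0 := by
        rw [h1, h2]
        exact dist_self _
      rw [hφ'] at h4
      exact h4
    have h5 : dist () () = (0 : ℝ) := dist_self _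
    have h6 : |(0 : ℝ) - 0| ≤ ε := by simpa using ε.2.1
    rw [h3]
    exact h6

lemma box_tp_tp (ε : unitInterval) (hε : (0 : ℝ) < ε) (hε2 : (ε : ℝ) ≤ 1 / 2) {m m' : ℕ}
    (hm : 0 < m) (hmm : m ≠ m') : (ε : ℝ) / 4 ≤ box (tp ε m) (tp ε m') := by
  by_contra hcon
  push Not at hcon
  obtain ⟨η, hη', hη⟩ := exists_lt_box hcon
  obtain ⟨hη0, φ, ψ, I, hφm, hφ, hψm, hψ, hI, hIm, hd⟩ : 0 ≤ η ∧ ∃ (φ : II → ℝ) (ψ : II → ℝ)
      (I : Set II), Measurable φ ∧ leb.map φ = tpMeasure ε m ∧ Measurable ψ ∧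
      leb.map ψ = tpMeasure ε m' ∧ MeasurableSet I ∧ ENNReal.ofReal (1 - η) ≤ leb I ∧
      ∀ s ∈ I, ∀ t ∈ I, |dist (φ s) (φ t) - dist (ψ s) (ψ t)| ≤ η := by
    obtain ⟨hη0, φ, ψ, I, hφ, hψ, hI, hIm, hd⟩ := hη'
    exact ⟨hη0, φ, ψ, I, hφ.1, hφ.2, hψ.1, hψ.2, hI, hIm, hd⟩
  rw [leb_real_iff] at hIm
  have hm0 : ((m : ℝ)) ≠ 0 := by positivity
  -- `φ = m` on a set of measure `ε`
  have h1 : leb.real (φ ⁻¹' {(m : ℝ)}) = ε := by
    rw [map_real hφm hφ (measurableSet_singleton _), tp_real ε m (measurableSet_singleton (m : ℝ))]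
    simp [hm0.symm]
  have h2 : leb.real (φ ⁻¹' {(0 : ℝ)}) = 1 - ε := by
    rw [map_real hφm hφ (measurableSet_singleton _), tp_real ε m (measurableSet_singleton (0 : ℝ))]
    simp [hm0]
  have h3 : leb.real (ψ ⁻¹' {(0 : ℝ), (m' : ℝ)}) = 1 := by
    have hms : MeasurableSet ({(0 : ℝ), (m' : ℝ)} : Set ℝ) := (measurableSet_singleton _).insert _
    rw [map_real hψm hψ hms, tp_real ε m' hms]
    simp
  have hms : MeasurableSet (ψ ⁻¹' {(0 : ℝ), (m' : ℝ)}) :=
    hψm ((measurableSet_singleton _).insert _)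
  have h4 : ∀ {s : Set II} {a : ℝ}, MeasurableSet s → 1 - a ≤ leb.real s → a + η < 1 →
      ∃ x, x ∈ s ∧ x ∈ I ∧ x ∈ ψ ⁻¹' {(0 : ℝ), (m' : ℝ)} := by
    intro s a hs h5 h6
    have h7 := real_inter leb (hs.inter hI) hms (real_inter leb hs hI h5 hIm)
      (b := 0) (by rw [h3]; simp)
    have h8 : 0 < leb.real (s ∩ I ∩ ψ ⁻¹' {(0 : ℝ), (m' : ℝ)}) := by linarith
    have h9 : (s ∩ I ∩ ψ ⁻¹' {(0 : ℝ), (m' : ℝ)}).Nonempty := by
      rw [nonempty_iff_ne_empty]
      intro h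
      rw [h] at h8
      simp at h8
    obtain ⟨x, hx⟩ := h9
    exact ⟨x, hx.1.1, hx.1.2, hx.2⟩
  obtain ⟨s, hs1, hs2, hs3⟩ := h4 (a := 1 - ε) (hφm (measurableSet_singleton (m : ℝ)))
    (by rw [h1]; linarith) (by linarith)
  obtain ⟨t, ht1, ht2, ht3⟩ := h4 (a := (ε : ℝ)) (hφm (measurableSet_singleton (0 : ℝ)))
    (by rw [h2]) (by linarith)
  have h5 := hd s hs2 t ht2
  have h6 : dist (φ s) (φ t) = m := by
    have e1 : φ s = (m : ℝ) := hs1
    have e2 : φ t = (0 : ℝ) := ht1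
    rw [e1, e2]
    simp
  have hη1 : η < 1 := by linarith
  have hm1 : (1 : ℝ) ≤ m := by exact_mod_cast hm
  have h7 : dist (ψ s) (ψ t) = 0 ∨ dist (ψ s) (ψ t) = m' := by
    have e1 : ψ s = (0 : ℝ) ∨ ψ s = (m' : ℝ) := hs3
    have e2 : ψ t = (0 : ℝ) ∨ ψ t = (m' : ℝ) := ht3
    rcases e1 with e1 | e1 <;> rcases e2 with e2 | e2 <;> rw [e1, e2] <;> simp
  rw [h6] at h5
  rcases h7 with h7 | h7
  · rw [h7, sub_zero, abs_of_pos (by linarith)] at h5
    linarith
  · rw [h7] at h5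
    have h8 : (1 : ℝ) ≤ |(m : ℝ) - m'| := by
      have h9 : (1 : ℤ) ≤ |(m : ℤ) - m'| := Int.one_le_abs (by omega)
      exact_mod_cast h9
    linarith

/-- The topologization of Kuratowski–Painlevé convergence on the closed subsets of the space of
mm-spaces with the box distance is not Hausdorff. -/
theorem main : ¬ @T2Space _ (tauK XX) := by
  let _ : PseudoMetricSpace XX := boxPM
  refine not_separated (Y := XX) (Quotient.mk _ pt) ?_ (tauK XX) (admissible_tauK XX)
  intro n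
  have hn : (0 : ℝ) < (n : ℝ) + 2 := by positivity
  let ε : unitInterval := ⟨1 / ((n : ℝ) + 2), by positivity, by
    rw [div_le_one hn]; linarith [n.cast_nonneg (α := ℝ)]⟩
  have hε : (0 : ℝ) < ε := by
    show 0 < 1 / ((n : ℝ) + 2)
    positivity
  have hε2 : (ε : ℝ) ≤ 1 / 2 := by
    show 1 / ((n : ℝ) + 2) ≤ 1 / 2
    have : (0 : ℝ) ≤ n := n.cast_nonneg
    gcongr
    linarith
  refine ⟨fun m => Quotient.mk _ (tp ε (m + 1 : ℕ)), ε / 4, by positivity, ?_, ?_⟩
  · intro m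
    show box (tp ε (m + 1 : ℕ)) pt ≤ _
    refine (box_tp_pt ε _).trans ?_
    show 1 / ((n : ℝ) + 2) ≤ 1 / ((n : ℝ) + 1)
    have : (0 : ℝ) ≤ n := n.cast_nonneg
    gcongr
    norm_num
  · intro m m' hmm
    show (ε : ℝ) / 4 ≤ box (tp ε (m + 1 : ℕ)) (tp ε (m' + 1 : ℕ))
    exact box_tp_tp ε hε hε2 (Nat.succ_pos m) (by omega)

end Pool.Agent.N488.KP
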